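import Pool.Agent.Lib.MP_65847d_pr.C.Types

/-!
# C/Acyc : the vertices with the same negative total span a forest

Suppose there is a cycle in `G.induce L`: vertices `u 0, ..., u (n-1)` (`n ≥ 3`, indices mod `n`),
all with `tot = a < 0`, consecutive ones adjacent. By `gen` with `T = (nbr (u i)) \ {u (i-1), u (i+1)}`:
`tot (u i) - M (u (i-1)) (u i) - M (u (i+1)) (u i) = a_i - β b_i`, `a_i ≥ 1`.
Summing over `i` and shifting the index gives `0 = ∑ a_i - β ∑ b_i`, contradicting irrationality.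
-/

set_option autoImplicit false

open Finset

namespace Pool.MP_65847d_pr

variable {N V : Type*} [Fintype N] [DecidableEq N] [Fintype V] [DecidableEq V]

theorem level_acyclic {β : ℝ} (hβ : Irrational β) {G : SimpleGraph N} {R : V → N} {M : N → N → ℝ}
    (hM : Fixed β G R M) {a : ℝ} (ha : a < 0) (L : Set N)
    (hL : ∀ u ∈ L, (∀ x, R x ≠ u) ∧ tot β G R M u = a) : (G.induce L).IsAcyclic := by
  classical
  rw [SimpleGraph.isAcyclic_iff_free_cycleGraph]
  rintro n hn ⟨f⟩
  obtain ⟨m, rfl⟩ : ∃ m, n = m + 3 := ⟨n - 3, by omega⟩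
  set u : Fin (m + 3) → N := fun i => (f i : N) with hu
  have huinj : Function.Injective u := by
    intro i j h
    exact f.injective (Subtype.ext h)
  have hadj : ∀ i, G.Adj (u i) (u (i + 1)) := by
    intro i
    have h1 : (SimpleGraph.cycleGraph (m + 3)).Adj i (i + 1) := by
      rw [SimpleGraph.cycleGraph_adj]
      right
      simp
    have h2 := f.toHom.map_adj h1
    exact h2
  have hnr : ∀ i, ∀ x, R x ≠ u i := fun i => (hL _ (f i).2).1
  have htot : ∀ i, tot β G R M (u i) = a := fun i => (hL _ (f i).2).2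
  have hpair : ∀ i, M (u i) (u (i + 1)) + M (u (i + 1)) (u i) = a := by
    intro i
    have h := msg_of_eq hβ hM (hnr i) (hnr (i + 1)) (hadj i) (by rw [htot, htot]) (by rw [htot]; exact ha)
    rw [h.1, htot]
  have hne2 : (2 : Fin (m + 3)) ≠ 0 := by
    intro h
    have := congrArg Fin.val h
    simp only [Fin.val_zero] at this
    have h2 : ((2 : Fin (m + 3)) : ℕ) = 2 := Fin.val_two
    omega
  have hneq : ∀ i, u i ≠ u (i + 1 + 1) := by
    intro i h
    have h1 := huinj h
    apply hne2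
    have h3 : i + 2 = i := by
      calc i + 2 = i + (1 + 1) := by congr 1
        _ = i + 1 + 1 := (add_assoc _ _ _).symm
        _ = i := h1.symm
    simpa using h3
  have hgen : ∀ i, ∃ p q : ℕ, 1 ≤ p ∧
      a - M (u i) (u (i + 1)) - M (u (i + 1 + 1)) (u (i + 1)) = p - β * q := by
    intro i
    have hm1 : u i ∈ nbr G R (u (i + 1)) := by
      rw [nbr, mem_filter]
      exact ⟨mem_univ _, (hadj i).symm, hnr i⟩
    have hm2 : u (i + 1 + 1) ∈ (nbr G R (u (i + 1))).erase (u i) := by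
      rw [mem_erase, nbr, mem_filter]
      exact ⟨(hneq i).symm, mem_univ _, hadj (i + 1), hnr _⟩
    obtain ⟨p, q, hp, h⟩ := hM.gen (u (i + 1)) (hnr _)
      (((nbr G R (u (i + 1))).erase (u i)).erase (u (i + 1 + 1)))
      ((erase_subset _ _).trans (erase_subset _ _))
    refine ⟨p, q, hp, ?_⟩
    rw [← h]
    have h1 := add_sum_erase (nbr G R (u (i + 1))) (fun t => M t (u (i + 1))) hm1
    have h2 := add_sum_erase ((nbr G R (u (i + 1))).erase (u i)) (fun t => M t (u (i + 1))) hm2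
    have h3 := htot (i + 1)
    rw [tot] at h3
    linarith
  choose p q hp hpq using hgen
  have hsum : ∑ i, (a - M (u i) (u (i + 1)) - M (u (i + 1 + 1)) (u (i + 1))) = 0 := by
    have e1 : ∑ i, M (u (i + 1 + 1)) (u (i + 1)) = ∑ i, M (u (i + 1)) (u i) :=
      Equiv.sum_comp (Equiv.addRight (1 : Fin (m + 3))) (fun i => M (u (i + 1)) (u i))
    have e2 : ∑ i, (M (u i) (u (i + 1)) + M (u (i + 1)) (u i)) = ∑ _i : Fin (m + 3), a :=
      sum_congr rfl fun i _ => hpair i
    rw [sum_add_distrib] at e2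
    rw [sum_sub_distrib, sum_sub_distrib, e1]
    linarith
  rw [sum_congr rfl fun i _ => hpq i, sum_sub_distrib, ← mul_sum, ← Nat.cast_sum, ← Nat.cast_sum] at hsum
  have hpos : 1 ≤ ∑ i, p i :=
    (hp 0).trans (single_le_sum (f := p) (fun i _ => Nat.zero_le _) (mem_univ 0))
  have hq0 : (∑ i, q i) ≠ 0 := by
    intro h
    rw [h] at hsum
    have : ((∑ i, p i : ℕ) : ℝ) = 0 := by simpa using hsum
    have h2 : (∑ i, p i) = 0 := by exact_mod_cast this
    omega
  apply hβ
  refine ⟨((∑ i, p i : ℕ) : ℚ) / ((∑ i, q i : ℕ) : ℚ), ?_⟩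
  rw [Rat.cast_div, Rat.cast_natCast, Rat.cast_natCast]
  have hq0r : ((∑ i, q i : ℕ) : ℝ) ≠ 0 := by exact_mod_cast hq0
  rw [div_eq_iff hq0r]
  linarith

end Pool.MP_65847d_pr
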