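import Mathlib

/-!
# C/BVal : the exponents of the exploration of a forest

`K` is a graph on `Fin k` in which every vertex `i` has at most one neighbour `> i` (its parent; the neighbours `< i` are
its children). `bval δ i` is defined by recursion over the children.

* `bval_continuous`: strong induction on `i`; finite sums, `max` of continuous functions.
* `bval_zero_ge`: for every `i` there is `U i` (connected, `i ∈ U i`, all elements `≤ i`) with
  `bval 0 i = α + ∑_{y ∈ U i} (1 - α - ∑_{a ∈ A y} max 0 (α - θ a))`, namely `{i}` together with the `U j` of those children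
  `j` with `bval 0 j < α` (these are pairwise disjoint because the sets `U j` lie in different branches: every element of `U j`
  other than `j` has its parent in `U j`, so the path of parents from an element of `U j` leads to `j`; connectedness: union of connected sets each
  joined to `i`). Strong induction on `i`. Useful invariant for `U j`: `j ∈ U j`, elements `≤ j`, and every element `≠ j` of `U j` has a
  neighbour in `U j` which is larger than it (its parent); disjointness for two children `j ≠ j'` of `i`: take the largest common element;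
  if it is `≠ j, j'` its parent is common too; if it is `j` then `j ∈ U j'`, `j ≠ j'`, so the parent `i` of `j` is in `U j'`, but `i > j'`.)
  Then apply the hypothesis to `U i`.
* `exists_delta`: from the other two, finitely many `i` (`k = 0` is fine too).
-/

set_option autoImplicit false

open Finset

namespace Pool.MP_65847d_pr

variable {V : Type*}

open Classical in
/-- exponent of the number of vertices of `G` which can play the role of `i`, with losses `δ` -/
noncomputable def bval (α : ℝ) (θ : V → ℝ) {k : ℕ} (K : SimpleGraph (Fin k)) (A : Fin k → Finset V)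
    (δ : ℝ) (i : Fin k) : ℝ :=
  1 - δ - ∑ a ∈ A i, (max 0 (α - θ a + δ) + δ) -
    ∑ j : {j : Fin k // j < i ∧ K.Adj j i}, (max 0 (α - bval α θ K A δ j.1) + δ)
termination_by i
decreasing_by exact j.2.1

open Classical in
private theorem bval_eq (α : ℝ) (θ : V → ℝ) {k : ℕ} (K : SimpleGraph (Fin k)) (A : Fin k → Finset V)
    (δ : ℝ) (i : Fin k) : bval α θ K A δ i =
  1 - δ - ∑ a ∈ A i, (max 0 (α - θ a + δ) + δ) -
    ∑ j : {j : Fin k // j < i ∧ K.Adj j i}, (max 0 (α - bval α θ K A δ j.1) + δ) := by
  rw [bval]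

theorem bval_continuous (α : ℝ) (θ : V → ℝ) {k : ℕ} (K : SimpleGraph (Fin k))
    (A : Fin k → Finset V) (i : Fin k) : Continuous fun δ => bval α θ K A δ i := by
  classical
  induction i using WellFoundedLT.induction with
  | ind i ih =>
    have h : (fun δ => bval α θ K A δ i) = fun δ =>
        1 - δ - ∑ a ∈ A i, (max 0 (α - θ a + δ) + δ) -
          ∑ j : {j : Fin k // j < i ∧ K.Adj j i}, (max 0 (α - bval α θ K A δ j.1) + δ) := by
      funext δ
      rw [bval_eq]
    rw [h]
    refine ((continuous_const.sub continuous_id).sub ?_).sub ?_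
    · refine continuous_finsetSum _ fun a _ => ?_
      exact (continuous_const.max (continuous_const.add continuous_id)).add continuous_id
    · refine continuous_finsetSum _ fun j _ => ?_
      exact (continuous_const.max (continuous_const.sub (ih j.1 j.2.1))).add continuous_id

/-- the invariant of the sets of `exists_set` -/
private def Inv {k : ℕ} (K : SimpleGraph (Fin k)) (i : Fin k) (U : Finset (Fin k)) : Prop :=
  i ∈ U ∧ (∀ y ∈ U, y ≤ i) ∧ ∀ y ∈ U, y ≠ i → ∃ z ∈ U, y < z ∧ K.Adj y z

private theorem Inv.connected {k : ℕ} {K : SimpleGraph (Fin k)} {i : Fin k} {U : Finset (Fin k)}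
    (h : Inv K i U) : (K.induce (U : Set (Fin k))).Connected := by
  obtain ⟨hi, hle, hp⟩ := h
  have key : ∀ m : ℕ, ∀ y : Fin k, ∀ hy : y ∈ (U : Set (Fin k)), (k - y.val = m) →
      (K.induce (U : Set (Fin k))).Reachable ⟨y, hy⟩ ⟨i, hi⟩ := by
    intro m
    induction m using Nat.strong_induction_on with
    | _ m ih =>
      intro y hy hm
      by_cases hyi : y = i
      · subst hyi
        exact SimpleGraph.Reachable.refl _
      · obtain ⟨z, hz, hyz, hadj⟩ := hp y hy hyi
        have h1 : (K.induce (U : Set (Fin k))).Adj ⟨y, hy⟩ ⟨z, hz⟩ := hadj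
        have hlt : y.val < z.val := hyz
        have hz2 := z.isLt
        exact h1.reachable.trans (ih (k - z.val) (by omega) z hz rfl)
  have : Nonempty (U : Set (Fin k)) := ⟨⟨i, hi⟩⟩
  refine SimpleGraph.Connected.mk fun x y => ?_
  exact (key _ x.1 x.2 rfl).trans (key _ y.1 y.2 rfl).symm

private theorem Inv.disjoint {k : ℕ} {K : SimpleGraph (Fin k)}
    (hord : ∀ i j l, i < j → i < l → K.Adj i j → K.Adj i l → j = l) {i j j' : Fin k}
    {U U' : Finset (Fin k)} (h : Inv K j U) (h' : Inv K j' U') (hj : j < i) (hj' : j' < i)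
    (hadj : K.Adj j i) (hadj' : K.Adj j' i) (hne : j ≠ j') : Disjoint U U' := by
  by_contra hcon
  rw [Finset.not_disjoint_iff_nonempty_inter] at hcon
  have hmem := Finset.max'_mem _ hcon
  have hmax := Finset.le_max' (U ∩ U')
  set y := (U ∩ U').max' hcon with hy
  rw [Finset.mem_inter] at hmem
  by_cases h1 : y = j
  · have h2 : y ≠ j' := fun e => hne (h1.symm.trans e)
    obtain ⟨z, hz, hyz, hz2⟩ := h'.2.2 y hmem.2 h2
    have : z = i := by
      rw [h1] at hyz hz2
      exact hord j z i hyz hj hz2 hadj
    have := h'.2.1 z hz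
    subst_vars
    exact absurd (lt_of_le_of_lt this hj') (lt_irrefl _)
  · by_cases h2 : y = j'
    · obtain ⟨z, hz, hyz, hz2⟩ := h.2.2 y hmem.1 h1
      have : z = i := by
        rw [h2] at hyz hz2
        exact hord j' z i hyz hj' hz2 hadj'
      have := h.2.1 z hz
      subst_vars
      exact absurd (lt_of_le_of_lt this hj) (lt_irrefl _)
    · obtain ⟨z, hz, hyz, hz2⟩ := h.2.2 y hmem.1 h1
      obtain ⟨z', hz', hyz', hz2'⟩ := h'.2.2 y hmem.2 h2
      have : z = z' := hord y z z' hyz hyz' hz2 hz2'
      subst this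
      have := hmax z (Finset.mem_inter.2 ⟨hz, hz'⟩)
      exact absurd (lt_of_lt_of_le hyz this) (lt_irrefl _)

private theorem exists_set (α : ℝ) (θ : V → ℝ) {k : ℕ} (K : SimpleGraph (Fin k)) (A : Fin k → Finset V)
    (hord : ∀ i j l, i < j → i < l → K.Adj i j → K.Adj i l → j = l) (i : Fin k) :
    ∃ U : Finset (Fin k), Inv K i U ∧
      bval α θ K A 0 i = α + ∑ y ∈ U, (1 - α - ∑ a ∈ A y, max 0 (α - θ a)) := by
  classical
  induction i using WellFoundedLT.induction with
  | ind i ih =>
    have ih' : ∀ j : Fin k, ∃ U : Finset (Fin k), j < i → Inv K j U ∧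
        bval α θ K A 0 j = α + ∑ y ∈ U, (1 - α - ∑ a ∈ A y, max 0 (α - θ a)) := by
      intro j
      by_cases hj : j < i
      · obtain ⟨U, hU⟩ := ih j hj
        exact ⟨U, fun _ => hU⟩
      · exact ⟨∅, fun h => absurd h hj⟩
    choose U hU using ih'
    set S : Finset (Fin k) := univ.filter fun j => (j < i ∧ K.Adj j i) ∧ bval α θ K A 0 j < α with hS
    have hSmem : ∀ j, j ∈ S ↔ (j < i ∧ K.Adj j i) ∧ bval α θ K A 0 j < α := by
      intro j; simp [hS]
    have hni : i ∉ S.biUnion U := by
      intro h
      rw [Finset.mem_biUnion] at h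
      obtain ⟨j, hj, hij⟩ := h
      rw [hSmem] at hj
      have := (hU j hj.1.1).1.2.1 i hij
      exact absurd (lt_of_le_of_lt this hj.1.1) (lt_irrefl _)
    refine ⟨insert i (S.biUnion U), ⟨Finset.mem_insert_self _ _, ?_, ?_⟩, ?_⟩
    · intro y hy
      rw [Finset.mem_insert] at hy
      rcases hy with rfl | hy
      · exact le_rfl
      · rw [Finset.mem_biUnion] at hy
        obtain ⟨j, hj, hij⟩ := hy
        rw [hSmem] at hj
        exact ((hU j hj.1.1).1.2.1 y hij).trans hj.1.1.le
    · intro y hy hyi
      rw [Finset.mem_insert] at hy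
      rcases hy with rfl | hy
      · exact absurd rfl hyi
      · rw [Finset.mem_biUnion] at hy
        obtain ⟨j, hj, hij⟩ := hy
        have hj' := (hSmem j).1 hj
        by_cases hyj : y = j
        · subst hyj
          exact ⟨i, Finset.mem_insert_self _ _, hj'.1.1, hj'.1.2⟩
        · obtain ⟨z, hz, h1, h2⟩ := (hU j hj'.1.1).1.2.2 y hij hyj
          exact ⟨z, Finset.mem_insert_of_mem (Finset.mem_biUnion.2 ⟨j, hj, hz⟩), h1, h2⟩
    · rw [Finset.sum_insert hni, Finset.sum_biUnion, bval_eq]
      · have e1 : ∑ j : {j : Fin k // j < i ∧ K.Adj j i}, (max 0 (α - bval α θ K A 0 j.1) + 0) =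
            ∑ j ∈ univ.filter (fun j : Fin k => j < i ∧ K.Adj j i), max 0 (α - bval α θ K A 0 j) := by
          simp only [add_zero]
          rw [Finset.sum_subtype (univ.filter (fun j : Fin k => j < i ∧ K.Adj j i))
            (p := fun j => j < i ∧ K.Adj j i) (by intro x; simp)
            (fun j => max 0 (α - bval α θ K A 0 j))]
        have e2 : ∑ j ∈ univ.filter (fun j : Fin k => j < i ∧ K.Adj j i),
            max 0 (α - bval α θ K A 0 j) = ∑ j ∈ S, (α - bval α θ K A 0 j) := by
          have hSS : S = (univ.filter (fun j : Fin k => j < i ∧ K.Adj j i)).filter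
              (fun j => bval α θ K A 0 j < α) := by
            ext j
            rw [hSmem, Finset.mem_filter, Finset.mem_filter]
            simp
          rw [hSS, Finset.sum_filter (fun j => bval α θ K A 0 j < α)]
          refine Finset.sum_congr rfl fun j _ => ?_
          split_ifs with h
          · exact max_eq_right (by linarith)
          · exact max_eq_left (by linarith [not_lt.1 h])
        have e3 : ∑ j ∈ S, ∑ y ∈ U j, (1 - α - ∑ a ∈ A y, max 0 (α - θ a)) =
            ∑ j ∈ S, (bval α θ K A 0 j - α) := by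
          refine Finset.sum_congr rfl fun j hj => ?_
          rw [(hU j ((hSmem j).1 hj).1.1).2]
          ring
        have e4 : ∑ a ∈ A i, (max 0 (α - θ a + 0) + 0) = ∑ a ∈ A i, max 0 (α - θ a) := by
          simp only [add_zero]
        have e5 : ∑ j ∈ S, (α - bval α θ K A 0 j) = - ∑ j ∈ S, (bval α θ K A 0 j - α) := by
          rw [← Finset.sum_neg_distrib]
          exact Finset.sum_congr rfl fun j _ => by ring
        rw [e1, e2, e3, e4, e5]
        ring
      · intro j hj j' hj' hne
        have h1 := (hSmem j).1 hj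
        have h2 := (hSmem j').1 hj'
        exact Inv.disjoint hord (hU j h1.1.1).1 (hU j' h2.1.1).1 h1.1.1 h2.1.1 h1.1.2 h2.1.2 hne

theorem bval_zero_ge (α : ℝ) (θ : V → ℝ) {k : ℕ} (K : SimpleGraph (Fin k)) (A : Fin k → Finset V)
    (hord : ∀ i j l, i < j → i < l → K.Adj i j → K.Adj i l → j = l) {c : ℝ}
    (hc : ∀ U : Finset (Fin k), (K.induce (U : Set (Fin k))).Connected →
      c ≤ α + ∑ y ∈ U, (1 - α - ∑ a ∈ A y, max 0 (α - θ a))) (i : Fin k) :
    c ≤ bval α θ K A 0 i := by
  obtain ⟨U, hU, h⟩ := exists_set α θ K A hord i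
  rw [h]
  exact hc U hU.connected

theorem exists_delta (α : ℝ) (θ : V → ℝ) {k : ℕ} (K : SimpleGraph (Fin k)) (A : Fin k → Finset V)
    (hord : ∀ i j l, i < j → i < l → K.Adj i j → K.Adj i l → j = l) {c : ℝ}
    (hc : ∀ U : Finset (Fin k), (K.induce (U : Set (Fin k))).Connected →
      c ≤ α + ∑ y ∈ U, (1 - α - ∑ a ∈ A y, max 0 (α - θ a))) {c' δ₁ : ℝ} (hc' : c' < c)
    (hδ₁ : 0 < δ₁) : ∃ δ, 0 < δ ∧ δ ≤ δ₁ ∧ ∀ i, c' ≤ bval α θ K A δ i := by
  have h1 : ∀ i : Fin k, ∀ᶠ δ in nhds (0 : ℝ), c' < bval α θ K A δ i := by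
    intro i
    have h2 : c' < bval α θ K A 0 i := lt_of_lt_of_le hc' (bval_zero_ge α θ K A hord hc i)
    exact (bval_continuous α θ K A i).continuousAt.eventually (lt_mem_nhds h2)
  have h3 : ∀ᶠ δ in nhds (0 : ℝ), ∀ i, c' < bval α θ K A δ i := Filter.eventually_all.2 h1
  rw [Metric.eventually_nhds_iff] at h3
  obtain ⟨ε, hε, h4⟩ := h3
  refine ⟨min (ε / 2) δ₁, lt_min (by positivity) hδ₁, min_le_right _ _, fun i => ?_⟩
  refine (h4 ?_ i).le
  rw [Real.dist_eq, sub_zero, abs_of_pos (lt_min (by positivity) hδ₁)]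
  exact lt_of_le_of_lt (min_le_left _ _) (by linarith)

end Pool.MP_65847d_pr
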