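import Pool.Agent.Lib.MP_65847d_pr.Defs

/-!
# Stable vectors and the threshold exponent
-/

set_option autoImplicit false

open Finset

namespace Pool.MP_65847d_pr

/-- The cost of attaching a colour `a` at level `w`: here `n ^ W a` is (roughly) the number of vertices
of colour `a`, of which `n ^ min (W a) w` are used, and the edge probability is `n ^ (-α)`. -/
noncomputable def kap {V : Type*} (α : ℝ) (W : V → ℝ) (w : ℝ) (a : V) : ℝ :=
  max 0 (α - min (W a) w)

/-- The weight of a set `U` of vertices, where colours `A y` are attached to the vertex `y`. -/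
noncomputable def wgt {V ι : Type*} (α : ℝ) (W : V → ℝ) (w : ℝ) (A : ι → Finset V) (U : Finset ι) : ℝ :=
  α + ∑ y ∈ U, (1 - α - ∑ a ∈ A y, kap α W w a)

/-- Every nonempty connected set of vertices of `K` has weight more than `w`. -/
def Rich {V ι : Type*} (α : ℝ) (W : V → ℝ) (w : ℝ) (K : SimpleGraph ι) (A : ι → Finset V) : Prop :=
  ∀ U : Finset ι, (K.induce (U : Set ι)).Connected → w < wgt α W w A U

/-- `K` can be mapped homomorphically to the graph with edge relation `E`, using only vertices `a` with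
`w ≤ W a`, such that the image of `y` is adjacent to all elements of `A y`. -/
def Colours {V ι : Type*} (E : V → V → Prop) (W : V → ℝ) (w : ℝ) (K : SimpleGraph ι)
    (A : ι → Finset V) : Prop :=
  ∃ φ : ι → V, (∀ i j, K.Adj i j → E (φ i) (φ j)) ∧ (∀ i, w ≤ W (φ i)) ∧
    ∀ i, ∀ a ∈ A i, E (φ i) a

/-- The vector `W` is stable at `α`. -/
def Stable {V : Type*} (E : V → V → Prop) (α : ℝ) (W : V → ℝ) : Prop :=
  (∀ a, 0 ≤ W a ∧ W a ≤ 1) ∧
    ∀ w : ℝ, 0 ≤ w → ∀ (k : ℕ) (K : SimpleGraph (Fin k)) (A : Fin k → Finset V),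
      K.IsAcyclic → Rich α W w K A → Colours E W w K A

/-- The threshold exponent `α*`: the infimum of `1` and of all `α` in `(0, 1)` at which some vector is
stable. -/
noncomputable def expo {V : Type*} (E : V → V → Prop) : ℝ :=
  sInf ({α : ℝ | 0 < α ∧ α < 1 ∧ ∃ W : V → ℝ, Stable E α W} ∪ {1})

end Pool.MP_65847d_pr
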