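import Mathlib

/-!
# C/LeafOrder : elimination order of a finite forest

Proof. Every nonempty finite acyclic graph has a vertex of degree at most one (take a connected component, it is a tree:
`SimpleGraph.IsAcyclic.isTree_connectedComponent`, `SimpleGraph.IsTree.exists_vert_degree_one_of_nontrivial`; or a longest path / `isTree_iff_connected_and_card`).
Remove it (`IsAcyclic.induce`) and continue: for every finite type `ι` of cardinality `k` with an acyclic graph `K` there is
`e : Fin k ≃ ι` such that every `e i` has at most one neighbour among the `e j`, `j > i`. (Induction on `k`; the removed leaf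
gets index `0`, e.g. with `finSuccEquiv` and `Equiv.optionSubtypeNe`.)
-/

set_option autoImplicit false

open Finset

namespace Pool.MP_65847d_pr

private theorem exists_leaf {ι : Type} [Fintype ι] [Nonempty ι] (K : SimpleGraph ι) (hK : K.IsAcyclic) :
    ∃ v : ι, ∀ a b, K.Adj v a → K.Adj v b → a = b := by
  classical
  obtain ⟨T, hKT, -, hT⟩ := (SimpleGraph.connected_top (V := ι)).exists_isTree_le_of_le_of_isAcyclic
    (le_top : K ≤ ⊤) hK
  rcases subsingleton_or_nontrivial ι with hs | hn
  · exact ⟨Classical.arbitrary ι, fun a b _ _ => Subsingleton.elim a b⟩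
  · obtain ⟨v, hv⟩ := hT.exists_vert_degree_one_of_nontrivial
    refine ⟨v, fun a b ha hb => ?_⟩
    rw [← SimpleGraph.card_neighborFinset_eq_degree, Finset.card_eq_one] at hv
    obtain ⟨x, hx⟩ := hv
    have h1 : a ∈ T.neighborFinset v := by
      rw [SimpleGraph.mem_neighborFinset]; exact hKT ha
    have h2 : b ∈ T.neighborFinset v := by
      rw [SimpleGraph.mem_neighborFinset]; exact hKT hb
    rw [hx, Finset.mem_singleton] at h1 h2
    rw [h1, h2]

private theorem exists_elim_aux (k : ℕ) : ∀ (ι : Type) [Fintype ι] (_ : Fintype.card ι = k)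
    (K : SimpleGraph ι) (_ : K.IsAcyclic),
    ∃ e : Fin k ≃ ι, ∀ i j l, i < j → i < l → K.Adj (e i) (e j) → K.Adj (e i) (e l) → j = l := by
  classical
  induction k with
  | zero =>
    intro ι _ hc K hK
    exact ⟨(Fintype.equivFinOfCardEq hc).symm, fun i => i.elim0⟩
  | succ k ih =>
    intro ι _ hc K hK
    have : Nonempty ι := by
      rw [← Fintype.card_pos_iff]; omega
    obtain ⟨v, hv⟩ := exists_leaf K hK
    have hc' : Fintype.card {x : ι // x ≠ v} = k := by
      rw [Fintype.card_subtype_compl, Fintype.card_subtype_eq, hc]; rfl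
    have hK' : (K.comap (Subtype.val : {x : ι // x ≠ v} → ι)).IsAcyclic :=
      hK.comap (SimpleGraph.Hom.comap _ K) Subtype.val_injective
    obtain ⟨e', he'⟩ := ih {x : ι // x ≠ v} hc' _ hK'
    have e0 : Option {x : ι // x ≠ v} ≃ ι := Equiv.optionSubtypeNe v
    let e : Fin (k + 1) ≃ ι := (finSuccEquiv k).trans
      ((Equiv.optionCongr e').trans (Equiv.optionSubtypeNe v))
    have h0 : e 0 = v := by simp [e]
    have hs : ∀ i : Fin k, e i.succ = (e' i).1 := by intro i; simp [e]
    refine ⟨e, fun i j l hij hil h1 h2 => ?_⟩
    induction i using Fin.cases with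
    | zero =>
      rw [h0] at h1 h2
      exact e.injective (hv _ _ h1 h2)
    | succ i =>
      induction j using Fin.cases with
      | zero => exact absurd hij (by simp)
      | succ j =>
        induction l using Fin.cases with
        | zero => exact absurd hil (by simp)
        | succ l =>
          rw [hs, hs] at h1 h2
          rw [he' i j l (Fin.succ_lt_succ_iff.1 hij) (Fin.succ_lt_succ_iff.1 hil) h1 h2]

theorem exists_elim_order {k : ℕ} (K : SimpleGraph (Fin k)) (hK : K.IsAcyclic) :
    ∃ e : Fin k ≃ Fin k, ∀ i j l, i < j → i < l → K.Adj (e i) (e j) → K.Adj (e i) (e l) → j = l :=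
  exists_elim_aux k (Fin k) (Fintype.card_fin k) K hK

end Pool.MP_65847d_pr
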