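import Pool.Agent.Lib.MP_65847d_pr.C.EmbedFixed
import Pool.Agent.Lib.MP_65847d_pr.C.LeafOrder

/-!
# C/EmbedAll : embedding a forest with all choices of attached sets and avoided sets simultaneously

Proof. If `k = 0` the event always holds. First assume the order property of `exists_elim_order` (transport by `e` at the end: `K.comap e`,
`A ∘ e`, `ψ ∘ e.symm`). `γ = min (wgt - w) > 0` over the finitely many connected `U` (`w < wgt`; there is at least one, `{i}`; also `w < 1` since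
the weight of `{i}` is at most `1`). Apply `exists_delta` with `c = w + γ`, `c' = w + γ/2`, `δ₁ = 1`: get `δ`.
Let `m a = ⌈n ^ (θ a - δ)⌉₊ ≤ n ^ w + 1` (`θ a ≤ w`). If the event fails for `(D, B)`, it fails for subsets `D' a ⊆ D a` with exactly `m a` elements (and the same `B`), so
`Pr ≤ (number of (D', B)) * k exp (-(n ^ c' / 8))`, number `≤ ∏ n ^ (m a) * (n+1) ^ (|V| n^w)` (functions/sets of bounded size), i.e.
`≤ exp ((2 |V| (n ^ w + 1) + 1) log (n+1))`. As `c' > w` this tends to `0`. For large `n` the hypotheses `hn`, `hcard` of `Pr_embed_fixed` hold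
(`w < 1`; for other `n` use `Pr ≤ 1`; define `f n = 1` for small `n`). Number of subsets of `Fin n` with at most `m` elements is at most `(n+1)^m`
(every such set is the image of a list of length `m` over `Option (Fin n)`).
-/

set_option autoImplicit false

open Finset Filter Topology

namespace Pool.MP_65847d_pr

open Pool.MP_1bacea_co

/-- the embedding event -/
def EmbEv {V : Type*} [Fintype V] {k : ℕ} (K : SimpleGraph (Fin k)) (A : Fin k → Finset V) (θ : V → ℝ)
    (w δ : ℝ) (n : ℕ) (G : SimpleGraph (Fin n)) : Prop :=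
  ∀ (D : V → Finset (Fin n)) (B : Finset (Fin n)), (∀ a b, a ≠ b → Disjoint (D a) (D b)) →
    (∀ a, (n : ℝ) ^ (θ a - δ) ≤ (D a).card) → (B.card : ℝ) ≤ Fintype.card V * (n : ℝ) ^ w →
    ∃ ψ : Fin k → Fin n, (∀ i, ψ i ∉ B) ∧ (∀ i j, K.Adj i j → G.Adj (ψ i) (ψ j)) ∧
      ∀ i, ∀ a ∈ A i, ∃ d ∈ D a, G.Adj (ψ i) d

/-- number of small subsets -/
private theorem card_small (n m : ℕ) :
    (univ.filter fun B : Finset (Fin n) => B.card ≤ m).card ≤ (n + 1) ^ m := by
  induction m with
  | zero =>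
    have : (univ.filter fun B : Finset (Fin n) => B.card ≤ 0) = {∅} := by
      ext B
      simp
    rw [this]
    simp
  | succ m ih =>
    have hsub : (univ.filter fun B : Finset (Fin n) => B.card ≤ m + 1) ⊆
        ((univ : Finset (Option (Fin n))) ×ˢ
          (univ.filter fun B : Finset (Fin n) => B.card ≤ m)).image
          fun x => match x.1 with
            | none => x.2
            | some y => insert y x.2 := by
      intro B hB
      have hB' : B.card ≤ m + 1 := by simpa using hB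
      rw [Finset.mem_image]
      by_cases h : B.card ≤ m
      · exact ⟨(none, B), by simp [h], rfl⟩
      · have hne : B.Nonempty := by
          rw [← Finset.card_pos]
          omega
        obtain ⟨y, hy⟩ := hne
        refine ⟨(some y, B.erase y), ?_, ?_⟩
        · have : (B.erase y).card ≤ m := by
            rw [Finset.card_erase_of_mem hy]
            omega
          simp [this]
        · exact Finset.insert_erase hy
    refine (Finset.card_le_card hsub).trans (Finset.card_image_le.trans ?_)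
    rw [Finset.card_product, Finset.card_univ, Fintype.card_option, Fintype.card_fin, pow_succ,
      mul_comm]
    exact Nat.mul_le_mul_right _ ih

/-- asymptotic conditions -/
private theorem ev_a {δ : ℝ} (hδ : 0 < δ) (C : ℝ) (k : ℕ) (hk : 0 < k) :
    ∀ᶠ n : ℕ in atTop, 2 * (n : ℝ) ^ (1 - δ) * C ≤ ((n / (2 * k) : ℕ) : ℝ) := by
  have h1 : Tendsto (fun n : ℕ => 2 * C * (n : ℝ) ^ (-δ)) atTop (𝓝 0) := by
    have := ((tendsto_rpow_neg_atTop hδ).comp tendsto_natCast_atTop_atTop).const_mul (2 * C)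
    simpa using this
  have hk' : (0 : ℝ) < k := by exact_mod_cast hk
  have h2 : ∀ᶠ n : ℕ in atTop, 2 * C * (n : ℝ) ^ (-δ) < 1 / (4 * k) :=
    h1.eventually_lt_const (by positivity)
  filter_upwards [h2, eventually_ge_atTop (4 * k), eventually_ge_atTop 1] with n hn hn4 hn1
  have hn0 : (0 : ℝ) < n := by exact_mod_cast hn1
  have h3 : (n : ℝ) ^ (1 - δ) = n * (n : ℝ) ^ (-δ) := by
    rw [sub_eq_add_neg, Real.rpow_add hn0, Real.rpow_one]
  have h4 : (n : ℝ) / (2 * k) - 1 ≤ ((n / (2 * k) : ℕ) : ℝ) := by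
    have h5 : n < (n / (2 * k) + 1) * (2 * k) := by
      have := Nat.lt_succ_iff.2 (Nat.le_refl (n / (2 * k)))
      exact (Nat.div_lt_iff_lt_mul (by omega)).1 this
    have h6 : (n : ℝ) < (((n / (2 * k) : ℕ) : ℝ) + 1) * (2 * k) := by exact_mod_cast h5
    rw [sub_le_iff_le_add, div_le_iff₀ (by positivity)]
    exact h6.le
  have h7 : (1 : ℝ) ≤ n / (4 * k) := by
    rw [le_div_iff₀ (by positivity)]
    have : ((4 * k : ℕ) : ℝ) ≤ n := by exact_mod_cast hn4
    push_cast at this
    linarith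
  rw [h3]
  calc 2 * (n * (n : ℝ) ^ (-δ)) * C = n * (2 * C * (n : ℝ) ^ (-δ)) := by ring
    _ ≤ n * (1 / (4 * k)) := mul_le_mul_of_nonneg_left hn.le hn0.le
    _ = n / (2 * k) - n / (4 * k) := by field_simp; ring
    _ ≤ n / (2 * k) - 1 := by linarith
    _ ≤ _ := h4

private theorem ev_b {w : ℝ} (hw1 : w < 1) (C : ℝ) :
    ∀ᶠ n : ℕ in atTop, C * ((n : ℝ) ^ w + 1) ≤ n := by
  have h1 : Tendsto (fun n : ℕ => C * ((n : ℝ) ^ (-(1 - w)) + (n : ℝ) ^ (-(1 : ℝ)))) atTop
      (𝓝 0) := by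
    have := (((tendsto_rpow_neg_atTop (by linarith : 0 < 1 - w)).comp
      tendsto_natCast_atTop_atTop).add ((tendsto_rpow_neg_atTop one_pos).comp
      (tendsto_natCast_atTop_atTop (R := ℝ)))).const_mul C
    simpa using this
  filter_upwards [h1.eventually_lt_const one_pos, eventually_ge_atTop 1] with n hn hn1
  have hn0 : (0 : ℝ) < n := by exact_mod_cast hn1
  have h3 : (n : ℝ) ^ w = n * (n : ℝ) ^ (-(1 - w)) := by
    nth_rewrite 2 [← Real.rpow_one (n : ℝ)]
    rw [← Real.rpow_add hn0]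
    congr 1
    ring
  have h4 : (1 : ℝ) = n * (n : ℝ) ^ (-(1 : ℝ)) := by
    rw [Real.rpow_neg_one, mul_inv_cancel₀ hn0.ne']
  calc C * ((n : ℝ) ^ w + 1) = n * (C * ((n : ℝ) ^ (-(1 - w)) + (n : ℝ) ^ (-(1 : ℝ)))) := by
        rw [h3]; nth_rewrite 2 [h4]; ring
    _ ≤ n * 1 := mul_le_mul_of_nonneg_left hn.le hn0.le
    _ = n := mul_one _

private theorem ev_c {w c : ℝ} (hw : 0 ≤ w) (hc : w < c) (C : ℝ) (hC : 0 ≤ C) :
    ∀ᶠ n : ℕ in atTop, C * (2 * (n : ℝ) ^ w + 1) * Real.log (n + 1) ≤ (n : ℝ) ^ c / 16 := by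
  set ε := (c - w) / 2 with hε
  have hε0 : 0 < ε := by rw [hε]; linarith
  have h1 : Tendsto (fun n : ℕ => (C * 3 * ((2 : ℝ) ^ ε / ε)) * (n : ℝ) ^ (-ε)) atTop (𝓝 0) := by
    have := ((tendsto_rpow_neg_atTop hε0).comp
      (tendsto_natCast_atTop_atTop (R := ℝ))).const_mul (C * 3 * ((2 : ℝ) ^ ε / ε))
    simpa using this
  filter_upwards [h1.eventually_lt_const (by norm_num : (0 : ℝ) < 1 / 16),
    eventually_ge_atTop 1] with n hn hn1
  have hn1' : (1 : ℝ) ≤ n := by exact_mod_cast hn1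
  have hn0 : (0 : ℝ) < n := by linarith
  have h2 : Real.log (n + 1) ≤ (2 : ℝ) ^ ε / ε * (n : ℝ) ^ ε := by
    calc Real.log (n + 1) ≤ ((n : ℝ) + 1) ^ ε / ε :=
          Real.log_le_rpow_div (by positivity) hε0
      _ ≤ (2 * (n : ℝ)) ^ ε / ε := by
          gcongr
          linarith
      _ = (2 : ℝ) ^ ε / ε * (n : ℝ) ^ ε := by
          rw [Real.mul_rpow (by norm_num) hn0.le]; ring
  have h3 : 1 ≤ (n : ℝ) ^ w := Real.one_le_rpow hn1' hw
  have hlog : 0 ≤ Real.log ((n : ℝ) + 1) := Real.log_nonneg (by linarith)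
  calc C * (2 * (n : ℝ) ^ w + 1) * Real.log (n + 1)
      ≤ C * (3 * (n : ℝ) ^ w) * ((2 : ℝ) ^ ε / ε * (n : ℝ) ^ ε) := by
        gcongr
        linarith
    _ = (C * 3 * ((2 : ℝ) ^ ε / ε)) * ((n : ℝ) ^ w * (n : ℝ) ^ ε) := by ring
    _ = (C * 3 * ((2 : ℝ) ^ ε / ε)) * ((n : ℝ) ^ (-ε) * (n : ℝ) ^ c) := by
        rw [← Real.rpow_add hn0, ← Real.rpow_add hn0]
        congr 2
        rw [hε]; ring
    _ = (C * 3 * ((2 : ℝ) ^ ε / ε)) * (n : ℝ) ^ (-ε) * (n : ℝ) ^ c := by ring
    _ ≤ 1 / 16 * (n : ℝ) ^ c := by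
        gcongr
    _ = (n : ℝ) ^ c / 16 := by ring

/-- gap -/
private theorem exists_gap {β : Type*} (s : Finset β) (P : β → Prop) (g : β → ℝ) (w : ℝ)
    (h : ∀ x, P x → w < g x) : ∃ γ : ℝ, 0 < γ ∧ ∀ x ∈ s, P x → w + γ ≤ g x := by
  classical
  induction s using Finset.induction_on with
  | empty => exact ⟨1, one_pos, by simp⟩
  | insert a s ha ih =>
    obtain ⟨r, hr, h1⟩ := ih
    by_cases hP : P a
    · refine ⟨min r (g a - w), lt_min hr (by linarith [h a hP]), ?_⟩
      intro b hb hbP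
      rcases Finset.mem_insert.1 hb with rfl | hb
      · linarith [min_le_right r (g b - w)]
      · linarith [h1 b hb hbP, min_le_left r (g a - w)]
    · refine ⟨r, hr, ?_⟩
      intro b hb hbP
      rcases Finset.mem_insert.1 hb with rfl | hb
      · exact absurd hbP hP
      · exact h1 b hb hbP

private theorem embed_all_ord {V : Type*} [Fintype V] [DecidableEq V] {α w : ℝ} (hα : 0 < α)
    (hα1 : α < 1) (hw : 0 ≤ w) (W : V → ℝ) {k : ℕ} (hk : 0 < k) (K : SimpleGraph (Fin k))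
    (hord : ∀ i j l, i < j → i < l → K.Adj i j → K.Adj i l → j = l)
    (A : Fin k → Finset V) (hR : Rich α W w K A) :
    ∃ δ : ℝ, 0 < δ ∧ ∃ f : ℕ → ℝ, Tendsto f atTop (𝓝 0) ∧ ∀ (n : ℕ) (p : ℝ),
      (n : ℝ) ^ (-α) ≤ p → p ≤ 1 →
      Pr p (fun ω : Sym2 (Fin n) → Bool => ¬ EmbEv K A (fun a => min (W a) w) w δ n (Gr ω)) ≤ f n := by
  classical
  -- w < 1
  have hw1 : w < 1 := by
    have h1 := hR {⟨0, hk⟩} (by
      have : Subsingleton (({(⟨0, hk⟩ : Fin k)} : Finset (Fin k)) : Set (Fin k)) := by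
        rw [Finset.coe_singleton]
        infer_instance
      have : Nonempty (({(⟨0, hk⟩ : Fin k)} : Finset (Fin k)) : Set (Fin k)) :=
        ⟨⟨⟨0, hk⟩, by simp⟩⟩
      exact SimpleGraph.Connected.of_subsingleton)
    unfold wgt at h1
    rw [Finset.sum_singleton] at h1
    have h2 : 0 ≤ ∑ a ∈ A ⟨0, hk⟩, kap α W w a :=
      Finset.sum_nonneg fun a _ => le_max_left _ _
    linarith
  obtain ⟨γ, hγ, hγ'⟩ := exists_gap (univ : Finset (Finset (Fin k)))
    (fun U => (K.induce (U : Set (Fin k))).Connected) (fun U => wgt α W w A U) w hR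
  obtain ⟨δ, hδ, hδ1, hb⟩ := exists_delta α (fun a => min (W a) w) K A hord (c := w + γ)
    (fun U hU => hγ' U (mem_univ _) hU) (c' := w + γ / 2) (by linarith) one_pos
  set v : ℝ := ((Fintype.card V : ℕ) : ℝ) with hv
  have hv0 : 0 ≤ v := by rw [hv]; positivity
  obtain ⟨n0, hn0⟩ := Filter.eventually_atTop.1 ((ev_a hδ ((2 : ℝ) ^ (Fintype.card V + k)) k hk).and
    ((ev_b hw1 (4 * v + 1)).and ((ev_c hw (by linarith : w < w + γ / 2) v hv0).and
    (eventually_ge_atTop 1))))
  refine ⟨δ, hδ, fun n => if n0 ≤ n then k * Real.exp (-((n : ℝ) ^ (w + γ / 2) / 16)) else 1,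
    ?_, ?_⟩
  · have h1 : Tendsto (fun n : ℕ => (k : ℝ) * Real.exp (-((n : ℝ) ^ (w + γ / 2) / 16))) atTop
        (𝓝 0) := by
      have h2 : Tendsto (fun n : ℕ => (n : ℝ) ^ (w + γ / 2) / 16) atTop atTop :=
        ((tendsto_rpow_atTop (by linarith : 0 < w + γ / 2)).comp
          tendsto_natCast_atTop_atTop).atTop_div_const (by norm_num)
      have h3 := (Real.tendsto_exp_neg_atTop_nhds_zero.comp h2).const_mul (k : ℝ)
      simpa using h3
    refine h1.congr' ?_
    filter_upwards [eventually_ge_atTop n0] with n hn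
    rw [if_pos hn]
  · intro n p hp hp1
    have hp0 : 0 ≤ p := (Real.rpow_nonneg (Nat.cast_nonneg n) _).trans hp
    by_cases hn : n0 ≤ n
    swap
    · simp only [if_neg hn]
      exact Pr_le_one hp0 hp1 _
    simp only [if_pos hn]
    obtain ⟨ha, hb', hc', hn1⟩ := hn0 n hn
    have hn1' : (1 : ℝ) ≤ n := by exact_mod_cast hn1
    have hnpos : (0 : ℝ) < n := by linarith
    set m : V → ℕ := fun a => ⌈(n : ℝ) ^ (min (W a) w - δ)⌉₊ with hm
    have hmle : ∀ a, (m a : ℝ) ≤ (n : ℝ) ^ w + 1 := by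
      intro a
      have h1 : (m a : ℝ) < (n : ℝ) ^ (min (W a) w - δ) + 1 :=
        Nat.ceil_lt_add_one (by positivity)
      have h2 : (n : ℝ) ^ (min (W a) w - δ) ≤ (n : ℝ) ^ w :=
        Real.rpow_le_rpow_of_exponent_le hn1' (by linarith [min_le_right (W a) w])
      linarith
    set M : ℕ := ⌊(n : ℝ) ^ w + 1⌋₊ with hM
    set N : ℕ := ⌊v * (n : ℝ) ^ w⌋₊ with hN
    have hmM : ∀ a, m a ≤ M := fun a => Nat.le_floor (hmle a)
    -- index set
    set T : Finset ((V → Finset (Fin n)) × Finset (Fin n)) :=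
      ((Fintype.piFinset fun _ : V => univ.filter fun B : Finset (Fin n) => B.card ≤ M) ×ˢ
        (univ.filter fun B : Finset (Fin n) => B.card ≤ N)).filter fun x =>
        (∀ a b, a ≠ b → Disjoint (x.1 a) (x.1 b)) ∧ (∀ a, (x.1 a).card = m a) with hT
    have hTcard : T.card ≤ (n + 1) ^ (M * Fintype.card V + N) := by
      refine (Finset.card_filter_le _ _).trans ?_
      rw [Finset.card_product, Fintype.card_piFinset, Finset.prod_const, Finset.card_univ, pow_add, pow_mul]
      exact Nat.mul_le_mul (Nat.pow_le_pow_left (card_small n M) _) (card_small n N)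
    have h1 : Pr p (fun ω : Sym2 (Fin n) → Bool =>
        ¬ EmbEv K A (fun a => min (W a) w) w δ n (Gr ω)) ≤
        Pr p (fun ω : Sym2 (Fin n) → Bool => ∃ x ∈ T, ¬ ∃ ψ : Fin k → Fin n, (∀ i, ψ i ∉ x.2) ∧
          (∀ i j, K.Adj i j → (Gr ω).Adj (ψ i) (ψ j)) ∧
          ∀ i, ∀ a ∈ A i, ∃ d ∈ x.1 a, (Gr ω).Adj (ψ i) d) := by
      refine Pr_mono hp0 hp1 fun ω hω => ?_
      unfold EmbEv at hω
      push Not at hω
      obtain ⟨D, B, hD1, hD2, hB, hno⟩ := hω
      have hsub : ∀ a, ∃ D' : Finset (Fin n), D' ⊆ D a ∧ D'.card = m a := by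
        intro a
        exact Finset.exists_subset_card_eq (Nat.ceil_le.2 (hD2 a))
      choose D' hD' hD'c using hsub
      refine ⟨(D', B), ?_, ?_⟩
      · rw [hT, Finset.mem_filter, Finset.mem_product]
        refine ⟨⟨?_, ?_⟩, ?_, hD'c⟩
        · rw [Fintype.mem_piFinset]
          intro a
          simp only [mem_filter, mem_univ, true_and]
          rw [hD'c a]
          exact hmM a
        · simp only [mem_filter, mem_univ, true_and]
          exact Nat.le_floor hB
        · intro a b hab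
          exact Finset.disjoint_of_subset_left (hD' a)
            (Finset.disjoint_of_subset_right (hD' b) (hD1 a b hab))
      · rintro ⟨ψ, h1, h2, h3⟩
        obtain ⟨i, a, ha1, ha2⟩ := hno ψ h1 h2
        obtain ⟨d, hd, hd'⟩ := h3 i a ha1
        exact ha2 d (hD' a hd) hd'
    refine h1.trans ((Pr_exists_le hp0 hp1 T _).trans ?_)
    have h2 : ∀ x ∈ T, Pr p (fun ω : Sym2 (Fin n) → Bool => ¬ ∃ ψ : Fin k → Fin n,
        (∀ i, ψ i ∉ x.2) ∧ (∀ i j, K.Adj i j → (Gr ω).Adj (ψ i) (ψ j)) ∧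
          ∀ i, ∀ a ∈ A i, ∃ d ∈ x.1 a, (Gr ω).Adj (ψ i) d) ≤
        k * Real.exp (-((n : ℝ) ^ (w + γ / 2) / 8)) := by
      rintro ⟨D, B⟩ hx
      rw [hT, Finset.mem_filter, Finset.mem_product] at hx
      obtain ⟨⟨hx1, hx2⟩, hx3, hx4⟩ := hx
      have hx2' : B.card ≤ N := by simpa using hx2
      refine Pr_embed_fixed hn1 hp hp1 (fun a => min (W a) w) K A hord hδ hb ha D B hx3 ?_ ?_
      · intro a
        have := hx4 a
        simp only at this
        rw [this]
        exact Nat.le_ceil _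
      · have h3 : ((B.card : ℕ) : ℝ) ≤ v * (n : ℝ) ^ w := by
          have : (B.card : ℝ) ≤ N := by exact_mod_cast hx2'
          exact this.trans (Nat.floor_le (by positivity))
        have h4 : ((∑ a, (D a).card : ℕ) : ℝ) ≤ v * ((n : ℝ) ^ w + 1) := by
          push_cast
          calc ∑ a, ((D a).card : ℝ) ≤ ∑ _a : V, ((n : ℝ) ^ w + 1) := by
                refine Finset.sum_le_sum fun a _ => ?_
                have := hx4 a
                simp only at this
                rw [this]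
                exact hmle a
            _ = v * ((n : ℝ) ^ w + 1) := by
                rw [Finset.sum_const, nsmul_eq_mul, Finset.card_univ]
        have h5 : ((2 * (B.card + ∑ a, (D a).card) : ℕ) : ℝ) ≤ n := by
          push_cast
          push_cast at h4
          have h6 : 0 ≤ v * ((n : ℝ) ^ w) := by positivity
          nlinarith [hb', Real.rpow_nonneg hnpos.le w]
        exact_mod_cast h5
    refine (Finset.sum_le_sum h2).trans ?_
    rw [Finset.sum_const, nsmul_eq_mul]
    have h3 : (T.card : ℝ) ≤ Real.exp ((n : ℝ) ^ (w + γ / 2) / 16) := by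
      have h4 : (T.card : ℝ) ≤ ((n : ℝ) + 1) ^ (M * Fintype.card V + N) := by exact_mod_cast hTcard
      refine h4.trans ?_
      rw [← Real.exp_log (by positivity : (0 : ℝ) < ((n : ℝ) + 1) ^ (M * Fintype.card V + N)),
        Real.log_pow]
      apply Real.exp_le_exp.2
      refine le_trans ?_ hc'
      have hlog : 0 ≤ Real.log ((n : ℝ) + 1) := Real.log_nonneg (by linarith)
      refine mul_le_mul_of_nonneg_right ?_ hlog
      push_cast
      have h5 : (M : ℝ) ≤ (n : ℝ) ^ w + 1 := Nat.floor_le (by positivity)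
      have h6 : (N : ℝ) ≤ v * (n : ℝ) ^ w := Nat.floor_le (by positivity)
      have h7 : (M : ℝ) * v ≤ ((n : ℝ) ^ w + 1) * v := mul_le_mul_of_nonneg_right h5 hv0
      rw [← hv]
      linarith
    calc (T.card : ℝ) * (k * Real.exp (-((n : ℝ) ^ (w + γ / 2) / 8)))
        ≤ Real.exp ((n : ℝ) ^ (w + γ / 2) / 16) *
          (k * Real.exp (-((n : ℝ) ^ (w + γ / 2) / 8))) :=
          mul_le_mul_of_nonneg_right h3 (by positivity)
      _ = k * (Real.exp ((n : ℝ) ^ (w + γ / 2) / 16) *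
          Real.exp (-((n : ℝ) ^ (w + γ / 2) / 8))) := by ring
      _ = k * Real.exp (-((n : ℝ) ^ (w + γ / 2) / 16)) := by
          rw [← Real.exp_add]
          congr 2
          ring

theorem embed_all {V : Type*} [Fintype V] [DecidableEq V] {α w : ℝ} (hα : 0 < α) (hα1 : α < 1)
    (hw : 0 ≤ w) (W : V → ℝ) {k : ℕ} (K : SimpleGraph (Fin k)) (hK : K.IsAcyclic)
    (A : Fin k → Finset V) (hR : Rich α W w K A) :
    ∃ δ : ℝ, 0 < δ ∧ ∃ f : ℕ → ℝ, Tendsto f atTop (𝓝 0) ∧ ∀ (n : ℕ) (p : ℝ),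
      (n : ℝ) ^ (-α) ≤ p → p ≤ 1 →
      Pr p (fun ω : Sym2 (Fin n) → Bool => ¬ EmbEv K A (fun a => min (W a) w) w δ n (Gr ω)) ≤ f n := by
  classical
  rcases Nat.eq_zero_or_pos k with rfl | hk
  · refine ⟨1, one_pos, fun _ => 0, tendsto_const_nhds, fun n p hp hp1 => ?_⟩
    have hp0 : 0 ≤ p := (Real.rpow_nonneg (Nat.cast_nonneg n) _).trans hp
    have h1 : Pr p (fun ω : Sym2 (Fin n) → Bool =>
        ¬ EmbEv K A (fun a => min (W a) w) w 1 n (Gr ω)) ≤
        Pr p (fun _ : Sym2 (Fin n) → Bool => ¬ True) := by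
      refine Pr_mono hp0 hp1 fun ω hω => ?_
      exfalso
      apply hω
      intro D B _ _ _
      exact ⟨fun i => i.elim0, fun i => i.elim0, fun i => i.elim0, fun i => i.elim0⟩
    refine h1.trans ?_
    rw [Pr_not]
    have : Pr p (fun _ : Sym2 (Fin n) → Bool => True) = 1 := by
      unfold Pr
      have : (fun _ : Sym2 (Fin n) → Bool => ind True) = fun _ => 1 := by
        funext ω
        exact ind_true trivial
      rw [this, Ex_const]
    rw [this]
    simp
  · obtain ⟨e, he⟩ := exists_elim_order K hK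
    have hR' : Rich α W w (K.comap e) (A ∘ e) := by
      intro U hU
      have hiso : (K.comap e).induce (U : Set (Fin k)) ≃g
          K.induce ((U.map e.toEmbedding : Finset (Fin k)) : Set (Fin k)) := by
        refine ⟨Equiv.ofBijective (fun x => ⟨e x.1, ?_⟩) ⟨?_, ?_⟩, ?_⟩
        · simp
        · intro x y hxy
          have : e x.1 = e y.1 := congrArg Subtype.val hxy
          exact Subtype.ext (e.injective this)
        · rintro ⟨y, hy⟩
          have hy' : y ∈ U.map e.toEmbedding := by exact_mod_cast hy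
          obtain ⟨x, hx, rfl⟩ := Finset.mem_map.1 hy'
          exact ⟨⟨x, by exact_mod_cast hx⟩, rfl⟩
        · intro x y
          rfl
      have h1 := hR (U.map e.toEmbedding) ((SimpleGraph.Iso.connected_iff hiso).1 hU)
      unfold wgt at h1 ⊢
      rw [Finset.sum_map] at h1
      exact h1
    obtain ⟨δ, hδ, f, hf, hbd⟩ := embed_all_ord hα hα1 hw W hk (K.comap e)
      (fun i j l h1 h2 h3 h4 => he i j l h1 h2 h3 h4) (A ∘ e) hR'
    refine ⟨δ, hδ, f, hf, fun n p hp hp1 => ?_⟩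
    have hp0 : 0 ≤ p := (Real.rpow_nonneg (Nat.cast_nonneg n) _).trans hp
    refine le_trans (Pr_mono hp0 hp1 fun ω hω => ?_) (hbd n p hp hp1)
    intro hE
    apply hω
    intro D B h1 h2 h3
    obtain ⟨ψ, g1, g2, g3⟩ := hE D B h1 h2 h3
    refine ⟨fun i => ψ (e.symm i), fun i => g1 _, fun i j hij => ?_, fun i a ha => ?_⟩
    · apply g2
      show K.Adj (e (e.symm i)) (e (e.symm j))
      rw [Equiv.apply_symm_apply, Equiv.apply_symm_apply]
      exact hij
    · apply g3
      show a ∈ A (e (e.symm i))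
      rw [Equiv.apply_symm_apply]
      exact ha

end Pool.MP_65847d_pr
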