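import Pool.Agent.Lib.MP_65847d_pr.C.ExpStep
import Pool.Agent.Lib.MP_65847d_pr.C.BVal

/-!
# C/EmbedFixed : embedding a forest with fixed attached sets, avoiding a fixed set

Proof. The complement of `B ∪ ⋃ D a` has at least `n / 2` elements, so there are pairwise disjoint `C i`, `i : Fin k`, in it, each with at
least `n / (2k) - 1 ≥ n ^ (1 - δ/2)`... elements; hypothesis `hn` provides `2 * n ^ (1 - δ) * 2 ^ (|V| + k) ≤ |C i|` (for `|C i| = ⌊n/(2k)⌋`).
Apply `expS_step` with `s j = n ^ bval δ j`, `t = n ^ bval δ i`, `qa a = n ^ (- max 0 (α - θ a + δ)) / 2` (`hit_ge` with `t = θ a - δ`),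
`qc j = n ^ (- max 0 (α - bval δ j)) / 2`. The requirement `2 t ≤ |C i| ∏ qa ∏ qc`: by definition of `bval`,
`n ^ bval δ i = n ^ (1-δ) * ∏_a n ^ (-(max 0 (α - θ a + δ)) - δ) * ∏_j n ^ (-(max ..) - δ)`, and each factor `n ^ (-δ) ≤ 1`, the factors `1/2`
are paid by `2 ^ (|V| + k)` (number of factors `≤ |V| + k`).
So with probability `≥ 1 - ∑_i exp (-(n ^ bval δ i / 8)) ≥ 1 - k exp (-(n ^ c' / 8))` all `expS i` have at least
`n ^ bval δ i > 0` elements (if not, take the smallest `i` which fails), so they are nonempty and `extract` gives `ψ`; `ψ i ∈ C i` is not in `B`.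
-/

set_option autoImplicit false

open Finset

namespace Pool.MP_65847d_pr

open Pool.MP_1bacea_co

/-- disjoint blocks -/
theorem embf_blocks {n k m : ℕ} (F : Finset (Fin n)) (h : k * m ≤ F.card) :
    ∃ C : Fin k → Finset (Fin n), (∀ i, C i ⊆ F) ∧ (∀ i, (C i).card = m) ∧
      ∀ i j, i ≠ j → Disjoint (C i) (C j) := by
  classical
  let g : Fin k × Fin m → Fin n := fun x =>
    F.orderEmbOfFin rfl ⟨(finProdFinEquiv x).val, (finProdFinEquiv x).2.trans_le h⟩
  have hg : Function.Injective g := by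
    intro x y hxy
    have h1 := (F.orderEmbOfFin rfl).injective hxy
    exact finProdFinEquiv.injective (Fin.ext (Fin.mk.inj h1))
  refine ⟨fun i => univ.image fun y : Fin m => g (i, y), fun i => ?_, fun i => ?_, fun i j hij => ?_⟩
  · intro x hx
    obtain ⟨y, -, rfl⟩ := mem_image.mp hx
    exact orderEmbOfFin_mem _ _ _
  · rw [card_image_of_injective, card_univ, Fintype.card_fin]
    intro y y' h'
    exact (Prod.mk.inj (hg h')).2
  · rw [disjoint_left]
    intro x hx hx'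
    obtain ⟨y, -, rfl⟩ := mem_image.mp hx
    obtain ⟨y', -, h'⟩ := mem_image.mp hx'
    exact hij (Prod.mk.inj (hg h')).1.symm

open Classical in
theorem embf_bval {V : Type*} (α : ℝ) (θ : V → ℝ) {k : ℕ} (K : SimpleGraph (Fin k))
    (A : Fin k → Finset V) (δ : ℝ) (i : Fin k) :
    bval α θ K A δ i = 1 - δ - ∑ a ∈ A i, (max 0 (α - θ a + δ) + δ) -
      ∑ j ∈ univ.filter (fun j => j < i ∧ K.Adj j i), (max 0 (α - bval α θ K A δ j) + δ) := by
  rw [bval, Finset.sum_subtype (univ.filter (fun j => j < i ∧ K.Adj j i))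
    (p := fun j => j < i ∧ K.Adj j i) (fun j => by simp)]

open Classical in
theorem embf_bval_le {V : Type*} {n : ℕ} (hn1 : 1 ≤ n) (α : ℝ) (θ : V → ℝ) {k : ℕ}
    (K : SimpleGraph (Fin k)) (A : Fin k → Finset V) {δ : ℝ} (hδ : 0 < δ) (i : Fin k) :
    (n : ℝ) ^ bval α θ K A δ i ≤ (n : ℝ) ^ (1 - δ) *
      ((∏ a ∈ A i, (n : ℝ) ^ (-max 0 (α - θ a + δ))) *
        ∏ j ∈ univ.filter (fun j => j < i ∧ K.Adj j i),
          (n : ℝ) ^ (-max 0 (α - bval α θ K A δ j))) := by
  have hn : (1 : ℝ) ≤ n := by exact_mod_cast hn1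
  have hn0 : (0 : ℝ) < n := by linarith
  rw [← Real.rpow_sum_of_pos hn0, ← Real.rpow_sum_of_pos hn0, ← Real.rpow_add hn0,
    ← Real.rpow_add hn0]
  refine Real.rpow_le_rpow_of_exponent_le hn ?_
  rw [embf_bval]
  rw [Finset.sum_add_distrib, Finset.sum_add_distrib, Finset.sum_neg_distrib,
    Finset.sum_neg_distrib, Finset.sum_const, Finset.sum_const, nsmul_eq_mul, nsmul_eq_mul]
  have e1 : 0 ≤ ((A i).card : ℝ) * δ := by positivity
  have e2 : 0 ≤ (((univ.filter (fun j => j < i ∧ K.Adj j i)).card : ℕ) : ℝ) * δ := by positivity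
  linarith

theorem Pr_embed_fixed {V : Type*} [Fintype V] [DecidableEq V] {n k : ℕ} (hn1 : 1 ≤ n)
    {α δ c' p : ℝ} (hp0 : (n : ℝ) ^ (-α) ≤ p) (hp1 : p ≤ 1) (θ : V → ℝ)
    (K : SimpleGraph (Fin k)) (A : Fin k → Finset V)
    (hord : ∀ i j l, i < j → i < l → K.Adj i j → K.Adj i l → j = l) (hδ : 0 < δ)
    (hb : ∀ i, c' ≤ bval α θ K A δ i)
    (hn : 2 * (n : ℝ) ^ (1 - δ) * 2 ^ (Fintype.card V + k) ≤ ((n / (2 * k) : ℕ) : ℝ))
    (D : V → Finset (Fin n)) (B : Finset (Fin n))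
    (hDD : ∀ a b, a ≠ b → Disjoint (D a) (D b)) (hD : ∀ a, (n : ℝ) ^ (θ a - δ) ≤ (D a).card)
    (hcard : 2 * (B.card + ∑ a, (D a).card) ≤ n) :
    Pr p (fun ω : Sym2 (Fin n) → Bool => ¬ ∃ ψ : Fin k → Fin n, (∀ i, ψ i ∉ B) ∧
      (∀ i j, K.Adj i j → (Gr ω).Adj (ψ i) (ψ j)) ∧
      ∀ i, ∀ a ∈ A i, ∃ d ∈ D a, (Gr ω).Adj (ψ i) d) ≤ k * Real.exp (-((n : ℝ) ^ c' / 8)) := by
  classical
  have hnR : (1 : ℝ) ≤ n := by exact_mod_cast hn1
  have hn0 : (0 : ℝ) < n := by linarith
  have h0 : 0 ≤ p := (Real.rpow_nonneg hn0.le _).trans hp0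
  -- the blocks
  set F : Finset (Fin n) := (B ∪ univ.biUnion D)ᶜ with hF
  have hFc : k * (n / (2 * k)) ≤ F.card := by
    have h2 : (B ∪ univ.biUnion D).card ≤ B.card + ∑ a, (D a).card :=
      (card_union_le _ _).trans (Nat.add_le_add_left card_biUnion_le _)
    have h3 : F.card = n - (B ∪ univ.biUnion D).card := by
      rw [hF, card_compl, Fintype.card_fin]
    have h4 : 2 * (k * (n / (2 * k))) ≤ n := by
      calc 2 * (k * (n / (2 * k))) = (2 * k) * (n / (2 * k)) := by ring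
        _ ≤ n := Nat.mul_div_le _ _
    omega
  obtain ⟨C, hCF, hCm, hCC⟩ := embf_blocks F hFc
  have hCD : ∀ i a, Disjoint (C i) (D a) := by
    intro i a
    rw [disjoint_left]
    intro x hx hxD
    have := hCF i hx
    rw [hF, mem_compl] at this
    exact this (mem_union_right _ (mem_biUnion.mpr ⟨a, mem_univ _, hxD⟩))
  have hCB : ∀ i, ∀ x ∈ C i, x ∉ B := by
    intro i x hx hxB
    have := hCF i hx
    rw [hF, mem_compl] at this
    exact this (mem_union_left _ hxB)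
  -- the size of the explored sets
  let s : Fin k → ℝ := fun i => (n : ℝ) ^ bval α θ K A δ i
  have hspos : ∀ i, 0 < s i := fun i => Real.rpow_pos_of_pos hn0 _
  have hstep : ∀ i, Pr p (fun ω : Sym2 (Fin n) → Bool =>
      (∀ j, j < i → s j ≤ ((expS K A D C ω j).card : ℝ)) ∧
      ((expS K A D C ω i).card : ℝ) < s i) ≤ Real.exp (-((n : ℝ) ^ c' / 8)) := by
    intro i
    refine (expS_step h0 hp1 K A D C hCC hCD hDD i s (s i)
      (fun a => (n : ℝ) ^ (-max 0 (α - θ a + δ)) / 2)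
      (fun j => (n : ℝ) ^ (-max 0 (α - bval α θ K A δ j)) / 2)
      (fun a => by positivity) (fun j => by positivity) ?_ ?_ ?_).trans ?_
    · intro a _
      have h5 := hit_ge (t := θ a - δ) hnR hp0 hp1 (hD a)
      rw [show α - (θ a - δ) = α - θ a + δ by ring] at h5
      exact h5
    · intro j _ _ m hm
      exact hit_ge hnR hp0 hp1 hm
    · rw [hCm i]
      rw [← Finset.prod_subtype (univ.filter (fun j => j < i ∧ K.Adj j i))
        (p := fun j => j < i ∧ K.Adj j i) (fun j => by simp)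
        (fun j => (n : ℝ) ^ (-max 0 (α - bval α θ K A δ j)) / 2), Finset.prod_div_distrib,
        Finset.prod_div_distrib, Finset.prod_const, Finset.prod_const]
      set P1 : ℝ := ∏ a ∈ A i, (n : ℝ) ^ (-max 0 (α - θ a + δ)) with hP1
      set P2 : ℝ := ∏ j ∈ univ.filter (fun j => j < i ∧ K.Adj j i),
        (n : ℝ) ^ (-max 0 (α - bval α θ K A δ j)) with hP2
      set c1 : ℕ := (A i).card with hc1
      set c2 : ℕ := (univ.filter (fun j => j < i ∧ K.Adj j i)).card with hc2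
      have hP1' : 0 ≤ P1 := prod_nonneg fun a _ => by positivity
      have hP2' : 0 ≤ P2 := prod_nonneg fun a _ => by positivity
      have hpow : (2 : ℝ) ^ (c1 + c2) ≤ 2 ^ (Fintype.card V + k) := by
        refine pow_le_pow_right₀ (by norm_num) (Nat.add_le_add (card_le_univ _) ?_)
        calc c2 ≤ Fintype.card (Fin k) := card_le_univ _
          _ = k := Fintype.card_fin k
      have hb2 : s i ≤ (n : ℝ) ^ (1 - δ) * (P1 * P2) := embf_bval_le hn1 α θ K A hδ i
      calc 2 * s i ≤ 2 * ((n : ℝ) ^ (1 - δ) * (P1 * P2)) :=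
            mul_le_mul_of_nonneg_left hb2 (by norm_num)
        _ = (2 * (n : ℝ) ^ (1 - δ) * 2 ^ (c1 + c2)) * (P1 / 2 ^ c1 * (P2 / 2 ^ c2)) := by
            rw [pow_add]
            field_simp
        _ ≤ ((n / (2 * k) : ℕ) : ℝ) * (P1 / 2 ^ c1 * (P2 / 2 ^ c2)) := by
            refine mul_le_mul_of_nonneg_right (le_trans ?_ hn) (by positivity)
            exact mul_le_mul_of_nonneg_left hpow (by positivity)
    · apply Real.exp_le_exp.mpr
      have : (n : ℝ) ^ c' ≤ s i := Real.rpow_le_rpow_of_exponent_le hnR (hb i)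
      linarith
  have hexi : Pr p (fun ω : Sym2 (Fin n) → Bool => ∃ i ∈ (univ : Finset (Fin k)),
      (∀ j, j < i → s j ≤ ((expS K A D C ω j).card : ℝ)) ∧
      ((expS K A D C ω i).card : ℝ) < s i) ≤ k * Real.exp (-((n : ℝ) ^ c' / 8)) := by
    refine (Pr_exists_le h0 hp1 _ _).trans ((sum_le_sum fun i _ => hstep i).trans ?_)
    rw [sum_const, nsmul_eq_mul, card_univ, Fintype.card_fin]
  refine (Pr_mono h0 hp1 fun ω hω => ?_).trans hexi
  by_contra hcon
  push Not at hcon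
  apply hω
  have hlarge : ∀ i, s i ≤ ((expS K A D C ω i).card : ℝ) := by
    intro i
    induction i using WellFoundedLT.induction with
    | _ i ih => exact hcon i (mem_univ _) ih
  have hne : ∀ i, (expS K A D C ω i).Nonempty := by
    intro i
    rw [← card_pos]
    have : (0 : ℝ) < ((expS K A D C ω i).card : ℝ) := (hspos i).trans_le (hlarge i)
    exact_mod_cast this
  obtain ⟨ψ, h2, h3, h4⟩ := extract K A hord D C hCC hCD ω hne
  exact ⟨ψ, fun i => hCB i _ (h2 i), h3, h4⟩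

end Pool.MP_65847d_pr
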