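import Pool.Agent.Lib.MP_65847d_pr.Upper

/-!
# C/Hit : a lower bound for the probability that a vertex is adjacent to a given set

`hit_ge`: for `1 ≤ n`, `n ^ (-α) ≤ p ≤ 1`, `n ^ t ≤ m`: `n ^ (- max 0 (α - t)) / 2 ≤ 1 - (1 - p) ^ m`.
Proof: `one_sub_pow_ge` (Upper.lean) with `p0 = n ^ (-α)` and `K = n ^ (min t α)`: `p0 * K = n ^ (- max 0 (α - t)) ≤ 1`,
`K ≤ n ^ t ≤ m`.
-/

set_option autoImplicit false

namespace Pool.MP_65847d_pr

theorem hit_ge {x α t p : ℝ} (hx : 1 ≤ x) (hp : x ^ (-α) ≤ p) (hp1 : p ≤ 1) {m : ℕ}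
    (hm : x ^ t ≤ m) : x ^ (-max 0 (α - t)) / 2 ≤ 1 - (1 - p) ^ m := by
  have hx0 : 0 < x := by linarith
  have he : -α + min t α = -max 0 (α - t) := by
    rcases le_total t α with h | h
    · rw [min_eq_left h, max_eq_right (by linarith)]
      ring
    · rw [min_eq_right h, max_eq_left (by linarith)]
      ring
  have hprod : x ^ (-α) * x ^ (min t α) = x ^ (-max 0 (α - t)) := by
    rw [← Real.rpow_add hx0, he]
  have h1 : x ^ (-α) * x ^ (min t α) ≤ 1 := by
    rw [hprod]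
    exact Real.rpow_le_one_of_one_le_of_nonpos hx (neg_nonpos.mpr (le_max_left _ _))
  have h2 : x ^ (min t α) ≤ m :=
    (Real.rpow_le_rpow_of_exponent_le hx (min_le_left _ _)).trans hm
  have h3 := one_sub_pow_ge (Real.rpow_nonneg hx0.le (-α)) hp hp1
    (Real.rpow_nonneg hx0.le (min t α)) h1 h2
  rw [hprod] at h3
  exact h3

end Pool.MP_65847d_pr
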