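import Pool.Agent.Lib.MP_65847d_pr.C.Explore
import Pool.Agent.Lib.MP_65847d_pr.C.Hit

/-!
# C/ExpStep : one step of the exploration

Proof (compare `expl_step` in Upper.lean). Let `S` be the set of all pairs `e` which contain no element of `C i`;
`Pr_mix_le` with `S`: fix `ω₁`. The sets `expS j`, `j < i`, of `mix S ω₁ ω₂` are those of `ω₁` (`expS_congr`: the pairs involved
contain an element of `C j'` and an element of some `D a` or `C l` with `l < j' ≤ j < i`, and `C i` is disjoint from all these), call them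
`B j`. If some child `j` of `i` has `|B j| < s j` the event is empty. Otherwise the event is contained in
`¬ ∃ J ⊆ C i, t ≤ |J| ∧ ∀ v ∈ J, Q v ω₂`, where `Q v ω₂ := (∀ a ∈ A i, ∃ d ∈ D a, ω₂ s(v,d)) ∧ (∀ child j, ∃ u ∈ B j, ω₂ s(v,u))`
(for `v ∈ C i` the bits `s(v,·)` of `mix S ω₁ ω₂` are those of `ω₂`). `Q v` depends on the bits `s(v, u)`, `u ∈ Z`, `Z = ⋃ D a ∪ ⋃_{j<i} C j`,
which are disjoint sets for different `v ∈ C i` (`Z` is disjoint from `C i`), and by independence (`Pr_forall_blocks` over the index set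
`A i ⊕ children`; the sets `D a`, `a ∈ A i`, and `B j` are pairwise disjoint) `Pr (Q v) = ∏_{a ∈ A i} (1 - (1-p)^|D a|) * ∏_j (1 - (1-p)^|B j|)`,
the same number `x` for all `v`, and `x ≥ q` where `q` is the product of the given lower bounds `qa a`, `qc j`.
`Pr_blocks_lt` (LProb.lean) with `s = t` gives `exp (-(t/8))` because `2 t ≤ |C i| q ≤ |C i| x`.
-/

set_option autoImplicit false

open Finset

namespace Pool.MP_65847d_pr

open Pool.MP_1bacea_co

variable {N V : Type*} [Fintype N] [DecidableEq N]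

theorem expstep_Pr_exists {p : ℝ} (v : N) (G : Finset N) :
    Pr p (fun ω : Sym2 N → Bool => ∃ u ∈ G, ω s(v, u) = true) = 1 - (1 - p) ^ G.card := by
  have hcard : (G.image fun u => s(v, u)).card = G.card := by
    apply card_image_of_injective
    intro u u' h
    exact Sym2.congr_right.mp h
  have h2 := Pr_all_off (p := p) (G.image fun u => s(v, u))
  rw [hcard] at h2
  have h3 := Pr_not p (fun ω : Sym2 N → Bool => ∀ e ∈ G.image fun u => s(v, u), ω e = false)
  rw [h2] at h3
  rw [← h3]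
  congr 1
  funext ω
  apply propext
  constructor
  · rintro ⟨u, hu, hon⟩ h
    have := h _ (mem_image_of_mem _ hu)
    rw [hon] at this
    exact Bool.noConfusion this
  · intro h
    by_contra hcon
    push Not at hcon
    apply h
    intro e he
    rw [mem_image] at he
    obtain ⟨u, hu, rfl⟩ := he
    exact Bool.eq_false_iff.mpr (hcon u hu)

open Classical in
theorem expS_step {p : ℝ} (h0 : 0 ≤ p) (h1 : p ≤ 1) {k : ℕ} (K : SimpleGraph (Fin k))
    (A : Fin k → Finset V) (D : V → Finset N) (C : Fin k → Finset N)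
    (hCC : ∀ i j, i ≠ j → Disjoint (C i) (C j)) (hCD : ∀ i a, Disjoint (C i) (D a))
    (hDD : ∀ a b, a ≠ b → Disjoint (D a) (D b)) (i : Fin k) (s : Fin k → ℝ) (t : ℝ)
    (qa : V → ℝ) (qc : Fin k → ℝ) (hqa0 : ∀ a, 0 ≤ qa a) (hqc0 : ∀ j, 0 ≤ qc j)
    (hqa : ∀ a ∈ A i, qa a ≤ 1 - (1 - p) ^ (D a).card)
    (hqc : ∀ j, j < i → K.Adj j i → ∀ m : ℕ, s j ≤ m → qc j ≤ 1 - (1 - p) ^ m)
    (ht : 2 * t ≤ (C i).card * ((∏ a ∈ A i, qa a) *
      ∏ j : {j : Fin k // j < i ∧ K.Adj j i}, qc j.1)) :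
    Pr p (fun ω : Sym2 N → Bool => (∀ j, j < i → s j ≤ ((expS K A D C ω j).card : ℝ)) ∧
      ((expS K A D C ω i).card : ℝ) < t) ≤ Real.exp (-(t / 8)) := by
  set S : Finset (Sym2 N) := univ.filter fun e => ∀ v ∈ C i, v ∉ e with hS
  refine Pr_mix_le h0 h1 S fun ω₁ => ?_
  set Bs : Fin k → Finset N := fun j => expS K A D C ω₁ j with hBs
  have hBC : ∀ j, Bs j ⊆ C j := fun j => expS_subset K A D C ω₁ j
  have hexp : ∀ ω₂ j, j < i → expS K A D C (mix S ω₁ ω₂) j = Bs j := by
    intro ω₂ j hj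
    refine expS_congr K A D C _ _ j fun j' hj' v hv u hu => ?_
    have : s(v, u) ∈ S := by
      rw [hS, mem_filter]
      refine ⟨mem_univ _, fun w hw hwe => ?_⟩
      rw [Sym2.mem_iff] at hwe
      rcases hwe with rfl | rfl
      · exact disjoint_left.mp (hCC j' i (hj'.trans_lt hj).ne) hv hw
      · rcases hu with ⟨a, ha⟩ | ⟨l, hl, hul⟩
        · exact disjoint_left.mp (hCD i a) hw ha
        · exact disjoint_left.mp (hCC l i ((hl.trans_le hj').trans hj).ne) hul hw
    simp [mix, this]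
  have hout : ∀ ω₂ v u, v ∈ C i → mix S ω₁ ω₂ s(v, u) = ω₂ s(v, u) := by
    intro ω₂ v u hv
    have : s(v, u) ∉ S := by
      rw [hS, mem_filter]
      rintro ⟨-, h⟩
      exact h v hv (Sym2.mem_mk_left _ _)
    simp [mix, this]
  by_cases hall : ∀ j, j < i → s j ≤ ((Bs j).card : ℝ)
  · set ch : Finset (Fin k) := univ.filter fun j => j < i ∧ K.Adj j i with hch
    let G : V ⊕ Fin k → Finset N := Sum.elim D Bs
    let Idx : Finset (V ⊕ Fin k) := (A i).disjSum ch
    let Q : N → (Sym2 N → Bool) → Prop := fun v ω => ∀ x ∈ Idx, ∃ u ∈ G x, ω s(v, u) = true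
    have hGd : ∀ x ∈ Idx, ∀ y ∈ Idx, x ≠ y → Disjoint (G x) (G y) := by
      rintro (a | j) hx (b | l) hy hxy
      · exact hDD a b (fun h => hxy (by rw [h]))
      · exact ((hCD l a).mono_left (hBC l)).symm
      · exact (hCD j b).mono_left (hBC j)
      · exact (hCC j l (fun h => hxy (by rw [h]))).mono (hBC j) (hBC l)
    have hGi : ∀ x ∈ Idx, Disjoint (G x) (C i) := by
      rintro (a | j) hx
      · exact (hCD i a).symm
      · have hj : j ∈ ch := Finset.inr_mem_disjSum.mp hx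
        exact (hCC j i (mem_filter.mp hj).2.1.ne).mono_left (hBC j)
    have hPQ : ∀ v, Pr p (Q v) = ∏ x ∈ Idx, (1 - (1 - p) ^ (G x).card) := by
      intro v
      have h5 : Pr p (fun ω => ∀ x ∈ Idx, ∃ u ∈ G x, ω s(v, u) = true) =
          ∏ x ∈ Idx, Pr p (fun ω : Sym2 N → Bool => ∃ u ∈ G x, ω s(v, u) = true) := by
        refine Pr_forall_blocks Idx (fun x => (G x).image fun u => s(v, u)) ?_
          (fun x ω => ∃ u ∈ G x, ω s(v, u) = true) ?_
        · intro x hx y hy hxy
          rw [disjoint_left]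
          intro e he he'
          rw [mem_image] at he he'
          obtain ⟨u, hu, rfl⟩ := he
          obtain ⟨u', hu', h⟩ := he'
          have h6 : u' = u := Sym2.congr_right.mp h
          exact disjoint_left.mp (hGd x hx y hy hxy) hu (h6 ▸ hu')
        · intro x _ ω ω' h
          refine exists_congr fun u => and_congr_right fun hu => ?_
          rw [h _ (mem_image_of_mem _ hu)]
      change Pr p (fun ω => ∀ x ∈ Idx, ∃ u ∈ G x, ω s(v, u) = true) = _
      rw [h5]
      exact prod_congr rfl fun x _ => expstep_Pr_exists v (G x)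
    have hmono : Pr p (fun ω₂ : Sym2 N → Bool =>
        (∀ j, j < i → s j ≤ ((expS K A D C (mix S ω₁ ω₂) j).card : ℝ)) ∧
        ((expS K A D C (mix S ω₁ ω₂) i).card : ℝ) < t) ≤
        Pr p (fun ω₂ : Sym2 N → Bool => ¬ ∃ J ⊆ C i, t ≤ (J.card : ℝ) ∧ ∀ v ∈ J, Q v ω₂) := by
      refine Pr_mono h0 h1 fun ω₂ hω => ?_
      rintro ⟨J, hJ, hJc, hJQ⟩
      have hsub : J ⊆ expS K A D C (mix S ω₁ ω₂) i := by
        intro v hv
        rw [mem_expS]
        refine ⟨hJ hv, fun a ha => ?_, fun j hj hK => ?_⟩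
        · obtain ⟨u, hu, hon⟩ := hJQ v hv (Sum.inl a) (Finset.inl_mem_disjSum.mpr ha)
          exact ⟨u, hu, by rw [hout ω₂ v u (hJ hv)]; exact hon⟩
        · obtain ⟨u, hu, hon⟩ := hJQ v hv (Sum.inr j)
            (Finset.inr_mem_disjSum.mpr (mem_filter.mpr ⟨mem_univ _, hj, hK⟩))
          refine ⟨u, ?_, by rw [hout ω₂ v u (hJ hv)]; exact hon⟩
          rw [hexp ω₂ j hj]
          exact hu
      have h2 : (J.card : ℝ) ≤ ((expS K A D C (mix S ω₁ ω₂) i).card : ℝ) := by
        exact_mod_cast card_le_card hsub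
      linarith [hω.2]
    refine hmono.trans ?_
    refine Pr_blocks_lt h0 h1 (C i) (fun v => (Idx.biUnion G).image fun u => s(v, u)) ?_
      Q ?_ (∏ x ∈ Idx, (1 - (1 - p) ^ (G x).card)) (fun v _ => hPQ v) _ ?_
    · intro v hv v' hv' hne
      rw [disjoint_left]
      intro e he he'
      rw [mem_image] at he he'
      obtain ⟨u, hu, rfl⟩ := he
      obtain ⟨u', hu', h⟩ := he'
      rw [Sym2.eq_iff] at h
      rcases h with ⟨h, -⟩ | ⟨-, h⟩
      · exact hne h.symm
      · obtain ⟨x, hx, hux⟩ := mem_biUnion.mp hu'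
        exact disjoint_left.mp (hGi x hx) hux (h ▸ hv)
    · intro v _ ω ω' h
      refine forall₂_congr fun x hx => exists_congr fun u => and_congr_right fun hu => ?_
      rw [h _ (mem_image_of_mem _ (mem_biUnion.mpr ⟨x, hx, hu⟩))]
    · have hle1 : ∏ a ∈ A i, qa a ≤ ∏ a ∈ A i, (1 - (1 - p) ^ (D a).card) :=
        prod_le_prod (fun a _ => hqa0 a) hqa
      have hle2 : ∏ j : {j : Fin k // j < i ∧ K.Adj j i}, qc j.1 ≤
          ∏ j ∈ ch, (1 - (1 - p) ^ (Bs j).card) := by
        rw [← Finset.prod_subtype ch (fun j => by simp [hch]) qc]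
        refine prod_le_prod (fun j _ => hqc0 j) fun j hj => ?_
        have hj' := (mem_filter.mp hj).2
        exact hqc j hj'.1 hj'.2 _ (hall j hj'.1)
      have hx : (∏ a ∈ A i, qa a) * ∏ j : {j : Fin k // j < i ∧ K.Adj j i}, qc j.1 ≤
          ∏ x ∈ Idx, (1 - (1 - p) ^ (G x).card) := by
        rw [Finset.prod_disjSum]
        exact mul_le_mul hle1 hle2 (prod_nonneg fun j _ => hqc0 j.1)
          ((prod_nonneg fun a _ => hqa0 a).trans hle1)
      exact ht.trans (mul_le_mul_of_nonneg_left hx (Nat.cast_nonneg _))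
  · have : Pr p (fun ω₂ : Sym2 N → Bool =>
        (∀ j, j < i → s j ≤ ((expS K A D C (mix S ω₁ ω₂) j).card : ℝ)) ∧
        ((expS K A D C (mix S ω₁ ω₂) i).card : ℝ) < t) ≤
        Ex p (fun _ : Sym2 N → Bool => (0 : ℝ)) := by
      refine Ex_mono h0 h1 fun ω₂ => le_of_eq (ind_false ?_)
      rintro ⟨h, -⟩
      apply hall
      intro j hj
      have := h j hj
      rw [hexp ω₂ j hj] at this
      exact this
    rw [Ex_const] at this
    exact this.trans (Real.exp_pos _).le

end Pool.MP_65847d_pr
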