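import Pool.Agent.Lib.MP_65847d_pr.C.Defs
import Pool.Agent.Lib.MP_65847d_pr.Maximal

/-!
# C/Explore : exploration of a forest with attached sets

`expS ... i` is the set of all `v ∈ C i` adjacent to every `D a`, `a ∈ A i`, and to `expS ... j` for all children `j < i`.

* `expS_subset`, `expS_congr` (it only depends on the bits `s(v, u)` with `v ∈ C j`, `j ≤ i`, `u ∈ D a` or `u ∈ C l`, `l < j`).
* `extract`: choose `ψ i ∈ expS i` for `i = k-1, ..., 0`: if `i` has a parent `j > i`, `ψ j ∈ expS j` gives an element of `expS i` adjacent to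
  `ψ j`; otherwise take any element (nonempty). (E.g. show by induction on `m` that there is `ψ` which is correct on the indices `≥ k - m`.)
  Adjacency in `Gr ω` needs `u ≠ v`: the blocks `C i` are pairwise disjoint and disjoint from all `D a`.
-/

set_option autoImplicit false
set_option linter.unusedSectionVars false

open Finset

namespace Pool.MP_65847d_pr

open Pool.MP_1bacea_co

variable {N V : Type*} [Fintype N] [DecidableEq N]

open Classical in
/-- explored sets -/
noncomputable def expS {k : ℕ} (K : SimpleGraph (Fin k)) (A : Fin k → Finset V)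
    (D : V → Finset N) (C : Fin k → Finset N) (ω : Sym2 N → Bool) (i : Fin k) : Finset N :=
  (C i).filter fun v => (∀ a ∈ A i, ∃ d ∈ D a, ω s(v, d) = true) ∧
    ∀ j : {j : Fin k // j < i ∧ K.Adj j i}, ∃ u ∈ expS K A D C ω j.1, ω s(v, u) = true
termination_by i
decreasing_by all_goals first | exact j.2.1 | exact a.2.1

open Classical in
theorem mem_expS {k : ℕ} (K : SimpleGraph (Fin k)) (A : Fin k → Finset V)
    (D : V → Finset N) (C : Fin k → Finset N) (ω : Sym2 N → Bool) (i : Fin k) (v : N) :
    v ∈ expS K A D C ω i ↔ v ∈ C i ∧ (∀ a ∈ A i, ∃ d ∈ D a, ω s(v, d) = true) ∧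
      ∀ j, j < i → K.Adj j i → ∃ u ∈ expS K A D C ω j, ω s(v, u) = true := by
  rw [expS, mem_filter]
  constructor
  · rintro ⟨h1, h2, h3⟩
    exact ⟨h1, h2, fun j hj hK => h3 ⟨j, hj, hK⟩⟩
  · rintro ⟨h1, h2, h3⟩
    exact ⟨h1, h2, fun j => h3 j.1 j.2.1 j.2.2⟩

theorem expS_subset {k : ℕ} (K : SimpleGraph (Fin k)) (A : Fin k → Finset V)
    (D : V → Finset N) (C : Fin k → Finset N) (ω : Sym2 N → Bool) (i : Fin k) :
    expS K A D C ω i ⊆ C i :=
  fun v hv => ((mem_expS K A D C ω i v).mp hv).1

theorem expS_congr {k : ℕ} (K : SimpleGraph (Fin k)) (A : Fin k → Finset V)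
    (D : V → Finset N) (C : Fin k → Finset N) (ω ω' : Sym2 N → Bool) (i : Fin k)
    (h : ∀ j ≤ i, ∀ v ∈ C j, ∀ u, (∃ a, u ∈ D a) ∨ (∃ l < j, u ∈ C l) → ω s(v, u) = ω' s(v, u)) :
    expS K A D C ω i = expS K A D C ω' i := by
  induction i using WellFoundedLT.induction with
  | _ i ih =>
    have ih' : ∀ j, j < i → expS K A D C ω j = expS K A D C ω' j := fun j hj =>
      ih j hj fun l hl => h l (hl.trans hj.le)
    ext v
    rw [mem_expS, mem_expS]
    refine and_congr_right fun hv => and_congr ?_ ?_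
    · refine forall₂_congr fun a _ => exists_congr fun d => and_congr_right fun hd => ?_
      rw [h i le_rfl v hv d (Or.inl ⟨a, hd⟩)]
    · refine forall_congr' fun j => forall_congr' fun hj => forall_congr' fun _ => ?_
      rw [ih' j hj]
      refine exists_congr fun u => and_congr_right fun hu => ?_
      rw [h i le_rfl v hv u (Or.inr ⟨j, hj, expS_subset K A D C ω' j hu⟩)]

theorem extract {k : ℕ} (K : SimpleGraph (Fin k)) (A : Fin k → Finset V)
    (hord : ∀ i j l, i < j → i < l → K.Adj i j → K.Adj i l → j = l)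
    (D : V → Finset N) (C : Fin k → Finset N) (hCC : ∀ i j, i ≠ j → Disjoint (C i) (C j))
    (hCD : ∀ i a, Disjoint (C i) (D a)) (ω : Sym2 N → Bool)
    (hne : ∀ i, (expS K A D C ω i).Nonempty) :
    ∃ ψ : Fin k → N, (∀ i, ψ i ∈ C i) ∧ (∀ i j, K.Adj i j → (Gr ω).Adj (ψ i) (ψ j)) ∧
      ∀ i, ∀ a ∈ A i, ∃ d ∈ D a, (Gr ω).Adj (ψ i) d := by
  have key : ∀ m : ℕ, ∃ ψ : Fin k → N, (∀ i : Fin k, k ≤ i.val + m → ψ i ∈ expS K A D C ω i) ∧
      ∀ i j : Fin k, k ≤ i.val + m → i < j → K.Adj i j → ω s(ψ i, ψ j) = true := by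
    intro m
    induction m with
    | zero =>
      refine ⟨fun i => (hne i).choose, fun i hi => absurd i.2 (by omega), fun i j hi => ?_⟩
      exact absurd i.2 (by omega)
    | succ m ih =>
      obtain ⟨ψ, h1, h2⟩ := ih
      by_cases hm : m + 1 ≤ k
      · let i₀ : Fin k := ⟨k - (m + 1), by omega⟩
        have hi₀ : i₀.val + (m + 1) = k := by
          change k - (m + 1) + (m + 1) = k
          omega
        obtain ⟨u, hu, huj⟩ : ∃ u ∈ expS K A D C ω i₀, ∀ j, i₀ < j → K.Adj i₀ j →
            ω s(u, ψ j) = true := by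
          by_cases hp : ∃ j, i₀ < j ∧ K.Adj i₀ j
          · obtain ⟨j, hj, hK⟩ := hp
            have hj' : k ≤ j.val + m := by
              have : i₀.val < j.val := hj
              omega
            obtain ⟨u, hu, hon⟩ := ((mem_expS K A D C ω j (ψ j)).mp (h1 j hj')).2.2 i₀ hj hK
            refine ⟨u, hu, fun l hl hKl => ?_⟩
            rw [← hord i₀ j l hj hl hK hKl, Sym2.eq_swap]
            exact hon
          · push Not at hp
            exact ⟨(hne i₀).choose, (hne i₀).choose_spec, fun j hj hK => absurd hK (hp j hj)⟩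
        refine ⟨Function.update ψ i₀ u, fun i hi => ?_, fun i j hi hij hK => ?_⟩
        · rcases eq_or_ne i i₀ with rfl | hne'
          · rw [Function.update_self]; exact hu
          · rw [Function.update_of_ne hne']
            have : i.val ≠ i₀.val := fun h => hne' (Fin.ext h)
            exact h1 i (by omega)
        · have hj0 : j ≠ i₀ := by
            intro h
            have h3 : i.val < j.val := hij
            rw [h] at h3
            omega
          rw [Function.update_of_ne hj0]
          rcases eq_or_ne i i₀ with rfl | hne'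
          · rw [Function.update_self]; exact huj j hij hK
          · rw [Function.update_of_ne hne']
            have : i.val ≠ i₀.val := fun h => hne' (Fin.ext h)
            exact h2 i j (by omega) hij hK
      · refine ⟨ψ, fun i hi => h1 i (by omega), fun i j hi => h2 i j (by omega)⟩
  obtain ⟨ψ, h1, h2⟩ := key k
  have h1' : ∀ i, ψ i ∈ expS K A D C ω i := fun i => h1 i (by omega)
  have hC : ∀ i, ψ i ∈ C i := fun i => expS_subset K A D C ω i (h1' i)
  have hneq : ∀ i j, i ≠ j → ψ i ≠ ψ j := by
    intro i j hij h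
    exact disjoint_left.mp (hCC i j hij) (hC i) (h ▸ hC j)
  refine ⟨ψ, hC, fun i j hK => ?_, fun i a ha => ?_⟩
  · rcases lt_or_gt_of_ne hK.ne with hlt | hlt
    · exact ⟨hneq i j hK.ne, h2 i j (by omega) hlt hK⟩
    · refine ⟨hneq i j hK.ne, ?_⟩
      rw [Sym2.eq_swap]
      exact h2 j i (by omega) hlt hK.symm
  · obtain ⟨d, hd, hon⟩ := ((mem_expS K A D C ω i (ψ i)).mp (h1' i)).2.1 a ha
    refine ⟨d, hd, ?_, hon⟩
    intro h
    exact disjoint_left.mp (hCD i a) (hC i) (h ▸ hd)

end Pool.MP_65847d_pr
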