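import Pool.Agent.Lib.MP_65847d_pr.C.FMoment

/-!
# C/FMAsymp : the bad events of `FMoment` have small probability when `p ≤ n ^ (-α')`, `α2 < α'`

Proof: `f n = ∑_{y=1}^K n^y (C_y)^(t y) (n^(-α'))^(t y) + r^2 n^(-α')` with `t y = ⌈y/α2⌉₊ ≥ y / α2`, so
`n^y n^(-α' t y) ≤ n^(-(α'/α2 - 1) y) → 0`. Use monotonicity of the bounds of `Pr_not_sparse`, `Pr_root_edge` in `p`
(for `n = 0` nothing matters: let `f 0` be anything `≥ 1`; or note that `Tendsto` ignores it) and `Pr_or_le`.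
-/

set_option autoImplicit false

open Finset Filter Topology

namespace Pool.MP_65847d_pr

open Pool.MP_1bacea_co

private lemma fma_term (y t : ℕ) (C : ℝ) {a' : ℝ} (h : (y : ℝ) < a' * t) :
    Tendsto (fun n : ℕ => (n : ℝ) ^ y * (C ^ t * ((n : ℝ) ^ (-a')) ^ t)) atTop (𝓝 0) := by
  have h1 : Tendsto (fun n : ℕ => (n : ℝ) ^ (-(a' * t - y))) atTop (𝓝 0) :=
    (tendsto_rpow_neg_atTop (by linarith)).comp tendsto_natCast_atTop_atTop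
  have h2 : Tendsto (fun n : ℕ => C ^ t * (n : ℝ) ^ (-(a' * t - y))) atTop (𝓝 0) := by
    simpa using h1.const_mul (C ^ t)
  refine h2.congr' ?_
  filter_upwards [eventually_ge_atTop 1] with n hn
  have hn0 : (0 : ℝ) < n := by exact_mod_cast hn
  have e1 : (n : ℝ) ^ y = (n : ℝ) ^ (y : ℝ) := (Real.rpow_natCast _ _).symm
  have e2 : ((n : ℝ) ^ (-a')) ^ t = (n : ℝ) ^ (-a' * t) := by
    rw [← Real.rpow_natCast, ← Real.rpow_mul hn0.le]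
  rw [e1, e2]
  have e3 : (n : ℝ) ^ (-(a' * t - y)) = (n : ℝ) ^ (y : ℝ) * (n : ℝ) ^ (-a' * t) := by
    rw [← Real.rpow_add hn0]
    congr 1
    ring
  rw [e3]
  ring

theorem sparse_asymp {V : Type*} [Fintype V] [DecidableEq V] (K : ℕ) {α2 α' : ℝ} (hα2 : 0 < α2)
    (hα' : α2 < α') : ∃ f : ℕ → ℝ, Tendsto f atTop (𝓝 0) ∧ ∀ (n : ℕ) (R : V → Fin n),
      Function.Injective R → ∀ p : ℝ, 0 ≤ p → p ≤ 1 → p ≤ (n : ℝ) ^ (-α') →
      Pr p (fun ω : Sym2 (Fin n) → Bool => ¬ ((∀ x y, ¬ (Gr ω).Adj (R x) (R y)) ∧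
        ∀ Y : Finset (Fin n), Y.Nonempty → (∀ a ∈ Y, ∀ x, R x ≠ a) → Y.card ≤ K →
          α2 * eR (Gr ω) R Y < Y.card)) ≤ f n := by
  refine ⟨fun n => (∑ y ∈ Icc 1 K, (n : ℝ) ^ y *
      (((y ^ 2 + Fintype.card V * y : ℕ) : ℝ) ^ ⌈(y : ℝ) / α2⌉₊ *
        ((n : ℝ) ^ (-α')) ^ ⌈(y : ℝ) / α2⌉₊)) + (Fintype.card V : ℝ) ^ 2 * (n : ℝ) ^ (-α'), ?_, ?_⟩
  · have h0 : (0 : ℝ) = (∑ y ∈ Icc 1 K, (0 : ℝ)) + (Fintype.card V : ℝ) ^ 2 * 0 := by simp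
    rw [h0]
    refine Tendsto.add (tendsto_finsetSum _ fun y hy => ?_) (Tendsto.const_mul _ ?_)
    · refine fma_term y _ _ ?_
      have hy1 : (1 : ℝ) ≤ y := by exact_mod_cast (mem_Icc.1 hy).1
      have h1 : (y : ℝ) / α2 ≤ (⌈(y : ℝ) / α2⌉₊ : ℝ) := Nat.le_ceil _
      have h2 : (y : ℝ) ≤ α2 * (⌈(y : ℝ) / α2⌉₊ : ℝ) := by
        rw [div_le_iff₀ hα2] at h1
        linarith
      have h3 : (0 : ℝ) < (⌈(y : ℝ) / α2⌉₊ : ℝ) := lt_of_lt_of_le (by positivity) h1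
      nlinarith
    · exact (tendsto_rpow_neg_atTop (by linarith)).comp tendsto_natCast_atTop_atTop
  · intro n R hR p h0 h1 hp
    have hs := Pr_not_sparse R hR K hα2 h0 h1
    have he := Pr_root_edge R h0 h1
    have hor : Pr p (fun ω : Sym2 (Fin n) → Bool => ¬ ((∀ x y, ¬ (Gr ω).Adj (R x) (R y)) ∧
        ∀ Y : Finset (Fin n), Y.Nonempty → (∀ a ∈ Y, ∀ x, R x ≠ a) → Y.card ≤ K →
          α2 * eR (Gr ω) R Y < Y.card)) ≤
        Pr p (fun ω : Sym2 (Fin n) → Bool => ¬ ∀ Y : Finset (Fin n), Y.Nonempty →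
          (∀ a ∈ Y, ∀ x, R x ≠ a) → Y.card ≤ K → α2 * eR (Gr ω) R Y < Y.card) +
        Pr p (fun ω : Sym2 (Fin n) → Bool => ∃ x y, (Gr ω).Adj (R x) (R y)) := by
      refine le_trans (Pr_mono h0 h1 ?_) (Pr_or_le h0 h1 _ _)
      intro ω hω
      by_contra hcon
      push Not at hcon
      exact hω ⟨hcon.2, hcon.1⟩
    refine hor.trans (add_le_add (hs.trans (sum_le_sum fun y _ => ?_)) (he.trans ?_))
    · gcongr
    · gcongr

end Pool.MP_65847d_pr
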