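import Pool.Agent.Lib.MP_65847d_pr.C.LDefs
import Pool.Agent.Lib.MP_65847d_pr.Maximal

/-!
# C/FMoment : first moment bound for dense sets near the roots (finite version)

For `Y : Finset (Fin n)` consisting of non-roots let `TY` be the set of pairs `s(a,b)` with `a ≠ b` in `Y`,
together with all `s(y, R x)`, `y ∈ Y`, `x : V`. Then `eR G R Y ≤ cnt ω (TY)`; union bound over all `Y`.
-/

set_option autoImplicit false

open Finset

namespace Pool.MP_65847d_pr

open Pool.MP_1bacea_co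

private lemma eR_le_cnt {V : Type*} [Fintype V] [DecidableEq V] {n : ℕ} (R : V → Fin n)
    (hR : Function.Injective R) (Y : Finset (Fin n)) (hY : ∀ a ∈ Y, ∀ x, R x ≠ a)
    (ω : Sym2 (Fin n) → Bool) :
    eR (Gr ω) R Y ≤ cnt ω ((Y.offDiag.image fun q => s(q.1, q.2)) ∪
      ((Y ×ˢ (univ : Finset V)).image fun q => s(q.1, R q.2))) := by
  classical
  set T : Finset (Sym2 (Fin n)) := (Y.offDiag.image fun q => s(q.1, q.2)) ∪
      ((Y ×ˢ (univ : Finset V)).image fun q => s(q.1, R q.2)) with hT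
  set S1 : Finset (Sym2 (Fin n)) :=
    (univ : Finset (Sym2 (Fin n))).filter fun e => e ∈ (Gr ω).edgeSet ∧ ∀ a ∈ e, a ∈ Y with hS1
  set S2 : Finset (Fin n × V) :=
    (Y ×ˢ (univ : Finset V)).filter fun q => (Gr ω).Adj q.1 (R q.2) with hS2
  have hc2 : ∑ y ∈ Y, (lab (Gr ω) R y).card = S2.card := by
    rw [hS2, card_filter, sum_product]
    refine sum_congr rfl fun y _ => ?_
    rw [lab, card_filter]
  have hinj : Set.InjOn (fun q : Fin n × V => s(q.1, R q.2)) (S2 : Set (Fin n × V)) := by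
    rintro ⟨y, x⟩ hq ⟨y', x'⟩ hq' h
    rw [mem_coe, hS2, mem_filter, mem_product] at hq hq'
    simp only [Sym2.eq_iff] at h
    rcases h with ⟨h1, h2⟩ | ⟨h1, _⟩
    · rw [Prod.mk.injEq]
      exact ⟨h1, hR h2⟩
    · exact absurd h1.symm (hY y hq.1.1 x')
  have himg : (S2.image fun q => s(q.1, R q.2)).card = S2.card := card_image_of_injOn hinj
  have hdisj : Disjoint S1 (S2.image fun q => s(q.1, R q.2)) := by
    rw [disjoint_left]
    intro e he he'
    rw [hS1, mem_filter] at he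
    rw [mem_image] at he'
    obtain ⟨⟨y, x⟩, _, rfl⟩ := he'
    exact hY (R x) (he.2.2 (R x) (Sym2.mem_mk_right _ _)) x rfl
  have hsub : S1 ∪ (S2.image fun q => s(q.1, R q.2)) ⊆ T.filter fun i => ω i = true := by
    intro e he
    rw [mem_filter]
    rcases mem_union.mp he with he | he
    · rw [hS1, mem_filter] at he
      obtain ⟨_, he1, he2⟩ := he
      induction e with
      | h a b =>
        rw [SimpleGraph.mem_edgeSet] at he1
        refine ⟨?_, he1.2⟩
        rw [hT, mem_union]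
        left
        rw [mem_image]
        exact ⟨(a, b), mem_offDiag.mpr ⟨he2 a (Sym2.mem_mk_left _ _), he2 b (Sym2.mem_mk_right _ _),
          he1.1⟩, rfl⟩
    · rw [mem_image] at he
      obtain ⟨⟨y, x⟩, hq, rfl⟩ := he
      rw [hS2, mem_filter] at hq
      refine ⟨?_, hq.2.2⟩
      rw [hT, mem_union]
      right
      exact mem_image_of_mem _ hq.1
  have hcard := card_le_card hsub
  rw [card_union_of_disjoint hdisj, himg, ← hc2] at hcard
  have e1 : eR (Gr ω) R Y = S1.card + ∑ y ∈ Y, (lab (Gr ω) R y).card := by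
    rw [eR, hS1]
    congr
  rw [e1]
  unfold cnt
  convert hcard using 1

theorem Pr_not_sparse {V : Type*} [Fintype V] [DecidableEq V] {n : ℕ} (R : V → Fin n)
    (hR : Function.Injective R) (K : ℕ) {α2 : ℝ} (hα2 : 0 < α2) {p : ℝ} (h0 : 0 ≤ p) (h1 : p ≤ 1) :
    Pr p (fun ω : Sym2 (Fin n) → Bool => ¬ ∀ Y : Finset (Fin n), Y.Nonempty →
      (∀ a ∈ Y, ∀ x, R x ≠ a) → Y.card ≤ K → α2 * eR (Gr ω) R Y < Y.card) ≤
      ∑ y ∈ Icc 1 K, (n : ℝ) ^ y * (((y ^ 2 + Fintype.card V * y : ℕ) : ℝ) ^ ⌈(y : ℝ) / α2⌉₊ *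
        p ^ ⌈(y : ℝ) / α2⌉₊) := by
  classical
  set T : Finset (Fin n) → Finset (Sym2 (Fin n)) := fun Y =>
    (Y.offDiag.image fun q => s(q.1, q.2)) ∪
      ((Y ×ˢ (univ : Finset V)).image fun q => s(q.1, R q.2)) with hT
  have hTcard : ∀ Y : Finset (Fin n), (T Y).card ≤ Y.card ^ 2 + Fintype.card V * Y.card := by
    intro Y
    rw [hT]
    refine (card_union_le _ _).trans (add_le_add ?_ ?_)
    · refine card_image_le.trans ?_
      rw [offDiag_card, pow_two]
      exact Nat.sub_le _ _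
    · refine card_image_le.trans ?_
      rw [card_product, card_univ, mul_comm]
  refine (Pr_mono h0 h1 (B := fun ω => ∃ y ∈ Icc 1 K,
    ∃ Y ∈ powersetCard y (univ : Finset (Fin n)), ⌈(y : ℝ) / α2⌉₊ ≤ cnt ω (T Y)) fun ω hω => ?_).trans ?_
  · push Not at hω
    obtain ⟨Y, hYne, hYR, hYK, hYe⟩ := hω
    refine ⟨Y.card, mem_Icc.mpr ⟨card_pos.mpr hYne, hYK⟩, Y,
      mem_powersetCard.mpr ⟨subset_univ _, rfl⟩, ?_⟩
    refine le_trans ?_ (eR_le_cnt R hR Y hYR ω)
    rw [Nat.ceil_le, div_le_iff₀ hα2]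
    linarith
  refine (Pr_exists_le h0 h1 _ _).trans (sum_le_sum fun y _ => ?_)
  refine (Pr_exists_le h0 h1 _ _).trans ?_
  have hb : ∀ Y ∈ powersetCard y (univ : Finset (Fin n)),
      Pr p (fun ω : Sym2 (Fin n) → Bool => ⌈(y : ℝ) / α2⌉₊ ≤ cnt ω (T Y)) ≤
      ((y ^ 2 + Fintype.card V * y : ℕ) : ℝ) ^ ⌈(y : ℝ) / α2⌉₊ * p ^ ⌈(y : ℝ) / α2⌉₊ := by
    intro Y hY
    have hYc : Y.card = y := (mem_powersetCard.mp hY).2
    refine (Pr_cnt_ge h0 h1 (T Y) _).trans ?_
    refine mul_le_mul_of_nonneg_right ?_ (pow_nonneg h0 _)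
    have h2 : (T Y).card.choose ⌈(y : ℝ) / α2⌉₊ ≤ (y ^ 2 + Fintype.card V * y) ^ ⌈(y : ℝ) / α2⌉₊ := by
      refine (Nat.choose_le_pow _ _).trans (Nat.pow_le_pow_left ?_ _)
      have := hTcard Y
      rwa [hYc] at this
    exact_mod_cast h2
  refine (sum_le_sum hb).trans ?_
  rw [sum_const, card_powersetCard, card_univ, Fintype.card_fin, nsmul_eq_mul]
  refine mul_le_mul_of_nonneg_right ?_ (mul_nonneg (pow_nonneg (Nat.cast_nonneg _) _) (pow_nonneg h0 _))
  exact_mod_cast Nat.choose_le_pow _ _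

theorem Pr_root_edge {V : Type*} [Fintype V] [DecidableEq V] {n : ℕ} (R : V → Fin n)
    {p : ℝ} (h0 : 0 ≤ p) (h1 : p ≤ 1) :
    Pr p (fun ω : Sym2 (Fin n) → Bool => ∃ x y, (Gr ω).Adj (R x) (R y)) ≤
      (Fintype.card V : ℝ) ^ 2 * p := by
  classical
  refine (Pr_mono h0 h1 (B := fun ω => ∃ q ∈ (univ : Finset V) ×ˢ (univ : Finset V),
    ω s(R q.1, R q.2) = true) fun ω hω => ?_).trans ?_
  · obtain ⟨x, y, h⟩ := hω
    exact ⟨(x, y), mem_product.mpr ⟨mem_univ _, mem_univ _⟩, h.2⟩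
  refine (Pr_exists_le h0 h1 _ _).trans ?_
  have h2 : ∀ q ∈ (univ : Finset V) ×ˢ (univ : Finset V),
      Pr p (fun ω : Sym2 (Fin n) → Bool => ω s(R q.1, R q.2) = true) = p := by
    intro q _
    have h3 := Pr_all_on (p := p) ({s(R q.1, R q.2)} : Finset (Sym2 (Fin n)))
    rw [card_singleton, pow_one] at h3
    rw [← h3]
    congr 1
    funext ω
    simp
  rw [sum_congr rfl h2, sum_const, nsmul_eq_mul, card_product, card_univ]
  push_cast
  apply le_of_eq
  ring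

end Pool.MP_65847d_pr
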