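import Pool.Agent.Lib.MP_65847d_pr.C.Defs
import Pool.Agent.Lib.MP_65847d_pr.Radial
import Pool.Agent.Lib.MP_65847d_pr.Maximal
import Pool.Agent.Lib.MP_1bacea_co.LocalSparse
import Pool.Agent.Lib.MP_1bacea_co.Degen

/-!
# C/Sparse : `p = o(1/n)`

Proof. Let `E a b`, `r = |V|`, `R : V → Fin n` injective (`n ≥ r`).
(1) Probability that some `R x` has a neighbour `≤ r n p → 0`.
(2) Probability that some nonempty `Y ⊆ Fin n` has at least `|Y|` edges inside: for `|Y| = y`, number of pairs `≤ y^2 / 2`,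
`Pr_cnt_ge`: `choose (y^2/2) y p^y`; number of `Y`: `choose n y`. `choose n y ≤ (e n / y)^y`... simpler:
`choose n y ≤ n^y / y!` and `choose m y ≤ m^y / y!`, so the sum over `y ≥ 1` is `≤ ∑ (n y^2 p)^y / (y!)^2 ≤ ∑ (9 n p)^y` since
`y^y ≤ 3^y y!` (or `e^y y!`), which is `≤ 18 n p → 0` for `9 n p ≤ 1/2`.
(3) If every nonempty `Y` has fewer than `|Y|` edges inside then every nonempty `Y` contains a vertex with at most one neighbour
in `Y` (sum of degrees `< 2 |Y|`), so by induction on `|Y|` the graph induced on `Y` has a map to `{a, b}` with adjacent vertices mapped to different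
names, i.e. there is `f : Fin n → Bool` with `f u ≠ f v` for all edges `u v`. (Or: the graph is acyclic; Mathlib has
`SimpleGraph.IsAcyclic.colorable_two`.)
(4) Colour: `R x ↦ x`, other `u ↦ if f u then a else b`. Edges never involve roots, so it is a homomorphism, and it is
surjective.
-/

set_option autoImplicit false

open Finset Filter Topology

namespace Pool.MP_65847d_pr

open Pool.MP_1bacea_co

/-- few edges inside sets, one set -/
private theorem sparse_one {n : ℕ} {p t : ℝ} (h0 : 0 ≤ p) (hpt : p ≤ t) (ht : 0 < t) (h1 : p ≤ 1)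
    (hnt : (n : ℝ) * t ≤ 1) (A : Finset (Fin n)) (hA : A.Nonempty) :
    Pr p (fun ω : Sym2 (Fin n) → Bool => ∀ v ∈ A, 2 ≤ dg (Gr ω) v A) ≤
      (t * A.card) ^ A.card * Real.exp ((A.card : ℝ) / 2) := by
  classical
  set a : ℝ := (A.card : ℝ) with ha
  have hapos : 0 < a := by
    rw [ha]
    exact_mod_cast card_pos.mpr hA
  have han : a ≤ n := by
    rw [ha]
    have := card_le_univ A
    rw [Fintype.card_fin] at this
    exact_mod_cast this
  have hta : 0 < t * a := mul_pos ht hapos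
  have hta1 : t * a ≤ 1 := by
    have : t * a ≤ t * n := mul_le_mul_of_nonneg_left han ht.le
    linarith
  set μ : ℝ := (t * a)⁻¹ with hμ
  have hμ0 : 0 < μ := inv_pos.mpr hta
  have hμ1 : 1 ≤ μ := (one_le_inv₀ hta).mpr hta1
  have hm : Pr p (fun ω : Sym2 (Fin n) → Bool => ∀ v ∈ A, 2 ≤ dg (Gr ω) v A) ≤
      Ex p (fun ω : Sym2 (Fin n) → Bool => (t * a) ^ A.card *
        μ ^ ((ls_T A).filter fun e => ω e = true).card) := by
    refine Pr_le_Ex h0 h1 (fun ω => by positivity) ?_
    intro ω hω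
    have hd := ls_double ω A 2 hω
    have hd' : A.card ≤ ((ls_T A).filter fun e => ω e = true).card := by omega
    calc (1 : ℝ) = (t * a) ^ A.card * μ ^ A.card := by
          rw [← mul_pow, hμ, mul_inv_cancel₀ hta.ne', one_pow]
      _ ≤ _ := by
          apply mul_le_mul_of_nonneg_left _ (by positivity)
          exact pow_le_pow_right₀ hμ1 hd'
  rw [Ex_mul_left, md_Ex_pow, ls_card_T] at hm
  refine hm.trans (mul_le_mul_of_nonneg_left ?_ (by positivity))
  have hpm : 0 ≤ p * (μ - 1) := mul_nonneg h0 (by linarith)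
  have e1 : 1 + p * (μ - 1) ≤ Real.exp (p * (μ - 1)) := by
    have := Real.add_one_le_exp (p * (μ - 1))
    linarith
  have e2 : (1 + p * (μ - 1)) ^ (A.card.choose 2) ≤
      (Real.exp (p * (μ - 1))) ^ (A.card.choose 2) :=
    pow_le_pow_left₀ (by linarith) e1 _
  refine e2.trans ?_
  rw [← Real.exp_nat_mul]
  apply Real.exp_le_exp.mpr
  have hc : ((A.card.choose 2 : ℕ) : ℝ) ≤ a * a / 2 := by
    rw [Nat.cast_choose_two]
    nlinarith
  have htm : t * μ * a = 1 := by
    rw [hμ]
    field_simp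
  calc ((A.card.choose 2 : ℕ) : ℝ) * (p * (μ - 1)) ≤ (a * a / 2) * (p * (μ - 1)) :=
        mul_le_mul_of_nonneg_right hc hpm
    _ ≤ (a * a / 2) * (t * μ) := by
        apply mul_le_mul_of_nonneg_left _ (by positivity)
        calc p * (μ - 1) ≤ t * (μ - 1) := mul_le_mul_of_nonneg_right hpt (by linarith)
          _ ≤ t * μ := mul_le_mul_of_nonneg_left (by linarith) ht.le
    _ = a / 2 * (t * μ * a) := by ring
    _ = a / 2 := by rw [htm, mul_one]

private theorem sparse_exp : Real.exp (1 / 2) * Real.exp 1 ≤ 5 := by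
  have h1 : Real.exp 1 < 2.7182818286 := Real.exp_one_lt_d9
  have h2 : Real.exp (1 / 2) * Real.exp (1 / 2) = Real.exp 1 := by
    rw [← Real.exp_add]
    norm_num
  have h3 : 0 < Real.exp (1 / 2) := Real.exp_pos _
  have h4 : 0 < Real.exp 1 := Real.exp_pos _
  by_contra hcon
  push Not at hcon
  have h5 : (5 : ℝ) * 5 < (Real.exp (1 / 2) * Real.exp 1) * (Real.exp (1 / 2) * Real.exp 1) :=
    mul_lt_mul'' hcon hcon (by norm_num) (by norm_num)
  have h6 : (Real.exp (1 / 2) * Real.exp 1) * (Real.exp (1 / 2) * Real.exp 1) =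
      Real.exp 1 * Real.exp 1 * Real.exp 1 := by
    calc (Real.exp (1 / 2) * Real.exp 1) * (Real.exp (1 / 2) * Real.exp 1)
        = (Real.exp (1 / 2) * Real.exp (1 / 2)) * Real.exp 1 * Real.exp 1 := by ring
      _ = _ := by rw [h2]
  rw [h6] at h5
  have h7 : Real.exp 1 * Real.exp 1 ≤ 2.7182818286 * 2.7182818286 :=
    mul_le_mul h1.le h1.le h4.le (by norm_num)
  have h8 : Real.exp 1 * Real.exp 1 * Real.exp 1 ≤ 2.7182818286 * 2.7182818286 * 2.7182818286 :=
    mul_le_mul h7 h1.le h4.le (by norm_num)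
  norm_num at h8
  linarith

/-- with high probability every nonempty set has a vertex with at most one neighbour in it -/
private theorem sparse_all {n : ℕ} {p t : ℝ} (h0 : 0 ≤ p) (hpt : p ≤ t) (ht : 0 < t) (h1 : p ≤ 1)
    (hnt : 10 * ((n : ℝ) * t) ≤ 1) :
    Pr p (fun ω : Sym2 (Fin n) → Bool => ∃ A : Finset (Fin n), A.Nonempty ∧
      ∀ v ∈ A, 2 ≤ dg (Gr ω) v A) ≤ 10 * ((n : ℝ) * t) := by
  classical
  have hnt0 : 0 ≤ (n : ℝ) * t := by positivity
  have hnt1 : (n : ℝ) * t ≤ 1 := by linarith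
  set y : ℝ := 5 * ((n : ℝ) * t) with hy
  have hy0 : 0 ≤ y := by positivity
  have hy1 : y ≤ 1 / 2 := by linarith
  set f : ℕ → ℝ := fun a => if a = 0 then 0 else (t * a) ^ a * Real.exp ((a : ℝ) / 2) with hf
  have hf0 : ∀ a, 0 ≤ f a := by
    intro a
    simp only [hf]
    split_ifs
    · exact le_rfl
    · positivity
  have hstep : Pr p (fun ω : Sym2 (Fin n) → Bool => ∃ A : Finset (Fin n), A.Nonempty ∧
      ∀ v ∈ A, 2 ≤ dg (Gr ω) v A) ≤ ∑ A : Finset (Fin n), f A.card := by
    calc Pr p (fun ω : Sym2 (Fin n) → Bool => ∃ A : Finset (Fin n), A.Nonempty ∧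
      ∀ v ∈ A, 2 ≤ dg (Gr ω) v A)
        ≤ Pr p (fun ω : Sym2 (Fin n) → Bool => ∃ A ∈ (univ : Finset (Finset (Fin n))).filter
            (fun A => A.Nonempty), ∀ v ∈ A, 2 ≤ dg (Gr ω) v A) := by
          refine Pr_mono h0 h1 fun ω hω => ?_
          obtain ⟨A, hA, hd⟩ := hω
          exact ⟨A, mem_filter.mpr ⟨mem_univ _, hA⟩, hd⟩
      _ ≤ ∑ A ∈ (univ : Finset (Finset (Fin n))).filter (fun A => A.Nonempty),
            Pr p (fun ω : Sym2 (Fin n) → Bool => ∀ v ∈ A, 2 ≤ dg (Gr ω) v A) :=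
          Pr_exists_le h0 h1 _ _
      _ ≤ ∑ A ∈ (univ : Finset (Finset (Fin n))).filter (fun A => A.Nonempty), f A.card := by
          refine sum_le_sum fun A hA => ?_
          rw [mem_filter] at hA
          have h3 := sparse_one h0 hpt ht h1 hnt1 A hA.2
          have h4 : A.card ≠ 0 := (card_pos.mpr hA.2).ne'
          simp only [hf, if_neg h4]
          exact h3
      _ ≤ ∑ A : Finset (Fin n), f A.card :=
          sum_le_sum_of_subset_of_nonneg (filter_subset _ _) fun A _ _ => hf0 _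
  have hsum : ∑ A : Finset (Fin n), f A.card = ∑ m ∈ range (n + 1), (n.choose m : ℝ) * f m := by
    have h3 := Finset.sum_powerset_apply_card f (x := (univ : Finset (Fin n)))
    rw [powerset_univ, card_univ, Fintype.card_fin] at h3
    rw [h3]
    refine sum_congr rfl fun m _ => ?_
    rw [nsmul_eq_mul]
  rw [hsum] at hstep
  have hterm : ∀ m ∈ range (n + 1), (n.choose m : ℝ) * f m ≤ if m = 0 then 0 else y ^ m := by
    intro m _
    by_cases hm : m = 0
    · simp only [hf, if_pos hm]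
      simp
    · simp only [hf, if_neg hm]
      have h3 : (n.choose m : ℝ) ≤ (n : ℝ) ^ m / (m.factorial : ℝ) := Nat.choose_le_pow_div m n
      have h4 : (m : ℝ) ^ m / (m.factorial : ℝ) ≤ Real.exp m :=
        Real.pow_div_factorial_le_exp (m : ℝ) (Nat.cast_nonneg m) m
      have h5 : 0 ≤ (t * m) ^ m * Real.exp ((m : ℝ) / 2) := by positivity
      have h6 : Real.exp ((m : ℝ) / 2) = Real.exp (1 / 2) ^ m := by
        rw [← Real.exp_nat_mul]
        congr 1
        ring
      have h7 : Real.exp (m : ℝ) = Real.exp 1 ^ m := by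
        rw [← Real.exp_nat_mul, mul_one]
      calc (n.choose m : ℝ) * ((t * m) ^ m * Real.exp ((m : ℝ) / 2))
          ≤ ((n : ℝ) ^ m / (m.factorial : ℝ)) * ((t * m) ^ m * Real.exp ((m : ℝ) / 2)) :=
            mul_le_mul_of_nonneg_right h3 h5
        _ = ((n : ℝ) * t) ^ m * Real.exp ((m : ℝ) / 2) * ((m : ℝ) ^ m / (m.factorial : ℝ)) := by
            rw [mul_pow, mul_pow]
            ring
        _ ≤ ((n : ℝ) * t) ^ m * Real.exp ((m : ℝ) / 2) * Real.exp m :=
            mul_le_mul_of_nonneg_left h4 (by positivity)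
        _ = (((n : ℝ) * t) * (Real.exp (1 / 2) * Real.exp 1)) ^ m := by
            rw [h6, h7, mul_pow, mul_pow]
            ring
        _ ≤ y ^ m := by
            apply pow_le_pow_left₀ (by positivity)
            rw [hy]
            have := mul_le_mul_of_nonneg_left sparse_exp hnt0
            linarith
  have hgeo : ∑ m ∈ range (n + 1), (if m = 0 then 0 else y ^ m) ≤ 2 * y := by
    rw [sum_range_succ']
    simp only [Nat.add_eq_zero_iff, one_ne_zero, and_false, if_false, if_true, add_zero]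
    have h3 : ∑ m ∈ range n, y ^ (m + 1) = y * ∑ m ∈ range n, y ^ m := by
      rw [mul_sum]
      exact sum_congr rfl fun m _ => by ring
    rw [h3]
    have h4 : ∑ m ∈ range n, y ^ m ≤ 2 := by
      have h5 := (summable_geometric_of_lt_one hy0 (by linarith)).sum_le_tsum (range n)
        (fun _ _ => pow_nonneg hy0 _)
      rw [tsum_geometric_of_lt_one hy0 (by linarith)] at h5
      refine h5.trans ?_
      rw [inv_le_comm₀ (by linarith) (by norm_num)]
      linarith
    have := mul_le_mul_of_nonneg_left h4 hy0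
    linarith
  refine hstep.trans ((sum_le_sum hterm).trans (hgeo.trans (le_of_eq ?_)))
  rw [hy]
  ring

/-- the deterministic part -/
private theorem sparse_det {V : Type*} {E : V → V → Prop} (hE : ∀ a b, E a b → E b a)
    {a b : V} (hab : E a b) {n : ℕ} (e : V ↪ Fin n) (ω : Sym2 (Fin n) → Bool)
    (hroot : ∀ x u, ω s(e x, u) ≠ true)
    (hloc : ∀ A : Finset (Fin n), A.Nonempty → ∃ v ∈ A, dg (Gr ω) v A ≤ 1) :
    SurjHom E (Gr ω) := by
  classical
  obtain ⟨c, hc⟩ := degen_color (Gr ω) 1 (univ : Finset (Fin n)) (fun A _ hA => hloc A hA)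
  refine ⟨Function.extend e (fun x => x) (fun u => if c u = 0 then a else b), ?_, ?_⟩
  · intro x
    exact ⟨e x, e.injective.extend_apply _ _ x⟩
  · intro u v huv
    have hu : ¬ ∃ x, e x = u := by
      rintro ⟨x, rfl⟩
      exact hroot x v huv.2
    have hv : ¬ ∃ x, e x = v := by
      rintro ⟨x, rfl⟩
      refine hroot x u ?_
      rw [Sym2.eq_swap]
      exact huv.2
    rw [Function.extend_apply' _ _ _ hu, Function.extend_apply' _ _ _ hv]
    have hcuv := hc u (mem_univ _) v (mem_univ _) huv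
    by_cases h1 : c u = 0
    · have h2 : c v ≠ 0 := fun h => hcuv (h1.trans h.symm)
      rw [if_pos h1, if_neg h2]
      exact hab
    · have h2 : c v = 0 := by
        have h3 := (c u).2
        have h4 := (c v).2
        by_contra h5
        apply hcuv
        have h6 : (c u).val ≠ 0 := fun h => h1 (Fin.ext h)
        have h7 : (c v).val ≠ 0 := fun h => h5 (Fin.ext h)
        apply Fin.ext
        omega
      rw [if_neg h1, if_pos h2]
      exact hE _ _ hab

/-- finite form -/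
private theorem sparse_finite {V : Type*} [Fintype V] {E : V → V → Prop}
    (hE : ∀ a b, E a b → E b a) (hne : ∃ a b, E a b) {n : ℕ} (hn : Fintype.card V ≤ n)
    {p t : ℝ} (h0 : 0 ≤ p) (hpt : p ≤ t) (ht : 0 < t) (h1 : p ≤ 1)
    (hnt : 10 * ((n : ℝ) * t) ≤ 1) :
    Pr p (fun ω : Sym2 (Fin n) → Bool => ¬ SurjHom E (Gr ω)) ≤
      Fintype.card V * ((n : ℝ) * t) + 10 * ((n : ℝ) * t) := by
  classical
  obtain ⟨a, b, hab⟩ := hne
  obtain ⟨e⟩ : Nonempty (V ↪ Fin n) :=
    Function.Embedding.nonempty_of_card_le (by rw [Fintype.card_fin]; exact hn)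
  have h3 : Pr p (fun ω : Sym2 (Fin n) → Bool => ¬ SurjHom E (Gr ω)) ≤
      Pr p (fun ω : Sym2 (Fin n) → Bool => ∃ q ∈ (univ : Finset (V × Fin n)),
        ω s(e q.1, q.2) = true) +
      Pr p (fun ω : Sym2 (Fin n) → Bool => ∃ A : Finset (Fin n), A.Nonempty ∧
        ∀ v ∈ A, 2 ≤ dg (Gr ω) v A) := by
    refine le_trans (Pr_mono h0 h1 (B := fun ω => (∃ q ∈ (univ : Finset (V × Fin n)),
        ω s(e q.1, q.2) = true) ∨ ∃ A : Finset (Fin n), A.Nonempty ∧
        ∀ v ∈ A, 2 ≤ dg (Gr ω) v A) fun ω hω => ?_) (Pr_or_le h0 h1 _ _)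
    by_contra hcon
    push Not at hcon
    obtain ⟨hc1, hc2⟩ := hcon
    apply hω
    refine sparse_det hE hab e ω (fun x u => hc1 (x, u) (mem_univ _)) ?_
    intro A hA
    obtain ⟨v, hv, hd⟩ := hc2 A hA
    exact ⟨v, hv, by omega⟩
  have h4 : Pr p (fun ω : Sym2 (Fin n) → Bool => ∃ q ∈ (univ : Finset (V × Fin n)),
        ω s(e q.1, q.2) = true) ≤ Fintype.card V * ((n : ℝ) * t) := by
    refine (Pr_exists_le h0 h1 _ _).trans ?_
    have h5 : ∀ q ∈ (univ : Finset (V × Fin n)),
        Pr p (fun ω : Sym2 (Fin n) → Bool => ω s(e q.1, q.2) = true) = p := by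
      intro q _
      have h3 := Pr_all_on (p := p) ({s(e q.1, q.2)} : Finset (Sym2 (Fin n)))
      rw [card_singleton, pow_one] at h3
      rw [← h3]
      congr 1
      funext ω
      simp
    rw [sum_congr rfl h5, sum_const, nsmul_eq_mul, card_univ, Fintype.card_prod, Fintype.card_fin]
    push_cast
    have h6 : 0 ≤ (Fintype.card V : ℝ) * n := by positivity
    have := mul_le_mul_of_nonneg_left hpt h6
    linarith
  have h5 := sparse_all h0 hpt ht h1 hnt
  linarith

theorem lower_sparse {V : Type*} [Finite V] {E : V → V → Prop} (hE : ∀ a b, E a b → E b a)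
    (hne : ∃ a b, E a b) (p : ℕ → unitInterval)
    (hp : Tendsto (fun n : ℕ => (n : ℝ) * (p n : ℝ)) atTop (𝓝 0)) :
    Tendsto (fun n => prob (fun _ => SurjHom E) n (p n)) atTop (𝓝 1) := by
  classical
  have := Fintype.ofFinite V
  have hinv : Tendsto (fun n : ℕ => ((n : ℝ))⁻¹) atTop (𝓝 0) := tendsto_inv_atTop_nhds_zero_nat
  have hsum : Tendsto (fun n : ℕ => (n : ℝ) * (p n : ℝ) + ((n : ℝ))⁻¹) atTop (𝓝 0) := by
    have := hp.add hinv
    simpa using this
  have hbound : Tendsto (fun n : ℕ => ((Fintype.card V : ℝ) + 10) *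
      ((n : ℝ) * (p n : ℝ) + ((n : ℝ))⁻¹)) atTop (𝓝 0) := by
    have := hsum.const_mul ((Fintype.card V : ℝ) + 10)
    simpa using this
  have hev : ∀ᶠ n : ℕ in atTop, Pr ((p n : ℝ)) (fun ω : Sym2 (Fin n) → Bool =>
      ¬ SurjHom E (Gr ω)) ≤ ((Fintype.card V : ℝ) + 10) *
      ((n : ℝ) * (p n : ℝ) + ((n : ℝ))⁻¹) := by
    have hsm : ∀ᶠ n : ℕ in atTop, (n : ℝ) * (p n : ℝ) + ((n : ℝ))⁻¹ < 1 / 10 :=
      hsum.eventually (gt_mem_nhds (by norm_num))
    filter_upwards [hsm, eventually_ge_atTop (Fintype.card V), eventually_ge_atTop 1]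
      with n hn1 hn2 hn3
    have hn0 : (0 : ℝ) < n := by exact_mod_cast hn3
    set t : ℝ := (p n : ℝ) + (((n : ℝ)) ^ 2)⁻¹ with ht
    have hnt : (n : ℝ) * t = (n : ℝ) * (p n : ℝ) + ((n : ℝ))⁻¹ := by
      rw [ht, mul_add]
      congr 1
      field_simp
    have hi : (0 : ℝ) < (((n : ℝ)) ^ 2)⁻¹ := by positivity
    have h3 := sparse_finite hE hne hn2 (p n).2.1 (show (p n : ℝ) ≤ t by rw [ht]; linarith)
      (by rw [ht]; have := (p n).2.1; linarith) (p n).2.2 (by rw [hnt]; linarith)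
    rw [hnt] at h3
    linarith
  have h0 : Tendsto (fun n : ℕ => Pr ((p n : ℝ)) (fun ω : Sym2 (Fin n) → Bool =>
      ¬ SurjHom E (Gr ω))) atTop (𝓝 0) := by
    refine squeeze_zero' (Eventually.of_forall fun n => ?_) hev hbound
    exact Pr_nonneg (p n).2.1 (p n).2.2 _
  refine tendsto_one_of_fail (fun n => ?_) h0
  rw [prob_eq_Pr, Pr_not]
  ring

end Pool.MP_65847d_pr
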