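import Pool.Agent.Lib.MP_65847d_pr.C.EmbedAll
import Pool.Agent.Lib.MP_65847d_pr.Radial

/-!
# C/Upper : no stable vector at `α` means no surjective homomorphism at `n ^ (-α)`

Proof. Let `I = {W : V → ℝ | ∀ a, 0 ≤ W a ≤ 1}` (compact: `isCompact_univ_pi` / `isCompact_Icc`). For `W ∈ I`, `¬ Stable` gives
`w ≥ 0, k, K, A` with `K` acyclic, `Rich`, `¬ Colours`; `embed_all` gives `δ, f`. Let `δ'` be positive, `≤ δ`, and `≤ w - W a` for all `a` with `W a < w`.
Neighbourhood `N_W = {W' | ∀ a, |W' a - W a| < δ'}`. Finitely many `N_W` cover `I` (`IsCompact.elim_nhds_subcover`).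
Suppose `n ≥ 2`, `G` satisfies `EmbEv` for all `W` of the finite list, and `h : Fin n → V` is a surjective homomorphism. Put `W' a = log |h⁻¹(a)| / log n ∈ [0,1]`,
so `|h⁻¹(a)| = n ^ W' a`. `W' ∈ N_W` for some `W` of the list. `D a = h⁻¹(a)` (disjoint), `|D a| = n ^ W' a ≥ n ^ (min (W a) w - δ)`.
`B = {v | W (h v) < w}`, `|B| ≤ |V| n ^ w` since for `W a < w`: `W' a ≤ W a + δ' ≤ w`. `EmbEv` gives `ψ`; `h ∘ ψ` is a colouring: `Colours E W w K A`
(`w ≤ W (h (ψ i))` since `ψ i ∉ B`; `E (h (ψ i)) a` as `ψ i` is adjacent to `d` with `h d = a`). Contradiction.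
So `Pr (SurjHom) ≤ ∑ f → 0` (`Pr_exists_le`), `prob_eq_Pr`. (If `V` is empty, `SurjHom` fails for `n ≥ 1`; the argument covers this as well: no `h`.)
-/

set_option autoImplicit false

open Finset Filter Topology

namespace Pool.MP_65847d_pr

open Pool.MP_1bacea_co

/-- the local statement: near `W` there is no class-size vector of a surjective homomorphism -/
private theorem up_local {V : Type*} [Fintype V] [DecidableEq V] {E : V → V → Prop} {α : ℝ}
    (hα : 0 < α) (hα1 : α < 1) (W : V → ℝ) (hW : ∀ a, 0 ≤ W a ∧ W a ≤ 1) (hS : ¬ Stable E α W) :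
    ∃ (r : ℝ) (f : ℕ → ℝ) (S : ∀ n : ℕ, SimpleGraph (Fin n) → Prop), 0 < r ∧
      Tendsto f atTop (𝓝 0) ∧
      (∀ (n : ℕ) (p : ℝ), (n : ℝ) ^ (-α) ≤ p → p ≤ 1 →
        Pr p (fun ω : Sym2 (Fin n) → Bool => ¬ S n (Gr ω)) ≤ f n) ∧
      ∀ (n : ℕ), 2 ≤ n → ∀ G : SimpleGraph (Fin n), S n G → ∀ h : Fin n → V,
        Function.Surjective h → (∀ u v, G.Adj u v → E (h u) (h v)) →
        ¬ ∀ a, |Real.log ((univ.filter fun v => h v = a).card : ℝ) / Real.log n - W a| < r := by
  unfold Stable at hS
  push Not at hS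
  obtain ⟨w, hw, k, K, A, hK, hR, hC⟩ := hS hW
  obtain ⟨δ, hδ, f, hf, hb⟩ := embed_all hα hα1 hw W K hK A hR
  -- radius
  obtain ⟨r, hr, hrδ, hrw⟩ : ∃ r : ℝ, 0 < r ∧ r ≤ δ ∧ ∀ a, W a < w → r ≤ w - W a := by
    have : ∀ s : Finset V, ∃ r : ℝ, 0 < r ∧ r ≤ δ ∧ ∀ a ∈ s, W a < w → r ≤ w - W a := by
      intro s
      induction s using Finset.induction_on with
      | empty => exact ⟨δ, hδ, le_refl _, by simp⟩
      | insert a s ha ih =>
        obtain ⟨r, hr, h1, h2⟩ := ih
        by_cases hwa : W a < w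
        · refine ⟨min r (w - W a), lt_min hr (by linarith), (min_le_left _ _).trans h1, ?_⟩
          intro b hb hbw
          rcases Finset.mem_insert.1 hb with rfl | hb
          · exact min_le_right _ _
          · exact (min_le_left _ _).trans (h2 b hb hbw)
        · refine ⟨r, hr, h1, ?_⟩
          intro b hb hbw
          rcases Finset.mem_insert.1 hb with rfl | hb
          · exact absurd hbw hwa
          · exact h2 b hb hbw
    obtain ⟨r, h1, h2, h3⟩ := this univ
    exact ⟨r, h1, h2, fun a => h3 a (mem_univ a)⟩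
  refine ⟨r, f, EmbEv K A (fun a => min (W a) w) w δ, hr, hf, hb, ?_⟩
  intro n hn G hG h hsurj hhom hclose
  apply hC
  have hn0 : (0 : ℝ) < n := by positivity
  have hn1 : (1 : ℝ) < n := by exact_mod_cast (by omega : 1 < n)
  have hlog : 0 < Real.log n := Real.log_pos hn1
  -- class sizes
  have hcard : ∀ a, ((univ.filter fun v => h v = a).card : ℝ) =
      (n : ℝ) ^ (Real.log ((univ.filter fun v => h v = a).card : ℝ) / Real.log n) := by
    intro a
    have hpos : (0 : ℝ) < ((univ.filter fun v => h v = a).card : ℝ) := by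
      obtain ⟨x, hx⟩ := hsurj a
      have : 0 < (univ.filter fun v => h v = a).card := Finset.card_pos.2 ⟨x, by simp [hx]⟩
      exact_mod_cast this
    rw [Real.rpow_def_of_pos hn0, mul_div_cancel₀ _ hlog.ne', Real.exp_log hpos]
  have hE := hG (fun a => univ.filter fun v => h v = a) (univ.filter fun v => W (h v) < w) ?_ ?_ ?_
  · obtain ⟨ψ, h1, h2, h3⟩ := hE
    refine ⟨fun i => h (ψ i), fun i j hij => hhom _ _ (h2 i j hij), fun i => ?_, fun i a ha => ?_⟩
    · have := h1 i
      simpa using this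
    · obtain ⟨d, hd, hd'⟩ := h3 i a ha
      have := hhom _ _ hd'
      rw [(Finset.mem_filter.1 hd).2] at this
      exact this
  · intro a b hab
    rw [Finset.disjoint_left]
    intro x hx hx'
    exact hab ((Finset.mem_filter.1 hx).2.symm.trans (Finset.mem_filter.1 hx').2)
  · intro a
    show (n : ℝ) ^ (min (W a) w - δ) ≤ ((univ.filter fun v => h v = a).card : ℝ)
    rw [hcard a]
    refine Real.rpow_le_rpow_of_exponent_le hn1.le ?_
    have := (abs_lt.1 (hclose a)).1
    have h2 := min_le_left (W a) w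
    linarith
  · have hsub : (univ.filter fun v => W (h v) < w) ⊆
        (univ.filter fun a => W a < w).biUnion fun a => univ.filter fun v => h v = a := by
      intro v hv
      rw [Finset.mem_biUnion]
      exact ⟨h v, by simpa using hv, by simp⟩
    have h1 : ((univ.filter fun v => W (h v) < w).card : ℝ) ≤
        ∑ a ∈ univ.filter (fun a => W a < w), ((univ.filter fun v => h v = a).card : ℝ) := by
      have := (Finset.card_le_card hsub).trans Finset.card_biUnion_le
      exact_mod_cast this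
    refine h1.trans ?_
    have h2 : ∀ a ∈ univ.filter (fun a => W a < w),
        ((univ.filter fun v => h v = a).card : ℝ) ≤ (n : ℝ) ^ w := by
      intro a ha
      have haw : W a < w := (Finset.mem_filter.1 ha).2
      rw [hcard a]
      refine Real.rpow_le_rpow_of_exponent_le hn1.le ?_
      have := (abs_lt.1 (hclose a)).2
      have h3 := hrw a haw
      linarith
    refine (Finset.sum_le_sum h2).trans ?_
    rw [Finset.sum_const, nsmul_eq_mul]
    have h3 : ((univ.filter fun a => W a < w).card : ℝ) ≤ Fintype.card V := by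
      exact_mod_cast Finset.card_le_univ _
    exact mul_le_mul_of_nonneg_right h3 (by positivity)

theorem upper_coarse {V : Type*} [Finite V] {E : V → V → Prop} {α : ℝ} (hα : 0 < α) (hα1 : α < 1)
    (hS : ¬ ∃ W : V → ℝ, Stable E α W)
    (p : ℕ → unitInterval) (hp : ∀ᶠ n : ℕ in atTop, (n : ℝ) ^ (-α) ≤ (p n : ℝ)) :
    Tendsto (fun n => prob (fun _ => SurjHom E) n (p n)) atTop (𝓝 0) := by
  classical
  have := Fintype.ofFinite V
  push Not at hS
  set I : Set (V → ℝ) := Set.univ.pi fun _ => Set.Icc (0 : ℝ) 1 with hI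
  have hIc : IsCompact I := isCompact_univ_pi fun _ => isCompact_Icc
  have hIm : ∀ W : V → ℝ, W ∈ I ↔ ∀ a, 0 ≤ W a ∧ W a ≤ 1 := by
    intro W
    rw [hI, Set.mem_univ_pi]
    exact Iff.rfl
  choose r f S hr hf hb hc using fun (W : V → ℝ) (hW : W ∈ I) =>
    up_local (E := E) hα hα1 W ((hIm W).1 hW) (hS W)
  obtain ⟨t, ht⟩ := hIc.elim_nhds_subcover' (fun W hW => Metric.ball W (r W hW))
    (fun W hW => Metric.ball_mem_nhds W (hr W hW))
  have hlim : Tendsto (fun n => ∑ W ∈ t, f W.1 W.2 n) atTop (𝓝 0) := by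
    have := tendsto_finsetSum t (fun W _ => hf W.1 W.2)
    simpa using this
  refine squeeze_zero' (Filter.Eventually.of_forall fun n => ?_) ?_ hlim
  · rw [prob_eq_Pr]
    exact Pr_nonneg (p n).2.1 (p n).2.2 _
  · filter_upwards [hp, eventually_ge_atTop 2] with n hn hn2
    rw [prob_eq_Pr]
    have h1 : Pr (p n : ℝ) (fun ω : Sym2 (Fin n) → Bool => SurjHom E (Gr ω)) ≤
        Pr (p n : ℝ) (fun ω : Sym2 (Fin n) → Bool => ∃ W ∈ t, ¬ S W.1 W.2 n (Gr ω)) := by
      refine Pr_mono (p n).2.1 (p n).2.2 fun ω hω => ?_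
      obtain ⟨h, hsurj, hhom⟩ := hω
      by_contra hcon
      push Not at hcon
      have hn1 : (1 : ℝ) < n := by exact_mod_cast (by omega : 1 < n)
      have hlog : 0 < Real.log n := Real.log_pos hn1
      set W' : V → ℝ := fun a =>
        Real.log ((univ.filter fun v => h v = a).card : ℝ) / Real.log n with hW'
      have hmem : W' ∈ I := by
        rw [hIm]
        intro a
        have hpos : 1 ≤ (univ.filter fun v => h v = a).card := by
          obtain ⟨x, hx⟩ := hsurj a
          exact Finset.card_pos.2 ⟨x, by simp [hx]⟩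
        have hle : (univ.filter fun v => h v = a).card ≤ n := by
          have := Finset.card_le_univ (univ.filter fun v => h v = a)
          simpa using this
        have hpos' : (1 : ℝ) ≤ ((univ.filter fun v => h v = a).card : ℝ) := by exact_mod_cast hpos
        have hle' : ((univ.filter fun v => h v = a).card : ℝ) ≤ n := by exact_mod_cast hle
        refine ⟨div_nonneg (Real.log_nonneg hpos') hlog.le, ?_⟩
        rw [hW']
        show Real.log _ / Real.log n ≤ 1
        rw [div_le_one hlog]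
        exact Real.log_le_log (by linarith) hle'
      obtain ⟨U, hU, hU'⟩ := Set.mem_iUnion₂.1 (ht hmem)
      refine hc U.1 U.2 n hn2 (Gr ω) (hcon U hU) h hsurj hhom ?_
      intro a
      have h5 := (dist_pi_lt_iff (hr U.1 U.2)).1 (Metric.mem_ball.1 hU') a
      rw [Real.dist_eq] at h5
      exact h5
    refine h1.trans ((Pr_exists_le (p n).2.1 (p n).2.2 t _).trans ?_)
    exact Finset.sum_le_sum fun W _ => hb W.1 W.2 n (p n) hn (p n).2.2

end Pool.MP_65847d_pr
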