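import Pool.Agent.Lib.MP_65847d_pr.C.Lower
import Pool.Agent.Lib.MP_65847d_pr.C.Upper
import Pool.Agent.Lib.MP_65847d_pr.C.Sparse

/-!
# C/Final : the coarse threshold of every graph with at least one edge
-/

set_option autoImplicit false

open Finset Filter Topology

namespace Pool.MP_65847d_pr

theorem expo_bddBelow {V : Type*} (E : V → V → Prop) :
    BddBelow ({α : ℝ | 0 < α ∧ α < 1 ∧ ∃ W : V → ℝ, Stable E α W} ∪ {1}) := by
  refine ⟨0, ?_⟩
  rintro x (hx | hx)
  · exact hx.1.le
  · rw [Set.mem_singleton_iff.mp hx]; norm_num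

theorem expo_le_one {V : Type*} (E : V → V → Prop) : expo E ≤ 1 :=
  csInf_le (expo_bddBelow E) (Or.inr rfl)

theorem expo_nonneg {V : Type*} (E : V → V → Prop) : 0 ≤ expo E := by
  refine le_csInf ⟨1, Or.inr rfl⟩ ?_
  rintro x (hx | hx)
  · exact hx.1.le
  · rw [Set.mem_singleton_iff.mp hx]; norm_num

theorem coarse_threshold {V : Type*} [Finite V] {E : V → V → Prop} (hE : ∀ a b, E a b → E b a)
    (hne : ∃ a b, E a b) (ε : ℝ) (hε : 0 < ε) (p : ℕ → unitInterval) :
    ((∀ᶠ n : ℕ in atTop, (p n : ℝ) ≤ (n : ℝ) ^ (-(expo E + ε))) →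
      Tendsto (fun n => prob (fun _ => SurjHom E) n (p n)) atTop (𝓝 1)) ∧
    ((∀ᶠ n : ℕ in atTop, (n : ℝ) ^ (-(expo E - ε)) ≤ (p n : ℝ)) →
      Tendsto (fun n => prob (fun _ => SurjHom E) n (p n)) atTop (𝓝 0)) := by
  constructor
  · intro hp
    have hlt : expo E < expo E + ε := by linarith
    obtain ⟨x, hx, hxlt⟩ := exists_lt_of_csInf_lt
      (⟨1, Or.inr rfl⟩ : ({α : ℝ | 0 < α ∧ α < 1 ∧ ∃ W : V → ℝ, Stable E α W} ∪ {1}).Nonempty) hlt
    rcases hx with hx | hx
    · obtain ⟨h0, h1, W, hW⟩ := hx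
      exact lower_coarse hE h0 h1 hW hxlt p hp
    · rw [Set.mem_singleton_iff.mp hx] at hxlt
      refine lower_sparse hE hne p ?_
      have hc : 0 < expo E + ε - 1 := by linarith
      have hlim : Tendsto (fun n : ℕ => (n : ℝ) ^ (-(expo E + ε - 1))) atTop (𝓝 0) :=
        (tendsto_rpow_neg_atTop hc).comp tendsto_natCast_atTop_atTop
      refine squeeze_zero' (Eventually.of_forall fun n => by
        have := (p n).2.1
        positivity) ?_ hlim
      filter_upwards [hp, eventually_ge_atTop 1] with n hn hn1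
      have hn0 : (0 : ℝ) < n := by exact_mod_cast hn1
      calc (n : ℝ) * (p n : ℝ) ≤ (n : ℝ) * (n : ℝ) ^ (-(expo E + ε)) :=
            mul_le_mul_of_nonneg_left hn hn0.le
        _ = (n : ℝ) ^ (1 : ℝ) * (n : ℝ) ^ (-(expo E + ε)) := by rw [Real.rpow_one]
        _ = (n : ℝ) ^ (-(expo E + ε - 1)) := by
            rw [← Real.rpow_add hn0]
            congr 1
            ring
  · intro hp
    by_cases hneg : expo E - ε < 0
    · exfalso
      obtain ⟨n, hn, hn2⟩ := (hp.and (eventually_ge_atTop 2)).exists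
      have h2 : (1 : ℝ) < n := by
        have : (2 : ℝ) ≤ n := by exact_mod_cast hn2
        linarith
      have h3 : (1 : ℝ) < (n : ℝ) ^ (-(expo E - ε)) := Real.one_lt_rpow h2 (by linarith)
      have h4 := (p n).2.2
      linarith
    · push Not at hneg
      obtain ⟨α, hα1, hα2⟩ := exists_between (show expo E - ε < expo E by linarith)
      have hα0 : 0 < α := lt_of_le_of_lt hneg hα1
      have hαlt1 : α < 1 := lt_of_lt_of_le hα2 (expo_le_one E)
      refine upper_coarse hα0 hαlt1 ?_ p ?_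
      · intro hW
        exact notMem_of_lt_csInf hα2 (expo_bddBelow E) (Or.inl ⟨hα0, hαlt1, hW⟩)
      · filter_upwards [hp, eventually_ge_atTop 1] with n hn hn1
        refine le_trans ?_ hn
        apply Real.rpow_le_rpow_of_exponent_le
        · exact_mod_cast hn1
        · linarith

end Pool.MP_65847d_pr
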