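import Pool.Agent.Lib.MP_65847d_pr.C.Defs

/-!
# C/Transport : stability for forests on an arbitrary finite vertex type

Proof: `e : ι ≃ Fin k` (`Fintype.equivFin`), `K' = K.map e` or `K.comap e.symm`, `A' i = A (e.symm i)`;
`K'` is acyclic (`SimpleGraph.Iso.isAcyclic_iff`), `Rich` transports (a set `U' : Finset (Fin k)` corresponds to `U = U'.map e.symm`, the induced
graphs are isomorphic, the sums agree by `Finset.sum_map`), and a colouring of `K'` gives one of `K`.
-/

set_option autoImplicit false

open Finset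

namespace Pool.MP_65847d_pr

theorem Stable.colours {V ι : Type*} [Fintype ι] {E : V → V → Prop} {α : ℝ} {W : V → ℝ}
    (hS : Stable E α W) {w : ℝ} (hw : 0 ≤ w) (K : SimpleGraph ι) (A : ι → Finset V)
    (hK : K.IsAcyclic) (hR : Rich α W w K A) : Colours E W w K A := by
  classical
  have e : ι ≃ Fin (Fintype.card ι) := Fintype.equivFin ι
  have hK' : (K.comap e.symm).IsAcyclic :=
    hK.comap (SimpleGraph.Hom.comap _ K) e.symm.injective
  have hR' : Rich α W w (K.comap e.symm) (fun i => A (e.symm i)) := by
    intro U hU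
    have h1 : wgt α W w (fun i => A (e.symm i)) U = wgt α W w A (U.map e.symm.toEmbedding) := by
      unfold wgt
      rw [Finset.sum_map]
      rfl
    rw [h1]
    apply hR
    have hm : ∀ x : (U : Set (Fin (Fintype.card ι))),
        e.symm x.1 ∈ ((U.map e.symm.toEmbedding : Finset ι) : Set ι) := by
      intro x
      rw [Finset.mem_coe, Finset.mem_map]
      exact ⟨x.1, x.2, rfl⟩
    let f : ((K.comap e.symm).induce (U : Set (Fin (Fintype.card ι)))) →g
        (K.induce ((U.map e.symm.toEmbedding : Finset ι) : Set ι)) :=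
      { toFun := fun x => ⟨e.symm x.1, hm x⟩
        map_rel' := fun {a b} h => h }
    refine hU.map f ?_
    rintro ⟨y, hy⟩
    rw [Finset.mem_coe, Finset.mem_map] at hy
    obtain ⟨x, hx, rfl⟩ := hy
    exact ⟨⟨x, hx⟩, rfl⟩
  obtain ⟨φ, h1, h2, h3⟩ := hS.2 w hw _ (K.comap e.symm) (fun i => A (e.symm i)) hK' hR'
  refine ⟨fun i => φ (e i), fun i j hij => ?_, fun i => h2 _, fun i a ha => ?_⟩
  · apply h1
    simpa using hij
  · apply h3
    simpa using ha

end Pool.MP_65847d_pr
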