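import Pool.Agent.Lib.MP_65847d_pr.C.Types
import Pool.Agent.Lib.MP_65847d_pr.C.Transport

/-!
# C/HighCol : a colour for a non-root with positive total

Proof. Let `w = (α + β) / 2`, `H = {a | w ≤ W a}`, `K = ⊥` on `Fin 1` (or on `Unit`, using `Stable.colours`; acyclic),
`A = lab u ∪ {φ v | v ∈ nbr u, tot v < 0} ∪ H`. Weight of the only nonempty set `U`: `1 - ∑_{x ∈ A} kap x`.
`kap α W w x = 0` for `x ∈ H` (`min = w > α`); `kap α W w x ≤ α ≤ β` for `x ∈ lab u`; for `v ∈ nbr u` with `tot v < 0`: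
`min (W (φ v)) w ≥ min (β + tot v) w`, so `kap (φ v) ≤ max 0 (max (α - β - tot v) (α - w)) ≤ - tot v`.
And `M v u = tot v` for those `v` (`msg_of_lt`: `tot v < 0 < tot u`), `M v u = 0` for `v ∈ nbr u` with `tot v > 0` (`msg_of_pos`),
`tot v ≠ 0`. So `∑ kap ≤ β |lab u| - ∑_{v ∈ nbr u} M v u = 1 - β - tot u` and the weight is
`≥ β + tot u > β > w`. The colour `c` obtained has `w ≤ W c`, is adjacent to all of `A`.
-/

set_option autoImplicit false

open Finset

namespace Pool.MP_65847d_pr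

variable {N V : Type*} [Fintype N] [DecidableEq N] [Fintype V] [DecidableEq V]

theorem HighCol_sum_image {N V : Type*} [DecidableEq V] (f : V → ℝ) (hf : ∀ x, 0 ≤ f x)
    (g : N → V) (s : Finset N) : ∑ x ∈ s.image g, f x ≤ ∑ v ∈ s, f (g v) := by
  classical
  induction s using Finset.induction_on with
  | empty => simp
  | insert a s ha ih =>
    rw [Finset.image_insert, Finset.sum_insert ha]
    by_cases h : g a ∈ s.image g
    · rw [Finset.insert_eq_of_mem h]
      linarith [hf (g a)]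
    · rw [Finset.sum_insert h]
      linarith

theorem HighCol_sum_union {V : Type*} [DecidableEq V] (f : V → ℝ) (hf : ∀ x, 0 ≤ f x)
    (s t : Finset V) : ∑ x ∈ s ∪ t, f x ≤ ∑ x ∈ s, f x + ∑ x ∈ t, f x := by
  rw [← Finset.sum_union_inter]
  have : 0 ≤ ∑ x ∈ s ∩ t, f x := Finset.sum_nonneg fun x _ => hf x
  linarith

theorem high_colour {E : V → V → Prop} {α β : ℝ} (hα : 0 < α)
    (hαβ : α < β) (hβ1 : β < 1) (hβ : Irrational β) {G : SimpleGraph N} {R : V → N}
    {M : N → N → ℝ} (hM : Fixed β G R M) {W : V → ℝ} (hS : Stable E α W) (φ : N → V)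
    (hφ : ∀ v, (∀ x, R x ≠ v) → tot β G R M v < 0 → β + tot β G R M v ≤ W (φ v))
    (u : N) (hu : ∀ x, R x ≠ u) (hpos : 0 < tot β G R M u) :
    ∃ c, (α + β) / 2 ≤ W c ∧ (∀ x ∈ lab G R u, E c x) ∧
      (∀ v ∈ nbr G R u, tot β G R M v < 0 → E c (φ v)) ∧ ∀ a, (α + β) / 2 ≤ W a → E c a := by
  classical
  set w : ℝ := (α + β) / 2 with hw
  have hw0 : 0 ≤ w := by rw [hw]; linarith
  have hwα : α < w := by rw [hw]; linarith
  have hwβ : w < β := by rw [hw]; linarith
  have hkap0 : ∀ x, 0 ≤ kap α W w x := fun x => le_max_left _ _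
  set s1 := lab G R u with hs1
  set sneg := (nbr G R u).filter (fun v => tot β G R M v < 0) with hsneg
  set s3 : Finset V := univ.filter (fun a => w ≤ W a) with hs3
  set A : Fin 1 → Finset V := fun _ => s1 ∪ sneg.image φ ∪ s3 with hA
  have hnbr : ∀ t ∈ nbr G R u, G.Adj u t ∧ ∀ x, R x ≠ t := by
    intro t ht
    rw [nbr, Finset.mem_filter] at ht
    exact ht.2
  -- the sums
  have k1 : ∑ x ∈ s1, kap α W w x ≤ β * s1.card := by
    have h1 : ∑ x ∈ s1, kap α W w x ≤ ∑ _x ∈ s1, β := by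
      refine Finset.sum_le_sum fun x _ => ?_
      refine max_le (by linarith) ?_
      have h2 : 0 ≤ min (W x) w := le_min (hS.1 x).1 hw0
      linarith
    rw [Finset.sum_const, nsmul_eq_mul] at h1
    linarith
  have k2 : ∑ x ∈ sneg.image φ, kap α W w x ≤ ∑ v ∈ sneg, -(tot β G R M v) := by
    refine (HighCol_sum_image _ hkap0 φ sneg).trans (Finset.sum_le_sum fun v hv => ?_)
    rw [hsneg, Finset.mem_filter] at hv
    have h1 := hφ v (hnbr v hv.1).2 hv.2
    refine max_le (by linarith [hv.2]) ?_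
    rcases le_total (W (φ v)) w with h2 | h2
    · rw [min_eq_left h2]
      linarith
    · rw [min_eq_right h2]
      linarith [hv.2]
  have k3 : ∑ x ∈ s3, kap α W w x = 0 := by
    refine Finset.sum_eq_zero fun x hx => ?_
    rw [hs3, Finset.mem_filter] at hx
    rw [kap, min_eq_right hx.2]
    exact max_eq_left (by linarith)
  have k4 : ∑ t ∈ nbr G R u, M t u = ∑ v ∈ sneg, tot β G R M v := by
    rw [hsneg, Finset.sum_filter]
    refine Finset.sum_congr rfl fun t ht => ?_
    obtain ⟨hadj, hnr⟩ := hnbr t ht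
    split_ifs with h
    · have h1 := (msg_of_lt hβ hM hu hnr hadj (h.trans hpos)).1
      rw [h1, min_eq_right h.le]
    · have h1 : 0 < tot β G R M t :=
        lt_of_le_of_ne (not_lt.1 h) (Ne.symm (tot_ne_zero hβ hM hnr))
      exact (msg_of_pos hβ hM hu hnr hadj hpos h1).2
  have k5 : ∑ x ∈ A 0, kap α W w x ≤ 1 - β - tot β G R M u := by
    have h1 : ∑ x ∈ A 0, kap α W w x ≤ β * s1.card + ∑ v ∈ sneg, -(tot β G R M v) + 0 := by
      refine (HighCol_sum_union _ hkap0 _ _).trans ?_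
      refine add_le_add ((HighCol_sum_union _ hkap0 _ _).trans (add_le_add k1 k2)) k3.le
    refine h1.trans ?_
    rw [Finset.sum_neg_distrib, ← k4, tot, cw]
    linarith
  have hrich : Rich α W w (⊥ : SimpleGraph (Fin 1)) A := by
    intro U hU
    have hne : U.Nonempty := by
      obtain ⟨⟨x, hx⟩⟩ := hU.nonempty
      exact ⟨x, hx⟩
    have hU1 : U = {0} := by
      obtain ⟨x, hx⟩ := hne
      ext y
      rw [Finset.mem_singleton]
      constructor
      · intro _; exact Subsingleton.elim _ _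
      · intro _
        rw [Subsingleton.elim y x]
        exact hx
    rw [hU1, wgt, Finset.sum_singleton]
    linarith
  obtain ⟨ψ, -, h2, h3⟩ := hS.2 w hw0 1 ⊥ A SimpleGraph.isAcyclic_bot hrich
  refine ⟨ψ 0, h2 0, fun x hx => h3 0 x ?_, fun v hv hneg => h3 0 (φ v) ?_, fun a ha => h3 0 a ?_⟩
  · rw [hA]
    exact Finset.mem_union_left _ (Finset.mem_union_left _ hx)
  · rw [hA]
    refine Finset.mem_union_left _ (Finset.mem_union_right _ (Finset.mem_image_of_mem _ ?_))
    rw [hsneg, Finset.mem_filter]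
    exact ⟨hv, hneg⟩
  · rw [hA]
    refine Finset.mem_union_right _ ?_
    rw [hs3, Finset.mem_filter]
    exact ⟨Finset.mem_univ _, ha⟩

end Pool.MP_65847d_pr
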