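import Pool.Agent.Lib.MP_65847d_pr.C.LowCol
import Pool.Agent.Lib.MP_65847d_pr.C.HighCol

/-!
# C/LColour : a surjective homomorphism from a fixed point of the messages and a stable vector
-/

set_option autoImplicit false

open Finset

namespace Pool.MP_65847d_pr

variable {N V : Type*} [Fintype N] [DecidableEq N] [Fintype V] [DecidableEq V]

theorem surjHom_of_fixed {E : V → V → Prop} (hE : ∀ a b, E a b → E b a) {α β : ℝ} (hα : 0 < α)
    (hαβ : α < β) (hβ1 : β < 1) (hβ : Irrational β) {G : SimpleGraph N} {R : V → N}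
    (hR : Function.Injective R) (hRR : ∀ x y, ¬ G.Adj (R x) (R y))
    {M : N → N → ℝ} (hM : Fixed β G R M) {W : V → ℝ} (hS : Stable E α W) :
    SurjHom E G := by
  classical
  obtain ⟨φ, hφ⟩ := low_colouring hE hα hαβ hβ1 hβ hM hS
  have hhigh : ∀ u, ∃ c : V, (∀ x, R x ≠ u) → 0 < tot β G R M u →
      ((α + β) / 2 ≤ W c ∧ (∀ x ∈ lab G R u, E c x) ∧
      (∀ v ∈ nbr G R u, tot β G R M v < 0 → E c (φ v)) ∧
        ∀ a, (α + β) / 2 ≤ W a → E c a) := by
    intro u
    by_cases h : (∀ x, R x ≠ u) ∧ 0 < tot β G R M u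
    · obtain ⟨c, hc⟩ := high_colour hα hαβ hβ1 hβ hM hS φ (fun v hv hneg => (hφ v hv hneg).1)
        u h.1 h.2
      exact ⟨c, fun _ _ => hc⟩
    · exact ⟨φ u, fun h1 h2 => absurd ⟨h1, h2⟩ h⟩
  choose c hc using hhigh
  let Φ : N → V := fun u => if h : ∃ x, R x = u then h.choose else
    if 0 < tot β G R M u then c u else φ u
  have hΦR : ∀ x, Φ (R x) = x := by
    intro x
    have h : ∃ x', R x' = R x := ⟨x, rfl⟩
    have : Φ (R x) = h.choose := dif_pos h
    rw [this]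
    exact hR h.choose_spec
  have hΦhigh : ∀ u, (∀ x, R x ≠ u) → 0 < tot β G R M u → Φ u = c u := by
    intro u hu h
    have h' : ¬ ∃ x, R x = u := fun ⟨x, hx⟩ => hu x hx
    show (if h : ∃ x, R x = u then h.choose else _) = _
    rw [dif_neg h', if_pos h]
  have hΦlow : ∀ u, (∀ x, R x ≠ u) → tot β G R M u < 0 → Φ u = φ u := by
    intro u hu h
    have h' : ¬ ∃ x, R x = u := fun ⟨x, hx⟩ => hu x hx
    show (if h : ∃ x, R x = u then h.choose else _) = _
    rw [dif_neg h', if_neg (not_lt.mpr h.le)]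
  have hlab : ∀ u, (∀ x, R x ≠ u) → ∀ x, G.Adj u (R x) → E (Φ u) x := by
    intro u hu x hux
    have hx : x ∈ lab G R u := mem_filter.mpr ⟨mem_univ _, hux⟩
    rcases lt_or_gt_of_ne (tot_ne_zero hβ hM hu) with h | h
    · rw [hΦlow u hu h]
      exact (hφ u hu h).2.1 x hx
    · rw [hΦhigh u hu h]
      exact (hc u hu h).2.1 x hx
  have hnn : ∀ u v, (∀ x, R x ≠ u) → (∀ x, R x ≠ v) → G.Adj u v → 0 < tot β G R M u →
      E (Φ u) (Φ v) := by
    intro u v hu hv huv h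
    have hvn : v ∈ nbr G R u := mem_filter.mpr ⟨mem_univ _, huv, hv⟩
    rw [hΦhigh u hu h]
    rcases lt_or_gt_of_ne (tot_ne_zero hβ hM hv) with h' | h'
    · rw [hΦlow v hv h']
      exact (hc u hu h).2.2.1 v hvn h'
    · rw [hΦhigh v hv h']
      exact (hc u hu h).2.2.2 _ (hc v hv h').1
  refine ⟨Φ, fun x => ⟨R x, hΦR x⟩, ?_⟩
  intro u v huv
  by_cases hu : ∃ x, R x = u
  · obtain ⟨x, rfl⟩ := hu
    by_cases hv : ∃ y, R y = v
    · obtain ⟨y, rfl⟩ := hv
      exact absurd huv (hRR x y)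
    · have hv' : ∀ y, R y ≠ v := fun y hy => hv ⟨y, hy⟩
      rw [hΦR]
      exact hE _ _ (hlab v hv' x huv.symm)
  · have hu' : ∀ y, R y ≠ u := fun y hy => hu ⟨y, hy⟩
    by_cases hv : ∃ y, R y = v
    · obtain ⟨y, rfl⟩ := hv
      rw [hΦR]
      exact hlab u hu' y huv
    · have hv' : ∀ y, R y ≠ v := fun y hy => hv ⟨y, hy⟩
      rcases lt_or_gt_of_ne (tot_ne_zero hβ hM hu') with h | h
      · rcases lt_or_gt_of_ne (tot_ne_zero hβ hM hv') with h' | h'
        · rw [hΦlow u hu' h, hΦlow v hv' h']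
          exact (hφ u hu' h).2.2 v (mem_filter.mpr ⟨mem_univ _, huv, hv'⟩) h'
        · exact hE _ _ (hnn v u hv' hu' huv.symm h')
      · exact hnn u v hu' hv' huv h

end Pool.MP_65847d_pr
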