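import Pool.Agent.Lib.MP_65847d_pr.C.Defs

/-!
# Messages on the graph minus the roots (definitions for the lower bound)
-/

set_option autoImplicit false

open Finset

namespace Pool.MP_65847d_pr

section

variable {N V : Type*} [Fintype N] [DecidableEq N] [Fintype V] [DecidableEq V]

open Classical in
/-- the labels of `y`: the indices of the roots adjacent to `y` -/
noncomputable def lab (G : SimpleGraph N) (R : V → N) (y : N) : Finset V :=
  univ.filter fun x => G.Adj y (R x)

open Classical in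
/-- the neighbours of `y` which are not roots -/
noncomputable def nbr (G : SimpleGraph N) (R : V → N) (y : N) : Finset N :=
  univ.filter fun z => G.Adj y z ∧ ∀ x, R x ≠ z

/-- vertex weight -/
noncomputable def cw (β : ℝ) (G : SimpleGraph N) (R : V → N) (y : N) : ℝ :=
  1 - β - β * (lab G R y).card

/-- the `k`-th message from `z` to `y` -/
noncomputable def msg (β : ℝ) (G : SimpleGraph N) (R : V → N) : ℕ → N → N → ℝ
  | 0, _, _ => 0
  | k + 1, z, y => min 0 (cw β G R z + ∑ t ∈ (nbr G R z).erase y, msg β G R k t z)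

open Classical in
/-- number of edges inside `Y` or between `Y` and the roots -/
noncomputable def eR (G : SimpleGraph N) (R : V → N) (Y : Finset N) : ℕ :=
  ((univ : Finset (Sym2 N)).filter fun e => e ∈ G.edgeSet ∧ ∀ a ∈ e, a ∈ Y).card +
    ∑ y ∈ Y, (lab G R y).card

/-- the sparsity condition: every nonempty set `Y` of at most `K` non-roots satisfies
`η |Y| ≤ |Y| - β e_R(Y)` -/
def Spa (β η : ℝ) (K : ℕ) (G : SimpleGraph N) (R : V → N) : Prop :=
  ∀ Y : Finset N, Y.Nonempty → (∀ a ∈ Y, ∀ x, R x ≠ a) → Y.card ≤ K →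
    η * Y.card ≤ Y.card - β * eR G R Y

/-- witness: multiplicities of vertices and edges of a tree which is immersed in `G` minus the roots -/
def Wit (G : SimpleGraph N) (R : V → N) (μ : N → ℕ) (ν : Sym2 N → ℕ) : Prop :=
  (∀ a, μ a ≠ 0 → ∀ x, R x ≠ a) ∧ 1 ≤ ∑ a, μ a ∧ ∑ e, ν e + 1 = ∑ a, μ a ∧
    (∀ a b, ν s(a, b) ≠ 0 → G.Adj a b) ∧ ∀ a b, ν s(a, b) ≤ μ a

/-- the weight of a witness -/
noncomputable def vl (β : ℝ) (G : SimpleGraph N) (R : V → N) (μ : N → ℕ) : ℝ :=
  ∑ a, (μ a : ℝ) * cw β G R a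

/-- the total of all messages to `z` -/
noncomputable def tot (β : ℝ) (G : SimpleGraph N) (R : V → N) (M : N → N → ℝ) (z : N) : ℝ :=
  cw β G R z + ∑ t ∈ nbr G R z, M t z

/-- `M` is a fixed point of the message equations, all partial sums have the form `a - β b` with
`a ≥ 1`, and all totals are more than `-β` -/
structure Fixed (β : ℝ) (G : SimpleGraph N) (R : V → N) (M : N → N → ℝ) : Prop where
  fix : ∀ z, (∀ x, R x ≠ z) → ∀ y,
    M z y = min 0 (cw β G R z + ∑ t ∈ (nbr G R z).erase y, M t z)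
  gen : ∀ z, (∀ x, R x ≠ z) → ∀ T ⊆ nbr G R z, ∃ a b : ℕ, 1 ≤ a ∧
    cw β G R z + ∑ t ∈ T, M t z = a - β * b
  pos : ∀ z, (∀ x, R x ≠ z) → 0 < β + tot β G R M z

end

end Pool.MP_65847d_pr
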