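import Pool.Agent.Lib.MP_65847d_pr.C.LDefs

/-!
# C/Layer : layer cake bound for the weight of a witness

Proof. Write `s = ∑ μ a` (so `∑ ν e = s - 1`) and `Y t = {a | t ≤ μ a}` for `1 ≤ t ≤ K`. All `Y t` consist of
non-roots (first part of `Wit`) and have at most `s ≤ K` elements. As `cw a = 1 - β - β |lab a|`,
`β + vl μ = β + s - β s - β ∑ μ a |lab a| = s - β ∑ e, ν e - β ∑ a, μ a |lab a|`.
Layer cake: `s = ∑_t |Y t|`, `∑ a, μ a |lab a| = ∑_t ∑_{a ∈ Y t} |lab a|`, and
`∑ e, ν e ≤ ∑_t #{e ∈ edges, all ends of e in Y t}`, because for `e = s(a,b)` with `ν e ≠ 0` we have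
`G.Adj a b` and `ν e ≤ min (μ a) (μ b)` (use symmetry `s(a,b) = s(b,a)`), so `e` is counted for every
`1 ≤ t ≤ ν e`. Hence `β + vl μ ≥ ∑_t (|Y t| - β eR (Y t)) ≥ ∑_t η |Y t| = η s` (the sum over the `t ≤ K` with `Y t`
nonempty; for empty `Y t` both sides are `0`). Suggestion: write `μ a = ∑ t ∈ Icc 1 K, if t ≤ μ a then 1 else 0`.
-/

set_option autoImplicit false

open Finset

namespace Pool.MP_65847d_pr

variable {N V : Type*} [Fintype N] [DecidableEq N] [Fintype V] [DecidableEq V]

private theorem layer_mu {m K : ℕ} (h : m ≤ K) :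
    ((Icc 1 K).filter fun t => t ≤ m).card = m := by
  have h1 : (Icc 1 K).filter (fun t => t ≤ m) = Icc 1 m := by
    ext t
    simp only [mem_filter, mem_Icc]
    omega
  rw [h1, Nat.card_Icc]
  omega

omit [DecidableEq V] in
private theorem layer_empty (G : SimpleGraph N) (R : V → N) : eR G R ∅ = 0 := by
  classical
  unfold eR
  rw [sum_empty, add_zero, card_eq_zero, filter_eq_empty_iff]
  intro e _ h
  induction e using Sym2.ind with
  | _ a b => exact notMem_empty a (h.2 a (Sym2.mem_mk_left a b))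

theorem layer (G : SimpleGraph N) (R : V → N) {β η : ℝ} (hβ : 0 ≤ β) {K : ℕ}
    (hspa : Spa β η K G R) {μ : N → ℕ} {ν : Sym2 N → ℕ} (hw : Wit G R μ ν)
    (hK : ∑ a, μ a ≤ K) : η * ((∑ a, μ a : ℕ) : ℝ) ≤ β + vl β G R μ := by
  classical
  obtain ⟨hroot, -, hsum, hadj, hle⟩ := hw
  have hμK : ∀ a, μ a ≤ K := fun a =>
    (single_le_sum (f := μ) (fun i _ => Nat.zero_le _) (mem_univ a)).trans hK
  set Y : ℕ → Finset N := fun t => univ.filter fun a => t ≤ μ a with hY
  have hmem : ∀ t a, a ∈ Y t ↔ t ≤ μ a := by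
    intro t a
    rw [hY]
    simp
  -- layer cake for vertex sums
  have hcake : ∀ l : N → ℕ, ∑ t ∈ Icc 1 K, ∑ a ∈ Y t, l a = ∑ a, μ a * l a := by
    intro l
    have h1 : ∀ t, ∑ a ∈ Y t, l a = ∑ a, if t ≤ μ a then l a else 0 := by
      intro t
      rw [hY, sum_filter]
    rw [sum_congr rfl (fun t _ => h1 t), sum_comm]
    apply sum_congr rfl
    intro a _
    rw [← sum_filter, sum_const, layer_mu (hμK a), smul_eq_mul]
  have hcard : ∑ t ∈ Icc 1 K, (Y t).card = ∑ a, μ a := by
    have h1 := hcake (fun _ => 1)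
    simpa using h1
  -- edges
  have hedge : ∑ e, ν e ≤ ∑ t ∈ Icc 1 K,
      ((univ : Finset (Sym2 N)).filter fun e => e ∈ G.edgeSet ∧ ∀ a ∈ e, a ∈ Y t).card := by
    simp_rw [card_filter]
    rw [sum_comm]
    apply sum_le_sum
    intro e _
    rw [← card_filter]
    induction e using Sym2.ind with
    | _ a b =>
      by_cases h0 : ν s(a, b) = 0
      · rw [h0]
        exact Nat.zero_le _
      · have hab := hadj a b h0
        have h1 := hle a b
        have h2 : ν s(a, b) ≤ μ b := by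
          rw [Sym2.eq_swap]
          exact hle b a
        calc ν s(a, b) = (Icc 1 (ν s(a, b))).card := by rw [Nat.card_Icc]; omega
          _ ≤ _ := by
              apply card_le_card
              intro t ht
              rw [mem_Icc] at ht
              rw [mem_filter, mem_Icc]
              have := hμK a
              refine ⟨⟨ht.1, by omega⟩, hab, ?_⟩
              intro c hc
              rw [Sym2.mem_iff] at hc
              rw [hmem]
              rcases hc with rfl | rfl <;> omega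
  have hER : ∑ e, ν e + ∑ a, μ a * (lab G R a).card ≤ ∑ t ∈ Icc 1 K, eR G R (Y t) := by
    have h1 : ∑ t ∈ Icc 1 K, eR G R (Y t) = ∑ t ∈ Icc 1 K,
        ((univ : Finset (Sym2 N)).filter fun e => e ∈ G.edgeSet ∧ ∀ a ∈ e, a ∈ Y t).card +
        ∑ t ∈ Icc 1 K, ∑ a ∈ Y t, (lab G R a).card := by
      rw [← sum_add_distrib]
      apply sum_congr rfl
      intro t _
      unfold eR
      congr 2
    rw [h1, hcake]
    omega
  -- sparsity for every layer
  have hlay : ∀ t ∈ Icc 1 K, η * ((Y t).card : ℝ) ≤ (Y t).card - β * eR G R (Y t) := by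
    intro t ht
    rw [mem_Icc] at ht
    rcases (Y t).eq_empty_or_nonempty with h | h
    · rw [h, layer_empty]
      simp
    · apply hspa (Y t) h
      · intro a ha
        rw [hmem] at ha
        exact hroot a (by omega)
      · calc (Y t).card = ∑ a ∈ Y t, 1 := by simp
          _ ≤ ∑ a ∈ Y t, μ a := by
              apply sum_le_sum
              intro a ha
              rw [hmem] at ha
              omega
          _ ≤ ∑ a, μ a := sum_le_sum_of_subset (subset_univ _)
          _ ≤ K := hK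
  have htot := sum_le_sum hlay
  rw [← mul_sum, sum_sub_distrib, ← mul_sum, ← Nat.cast_sum, ← Nat.cast_sum, hcard] at htot
  refine htot.trans ?_
  have hER' : ((∑ e, ν e + ∑ a, μ a * (lab G R a).card : ℕ) : ℝ) ≤
      ((∑ t ∈ Icc 1 K, eR G R (Y t) : ℕ) : ℝ) := by exact_mod_cast hER
  have h1 := mul_le_mul_of_nonneg_left hER' hβ
  have hsum' : ((∑ e, ν e : ℕ) : ℝ) = ((∑ a, μ a : ℕ) : ℝ) - 1 := by
    have : ((∑ e, ν e + 1 : ℕ) : ℝ) = ((∑ a, μ a : ℕ) : ℝ) := by exact_mod_cast hsum
    push_cast at this ⊢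
    linarith
  have hvl : vl β G R μ = (1 - β) * ((∑ a, μ a : ℕ) : ℝ) -
      β * ((∑ a, μ a * (lab G R a).card : ℕ) : ℝ) := by
    unfold vl cw
    push_cast
    rw [mul_sum, mul_sum, ← sum_sub_distrib]
    apply sum_congr rfl
    intro a _
    ring
  rw [hvl]
  rw [Nat.cast_add, hsum'] at h1
  linarith

end Pool.MP_65847d_pr
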