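import Pool.Agent.Lib.MP_65847d_pr.C.RichLow
import Pool.Agent.Lib.MP_65847d_pr.C.Acyc
import Pool.Agent.Lib.MP_65847d_pr.C.Transport

/-!
# C/LowCol : colouring all non-roots with negative total

Proof. Claim: for every finite set `s` of negative reals there is `φ : N → V` such that for all non-roots `u` with
`tot u ∈ s`: `β + tot u ≤ W (φ u)`, `E (φ u) x` for `x ∈ lab u`, `E (φ u) (φ v)` for all `v ∈ nbr u` with `tot v ∈ s`.
Induction with `Finset.induction_on_max`: `insert a s`, all elements of `s` are `< a`. Given `φ` for `s`, let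
`L = {u non-root, tot u = a}`, `K = G.induce L` (acyclic by `level_acyclic`), `A u` as in `rich_low`. If `L` is empty, `φ` works.
Otherwise `0 ≤ β + a` (`Fixed.pos`), so `Stable.colours` gives `ψ : L → V`; put `φ' u = ψ u` on `L`, `φ u` else.
Edges inside `L`: homomorphism; edge from `u ∈ L` to `v` with `tot v ∈ s`: `φ v ∈ A u`; use the symmetry of `E` for the other
direction. (`V` is nonempty since `Stable` with `w = 0`, `k = 1`... or simply: if there is a non-root then ... ; if
`N` is empty nothing to do. For the base case `s = ∅` one needs some `φ : N → V`: if `N` is nonempty and `V` empty, the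
hypothesis `Stable` fails: take `w = 0`, `k = 1`, `K = ⊥`, `A = ∅`, weight `1 > 0`, so a colour exists.)
Apply the claim to `s` = the set of all negative totals (image of `univ`, filtered).
-/

set_option autoImplicit false

open Finset

namespace Pool.MP_65847d_pr

variable {N V : Type*} [Fintype N] [DecidableEq N] [Fintype V] [DecidableEq V]

private theorem LC_nonempty {E : V → V → Prop} {α : ℝ} (hα : 0 < α) (hα1 : α < 1) {W : V → ℝ}
    (hS : Stable E α W) : Nonempty V := by
  have hR : Rich α W 0 (⊥ : SimpleGraph (Fin 1)) (fun _ => (∅ : Finset V)) := by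
    intro U _
    have h1 : wgt α W 0 (fun _ : Fin 1 => (∅ : Finset V)) U = α + ∑ y ∈ U, (1 - α) := by
      unfold wgt
      simp
    rw [h1]
    have h2 : 0 ≤ ∑ y ∈ U, (1 - α) := Finset.sum_nonneg fun _ _ => by linarith
    linarith
  obtain ⟨φ, -⟩ := hS.2 0 le_rfl 1 ⊥ (fun _ => ∅) SimpleGraph.isAcyclic_bot hR
  exact ⟨φ 0⟩

open Classical in
private theorem LC_claim {E : V → V → Prop} (hE : ∀ a b, E a b → E b a) {α β : ℝ} (hα : 0 < α)
    (hαβ : α < β) (hβ1 : β < 1) (hβ : Irrational β) {G : SimpleGraph N} {R : V → N}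
    {M : N → N → ℝ} (hM : Fixed β G R M) {W : V → ℝ} (hS : Stable E α W) (s : Finset ℝ) :
    (∀ x ∈ s, x < 0) → ∃ φ : N → V, ∀ u, (∀ x, R x ≠ u) → tot β G R M u ∈ s →
      β + tot β G R M u ≤ W (φ u) ∧ (∀ x ∈ lab G R u, E (φ u) x) ∧
      ∀ v ∈ nbr G R u, tot β G R M v ∈ s → E (φ u) (φ v) := by
  induction s using Finset.induction_on_max with
  | empty =>
    intro _
    obtain ⟨c⟩ := LC_nonempty hα (hαβ.trans hβ1) hS
    exact ⟨fun _ => c, fun u _ h => absurd h (Finset.notMem_empty _)⟩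
  | insert a s hs ih =>
    intro hneg
    obtain ⟨φ, hφ⟩ := ih fun x hx => hneg x (Finset.mem_insert_of_mem hx)
    have ha : a < 0 := hneg a (Finset.mem_insert_self a s)
    by_cases hL : ∃ u : N, (∀ x, R x ≠ u) ∧ tot β G R M u = a
    · obtain ⟨u0, hu0, hu0a⟩ := hL
      have hpos : 0 < β + a := by
        have := hM.pos u0 hu0
        rwa [hu0a] at this
      have hrich := rich_low hα hαβ hβ1 hβ hM hS.1 ha s hs φ (fun v hv hvs => (hφ v hv hvs).1)
      have hac := level_acyclic hβ hM ha {u : N | (∀ x, R x ≠ u) ∧ tot β G R M u = a}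
        (fun u hu => hu)
      have := Fintype.ofFinite ({u : N | (∀ x, R x ≠ u) ∧ tot β G R M u = a} : Set N)
      obtain ⟨ψ, hψ1, hψ2, hψ3⟩ := hS.colours hpos.le _ _ hac hrich
      refine ⟨fun u => if h : (∀ x, R x ≠ u) ∧ tot β G R M u = a then ψ ⟨u, h⟩ else φ u, ?_⟩
      intro u hu hus
      have hnot : ∀ v, tot β G R M v ∈ s → ¬ ((∀ x, R x ≠ v) ∧ tot β G R M v = a) := by
        intro v hv h
        have := hs _ hv
        rw [h.2] at this
        exact lt_irrefl a this
      have hnbr : ∀ {u v}, v ∈ nbr G R u → G.Adj u v ∧ ∀ x, R x ≠ v := by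
        intro u v h
        simpa [nbr] using h
      rcases Finset.mem_insert.1 hus with h1 | h1
      · have hu' : (∀ x, R x ≠ u) ∧ tot β G R M u = a := ⟨hu, h1⟩
        have e1 : (if h : (∀ x, R x ≠ u) ∧ tot β G R M u = a then ψ ⟨u, h⟩ else φ u) =
            ψ ⟨u, hu'⟩ := dif_pos hu'
        simp only [e1]
        refine ⟨by rw [h1]; exact hψ2 _, fun x hx => hψ3 ⟨u, hu'⟩ x (Finset.mem_union_left _ hx),
          fun v hv hvs => ?_⟩
        rcases Finset.mem_insert.1 hvs with h2 | h2
        · have hv' : (∀ x, R x ≠ v) ∧ tot β G R M v = a := ⟨(hnbr hv).2, h2⟩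
          rw [dif_pos hv']
          exact hψ1 ⟨u, hu'⟩ ⟨v, hv'⟩ (hnbr hv).1
        · rw [dif_neg (hnot v h2)]
          exact hψ3 ⟨u, hu'⟩ (φ v) (Finset.mem_union_right _ (Finset.mem_image_of_mem φ
            (Finset.mem_filter.2 ⟨hv, h2⟩)))
      · have e1 : (if h : (∀ x, R x ≠ u) ∧ tot β G R M u = a then ψ ⟨u, h⟩ else φ u) =
            φ u := dif_neg (hnot u h1)
        simp only [e1]
        obtain ⟨g1, g2, g3⟩ := hφ u hu h1
        refine ⟨g1, g2, fun v hv hvs => ?_⟩
        rcases Finset.mem_insert.1 hvs with h2 | h2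
        · have hv' : (∀ x, R x ≠ v) ∧ tot β G R M v = a := ⟨(hnbr hv).2, h2⟩
          rw [dif_pos hv']
          refine hE _ _ (hψ3 ⟨v, hv'⟩ (φ u) (Finset.mem_union_right _ (Finset.mem_image_of_mem φ
            (Finset.mem_filter.2 ⟨?_, h1⟩))))
          simp only [nbr, Finset.mem_filter, Finset.mem_univ, true_and]
          exact ⟨(hnbr hv).1.symm, hu⟩
        · rw [dif_neg (hnot v h2)]
          exact g3 v hv h2
    · refine ⟨φ, fun u hu hus => ?_⟩
      have hne : ∀ v, (∀ x, R x ≠ v) → tot β G R M v ∈ insert a s → tot β G R M v ∈ s := by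
        intro v hv h
        rcases Finset.mem_insert.1 h with h | h
        · exact absurd ⟨v, hv, h⟩ hL
        · exact h
      obtain ⟨g1, g2, g3⟩ := hφ u hu (hne u hu hus)
      refine ⟨g1, g2, fun v hv hvs => g3 v hv (hne v ?_ hvs)⟩
      simp only [nbr, Finset.mem_filter, Finset.mem_univ, true_and] at hv
      exact hv.2

theorem low_colouring {E : V → V → Prop} (hE : ∀ a b, E a b → E b a) {α β : ℝ} (hα : 0 < α)
    (hαβ : α < β) (hβ1 : β < 1) (hβ : Irrational β) {G : SimpleGraph N} {R : V → N}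
    {M : N → N → ℝ} (hM : Fixed β G R M) {W : V → ℝ} (hS : Stable E α W) :
    ∃ φ : N → V, ∀ u, (∀ x, R x ≠ u) → tot β G R M u < 0 →
      β + tot β G R M u ≤ W (φ u) ∧ (∀ x ∈ lab G R u, E (φ u) x) ∧
      ∀ v ∈ nbr G R u, tot β G R M v < 0 → E (φ u) (φ v) := by
  classical
  obtain ⟨φ, hφ⟩ := LC_claim hE hα hαβ hβ1 hβ hM hS
    (((Finset.univ : Finset N).image fun u => tot β G R M u).filter fun x => x < 0)
    (fun x hx => (Finset.mem_filter.1 hx).2)
  have hmem : ∀ u, tot β G R M u < 0 → tot β G R M u ∈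
      ((Finset.univ : Finset N).image fun u => tot β G R M u).filter fun x => x < 0 := by
    intro u hu
    exact Finset.mem_filter.2 ⟨Finset.mem_image_of_mem _ (Finset.mem_univ u), hu⟩
  refine ⟨φ, fun u hu hu0 => ?_⟩
  obtain ⟨g1, g2, g3⟩ := hφ u hu (hmem u hu0)
  exact ⟨g1, g2, fun v hv hv0 => g3 v hv (hmem v hv0)⟩

end Pool.MP_65847d_pr
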