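import Pool.Agent.Lib.MP_65847d_pr.C.MsgFix
import Pool.Agent.Lib.MP_65847d_pr.C.LColour
import Pool.Agent.Lib.MP_65847d_pr.C.FMAsymp
import Pool.Agent.Lib.MP_65847d_pr.Radial

/-!
# C/Lower : a stable vector at `α` gives surjective homomorphisms at `n ^ (-α')`, `α' > α`
-/

set_option autoImplicit false

open Finset Filter Topology

namespace Pool.MP_65847d_pr

open Pool.MP_1bacea_co

theorem lower_coarse {V : Type*} [Finite V] {E : V → V → Prop} (hE : ∀ a b, E a b → E b a)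
    {α α' : ℝ} (hα : 0 < α) (hα1 : α < 1) {W : V → ℝ} (hS : Stable E α W) (hα' : α < α')
    (p : ℕ → unitInterval) (hp : ∀ᶠ n : ℕ in atTop, (p n : ℝ) ≤ (n : ℝ) ^ (-α')) :
    Tendsto (fun n => prob (fun _ => SurjHom E) n (p n)) atTop (𝓝 1) := by
  classical
  have := Fintype.ofFinite V
  -- reduce to `α' < 1`
  obtain ⟨α'', h1, h2, h3⟩ : ∃ α'', α < α'' ∧ α'' < 1 ∧ α'' ≤ α' := by
    refine ⟨min α' ((1 + α) / 2), ?_, ?_, min_le_left _ _⟩
    · exact lt_min hα' (by linarith)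
    · exact lt_of_le_of_lt (min_le_right _ _) (by linarith)
  obtain ⟨β, hβ, hβ1, hβ2⟩ := exists_irrational_btwn h1
  obtain ⟨α2, hα21, hα22⟩ := exists_between hβ2
  have hβ0 : 0 < β := hα.trans hβ1
  have hα20 : 0 < α2 := hβ0.trans hα21
  set η : ℝ := 1 - β / α2 with hη
  have hη0 : 0 < η := by
    have : β / α2 < 1 := by rwa [div_lt_one hα20]
    linarith
  obtain ⟨K0, hK0⟩ := exists_nat_ge (1 / η)
  have hK0' : 1 ≤ η * K0 := by
    rw [div_le_iff₀ hη0] at hK0
    linarith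
  obtain ⟨f, hf, hbound⟩ := sparse_asymp (V := V) (2 * K0 + 2) hα20 hα22
  have key : ∀ᶠ n : ℕ in atTop, Pr (p n : ℝ)
      (fun ω : Sym2 (Fin n) → Bool => ¬ SurjHom E (Gr ω)) ≤ f n := by
    filter_upwards [hp, eventually_ge_atTop (Fintype.card V), eventually_ge_atTop 1]
      with n hn hnV hn1
    have hinj : ∃ R : V → Fin n, Function.Injective R := by
      refine ⟨fun x => Fin.castLE hnV (Fintype.equivFin V x), ?_⟩
      intro x y hxy
      have := Fin.castLE_injective hnV hxy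
      exact (Fintype.equivFin V).injective this
    obtain ⟨R, hR⟩ := hinj
    have hpn : (p n : ℝ) ≤ (n : ℝ) ^ (-α'') := by
      refine hn.trans ?_
      apply Real.rpow_le_rpow_of_exponent_le
      · exact_mod_cast hn1
      · linarith
    refine le_trans (Pr_mono (p n).2.1 (p n).2.2 fun ω hω => ?_)
      (hbound n R hR (p n : ℝ) (p n).2.1 (p n).2.2 hpn)
    rintro ⟨hRR, hsp⟩
    apply hω
    have hspa : Spa β η (2 * K0 + 2) (Gr ω) R := by
      intro Y hY hYR hYK
      have h := hsp Y hY hYR hYK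
      have h5 : β * (eR (Gr ω) R Y : ℝ) = (β / α2) * (α2 * (eR (Gr ω) R Y : ℝ)) := by
        field_simp
      have h6 : (β / α2) * (α2 * (eR (Gr ω) R Y : ℝ)) ≤ (β / α2) * Y.card :=
        mul_le_mul_of_nonneg_left h.le (by positivity)
      rw [hη, h5]
      linarith
    obtain ⟨M, hM⟩ := exists_fixed (Gr ω) R hβ0 hη0 hK0' hspa
    exact surjHom_of_fixed hE hα hβ1 (hβ2.trans h2) hβ hR hRR hM hS
  have hlim : Tendsto (fun n => Pr (p n : ℝ)
      (fun ω : Sym2 (Fin n) → Bool => ¬ SurjHom E (Gr ω))) atTop (𝓝 0) :=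
    squeeze_zero' (Eventually.of_forall fun n => Pr_nonneg (p n).2.1 (p n).2.2 _) key hf
  refine tendsto_one_of_fail (fun n => ?_) hlim
  rw [prob_eq_Pr, Pr_not]
  ring

end Pool.MP_65847d_pr
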