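import Pool.Agent.Lib.MP_65847d_pr.C.SumWit

/-!
# C/MsgFix : the messages become stationary

Proof. (1) `msg (k+1) z y ≤ msg k z y` for all `z, y` (induction on `k`). (2) For a non-root `z`, `msg k z y` is `0` or
`cw z + ∑_{t ∈ (nbr z).erase y} msg (k-1) t z`, which by `sum_wit` is `vl μ` for some `μ : N → ℕ` with
`∑ μ ≤ K0`; the set of such `μ` is finite (each `μ a ≤ K0`), so `msg · z y` is an antitone sequence with values in a finite
set, hence eventually constant. (3) Take `k` beyond which all (finitely many) pairs `z` (non-root), `y` are constant,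
and `M = msg k` : `fix` holds as `msg (k+1) z y = msg k z y`. `gen`: `sum_wit` gives
`cw z + ∑_{t ∈ T} M t z = vl μ = ∑ μ a (1 - β - β |lab a|) = a - β b` with `a = ∑ μ ≥ 1`,
`b = ∑ μ a (1 + |lab a|)`. `pos`: `tot = vl μ` for the `μ` of `T = nbr z`, and `layer` gives
`0 < η ≤ η ∑ μ ≤ β + vl μ` (note `∑ μ ≤ K0 ≤ 2 K0 + 2`).
-/

set_option autoImplicit false

open Finset

namespace Pool.MP_65847d_pr

variable {N V : Type*} [Fintype N] [DecidableEq N] [Fintype V] [DecidableEq V]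

private theorem MF_succ_le (β : ℝ) (G : SimpleGraph N) (R : V → N) (k : ℕ) :
    ∀ z y, msg β G R (k + 1) z y ≤ msg β G R k z y := by
  induction k with
  | zero =>
    intro z y
    exact min_le_left _ _
  | succ k ih =>
    intro z y
    show min 0 (cw β G R z + ∑ t ∈ (nbr G R z).erase y, msg β G R (k + 1) t z) ≤
      min 0 (cw β G R z + ∑ t ∈ (nbr G R z).erase y, msg β G R k t z)
    exact min_le_min_left _ (by
      have := Finset.sum_le_sum (s := (nbr G R z).erase y) fun t _ => ih t z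
      linarith)

private theorem MF_eventually (f : ℕ → ℝ) (hf : ∀ k, f (k + 1) ≤ f k) (S : Set ℝ) (hS : S.Finite)
    (hfS : ∀ k, f k ∈ S) : ∃ k0, ∀ k, k0 ≤ k → f k = f k0 := by
  have h1 : (Set.range f).Finite := hS.subset (by rintro _ ⟨k, rfl⟩; exact hfS k)
  obtain ⟨a, ⟨k0, rfl⟩, hmin⟩ := Set.exists_min_image (Set.range f) id h1 ⟨f 0, 0, rfl⟩
  refine ⟨k0, fun k hk => le_antisymm ?_ (hmin (f k) ⟨k, rfl⟩)⟩
  exact antitone_nat_of_succ_le hf hk

theorem exists_fixed (G : SimpleGraph N) (R : V → N) {β η : ℝ} (hβ0 : 0 < β) (hη : 0 < η)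
    {K0 : ℕ} (hK0 : 1 ≤ η * K0) (hspa : Spa β η (2 * K0 + 2) G R) :
    ∃ M : N → N → ℝ, Fixed β G R M := by
  have hS : ({0} ∪ (vl β G R) '' {μ : N → ℕ | ∀ a, μ a ≤ K0} : Set ℝ).Finite := by
    refine (Set.finite_singleton 0).union (Set.Finite.image _ ?_)
    have : {μ : N → ℕ | ∀ a, μ a ≤ K0} = Set.pi Set.univ (fun _ => Set.Iic K0) := by
      ext μ
      exact ⟨fun h a _ => h a, fun h a => h a (Set.mem_univ a)⟩
    rw [this]
    exact Set.Finite.pi fun _ => Set.finite_Iic _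
  have hval : ∀ z, (∀ x, R x ≠ z) → ∀ y k, msg β G R k z y ∈
      ({0} ∪ (vl β G R) '' {μ : N → ℕ | ∀ a, μ a ≤ K0} : Set ℝ) := by
    intro z hz y k
    cases k with
    | zero => exact Or.inl rfl
    | succ k =>
      obtain ⟨μ, ν, hw, hle, hvl, -⟩ := sum_wit G R hβ0 hη hK0 hspa k z hz ((nbr G R z).erase y)
        (Finset.erase_subset _ _)
      have h1 : msg β G R (k + 1) z y = min 0 (vl β G R μ) := by
        rw [hvl]
        rfl
      rw [h1]
      rcases min_choice 0 (vl β G R μ) with h | h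
      · rw [h]; exact Or.inl rfl
      · rw [h]
        exact Or.inr ⟨μ, fun a =>
          (Finset.single_le_sum (f := μ) (fun _ _ => Nat.zero_le _) (Finset.mem_univ a)).trans hle,
          rfl⟩
  have hk : ∀ z y, ∃ k0, (∀ x, R x ≠ z) → ∀ k, k0 ≤ k → msg β G R k z y = msg β G R k0 z y := by
    intro z y
    by_cases hz : ∀ x, R x ≠ z
    · obtain ⟨k0, h⟩ := MF_eventually (fun k => msg β G R k z y) (fun k => MF_succ_le β G R k z y)
        _ hS (hval z hz y)
      exact ⟨k0, fun _ => h⟩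
    · exact ⟨0, fun h => absurd h hz⟩
  choose k0 hk0 using hk
  obtain ⟨K, hK⟩ : ∃ K : ℕ, ∀ z y, k0 z y ≤ K := by
    refine ⟨∑ z, ∑ y, k0 z y, fun z y => ?_⟩
    exact (Finset.single_le_sum (f := fun y => k0 z y) (fun _ _ => Nat.zero_le _)
      (Finset.mem_univ y)).trans
      (Finset.single_le_sum (f := fun z => ∑ y, k0 z y) (fun _ _ => Nat.zero_le _)
        (Finset.mem_univ z))
  refine ⟨msg β G R K, ?_, ?_, ?_⟩
  · intro z hz y
    have h1 : msg β G R K z y = msg β G R (K + 1) z y := by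
      rw [hk0 z y hz K (hK z y), hk0 z y hz (K + 1) ((hK z y).trans (Nat.le_succ K))]
    rw [h1]
    rfl
  · intro z hz T hT
    obtain ⟨μ, ν, hw, hle, hvl, -⟩ := sum_wit G R hβ0 hη hK0 hspa K z hz T hT
    refine ⟨∑ a, μ a, ∑ a, μ a * (1 + (lab G R a).card), hw.2.1, ?_⟩
    rw [← hvl]
    unfold vl cw
    push_cast
    rw [Finset.mul_sum, ← Finset.sum_sub_distrib]
    exact Finset.sum_congr rfl fun a _ => by ring
  · intro z hz
    obtain ⟨μ, ν, hw, hle, hvl, -⟩ := sum_wit G R hβ0 hη hK0 hspa K z hz (nbr G R z)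
      (Finset.Subset.refl _)
    have h1 := layer G R hβ0.le hspa hw (hle.trans (by omega))
    have h2 : (1 : ℝ) ≤ ((∑ a, μ a : ℕ) : ℝ) := by exact_mod_cast hw.2.1
    have h3 : η * 1 ≤ η * ((∑ a, μ a : ℕ) : ℝ) := mul_le_mul_of_nonneg_left h2 hη.le
    rw [hvl] at h1
    unfold tot
    linarith

end Pool.MP_65847d_pr
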