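import Pool.Agent.Lib.MP_65847d_pr.C.Types

/-!
# C/RichLow : a negative level satisfies the weight condition
-/

set_option autoImplicit false

open Finset

namespace Pool.MP_65847d_pr

variable {N V : Type*} [Fintype N] [DecidableEq N] [Fintype V] [DecidableEq V]

set_option linter.unusedSectionVars false

private lemma rl_kap_nonneg (α : ℝ) (W : V → ℝ) (w : ℝ) (c : V) : 0 ≤ kap α W w c :=
  le_max_left _ _

private lemma rl_kap_le {α : ℝ} (hα : 0 < α) {W : V → ℝ} {w : ℝ} (hw : 0 ≤ w) (c : V)
    (hW : 0 ≤ W c) : kap α W w c ≤ α :=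
  max_le hα.le (by have := le_min hW hw; linarith)

private lemma rl_mem_nbr {G : SimpleGraph N} {R : V → N} {u v : N} :
    v ∈ nbr G R u ↔ G.Adj u v ∧ ∀ x, R x ≠ v := by
  classical
  simp [nbr]

open Classical in
private lemma rl_cost {α β : ℝ} (hα : 0 < α) (hαβ : α < β) (hβ : Irrational β)
    {G : SimpleGraph N} {R : V → N} {M : N → N → ℝ} (hM : Fixed β G R M) {W : V → ℝ}
    (hW : ∀ a, 0 ≤ W a ∧ W a ≤ 1) {a : ℝ} (ha : a < 0) (s : Finset ℝ) (hs : ∀ x ∈ s, x < a)
    (φ : N → V)
    (hφ : ∀ v, (∀ x, R x ≠ v) → tot β G R M v ∈ s → β + tot β G R M v ≤ W (φ v))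
    (u : N) (hu : ∀ x, R x ≠ u) (hua : tot β G R M u = a) :
    ∑ c ∈ lab G R u ∪ ((nbr G R u).filter fun v => tot β G R M v ∈ s).image φ,
        kap α W (β + a) c
      ≤ β * (lab G R u).card - ∑ v ∈ (nbr G R u).filter (fun v => tot β G R M v < a), M v u ∧
    ((lab G R u ∪ ((nbr G R u).filter fun v => tot β G R M v ∈ s).image φ).Nonempty →
      ∑ c ∈ lab G R u ∪ ((nbr G R u).filter fun v => tot β G R M v ∈ s).image φ,
        kap α W (β + a) c
      < β * (lab G R u).card -
        ∑ v ∈ (nbr G R u).filter (fun v => tot β G R M v < a), M v u) := by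
  have hw : 0 < β + a := by have := hM.pos u hu; rw [hua] at this; exact this
  -- bound of the union
  have h1 : ∑ c ∈ lab G R u ∪ ((nbr G R u).filter fun v => tot β G R M v ∈ s).image φ,
        kap α W (β + a) c ≤ ∑ c ∈ lab G R u, kap α W (β + a) c +
          ∑ c ∈ ((nbr G R u).filter fun v => tot β G R M v ∈ s).image φ, kap α W (β + a) c := by
    rw [← Finset.sum_union_inter]
    have := Finset.sum_nonneg (s := lab G R u ∩ ((nbr G R u).filter fun v => tot β G R M v ∈ s).image φ)
      (f := fun c => kap α W (β + a) c) (fun c _ => rl_kap_nonneg _ _ _ _)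
    linarith
  have h2 : ∑ c ∈ lab G R u, kap α W (β + a) c ≤ α * (lab G R u).card := by
    calc _ ≤ ∑ c ∈ lab G R u, α := Finset.sum_le_sum fun c _ => rl_kap_le hα hw.le c (hW c).1
      _ = _ := by rw [Finset.sum_const, nsmul_eq_mul, mul_comm]
  have h3 : ∑ c ∈ ((nbr G R u).filter fun v => tot β G R M v ∈ s).image φ, kap α W (β + a) c
      ≤ ∑ v ∈ (nbr G R u).filter (fun v => tot β G R M v ∈ s), kap α W (β + a) (φ v) :=
    Finset.sum_image_le_of_nonneg fun c _ => rl_kap_nonneg _ _ _ _
  -- messages from lower vertices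
  have hlow : ∀ v ∈ nbr G R u, tot β G R M v < a → M v u = tot β G R M v := by
    intro v hv hva
    obtain ⟨hadj, hvR⟩ := rl_mem_nbr.1 hv
    have := (msg_of_lt hβ hM hu hvR hadj (by rw [hua]; exact hva)).1
    rw [this, min_eq_right (by linarith)]
  have hk : ∀ v ∈ (nbr G R u).filter (fun v => tot β G R M v ∈ s),
      kap α W (β + a) (φ v) < - M v u := by
    intro v hv
    rw [Finset.mem_filter] at hv
    have hva := hs _ hv.2
    rw [hlow v hv.1 hva]
    have hvR := (rl_mem_nbr.1 hv.1).2
    have h4 : β + tot β G R M v ≤ min (W (φ v)) (β + a) :=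
      le_min (hφ v hvR hv.2) (by linarith)
    unfold kap
    rw [max_lt_iff]
    constructor <;> linarith
  have hsub : (nbr G R u).filter (fun v => tot β G R M v ∈ s) ⊆
      (nbr G R u).filter (fun v => tot β G R M v < a) := by
    intro v hv
    rw [Finset.mem_filter] at hv ⊢
    exact ⟨hv.1, hs _ hv.2⟩
  have h5 : ∑ v ∈ (nbr G R u).filter (fun v => tot β G R M v ∈ s), (- M v u) ≤
      ∑ v ∈ (nbr G R u).filter (fun v => tot β G R M v < a), (- M v u) := by
    refine Finset.sum_le_sum_of_subset_of_nonneg hsub fun v hv _ => ?_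
    rw [Finset.mem_filter] at hv
    rw [hlow v hv.1 hv.2]
    linarith [hv.2]
  rw [Finset.sum_neg_distrib, Finset.sum_neg_distrib] at h5
  have h6 : ∑ v ∈ (nbr G R u).filter (fun v => tot β G R M v ∈ s), kap α W (β + a) (φ v) ≤
      ∑ v ∈ (nbr G R u).filter (fun v => tot β G R M v ∈ s), (- M v u) :=
    Finset.sum_le_sum fun v hv => (hk v hv).le
  rw [Finset.sum_neg_distrib] at h6
  have hc0 : (0 : ℝ) ≤ (lab G R u).card := Nat.cast_nonneg _
  have h7 : α * (lab G R u).card ≤ β * (lab G R u).card := mul_le_mul_of_nonneg_right hαβ.le hc0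
  refine ⟨by linarith, ?_⟩
  intro hne
  rw [Finset.union_nonempty] at hne
  rcases hne with hl | hi
  · have hc : (0 : ℝ) < (lab G R u).card := by exact_mod_cast Finset.card_pos.2 hl
    have h8 : α * (lab G R u).card < β * (lab G R u).card := mul_lt_mul_of_pos_right hαβ hc
    linarith
  · rw [Finset.image_nonempty] at hi
    have h8 : ∑ v ∈ (nbr G R u).filter (fun v => tot β G R M v ∈ s), kap α W (β + a) (φ v) <
        ∑ v ∈ (nbr G R u).filter (fun v => tot β G R M v ∈ s), (- M v u) :=
      Finset.sum_lt_sum_of_nonempty hi hk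
    rw [Finset.sum_neg_distrib] at h8
    linarith

open Classical in
private lemma rl_split {β : ℝ} (hβ : Irrational β)
    {G : SimpleGraph N} {R : V → N} {M : N → N → ℝ} (hM : Fixed β G R M)
    {a : ℝ} (u : N) (hu : ∀ x, R x ≠ u) (hua : tot β G R M u = a) :
    cw β G R u + ∑ v ∈ (nbr G R u).filter (fun v => tot β G R M v < a), M v u +
      ∑ v ∈ (nbr G R u).filter (fun v => tot β G R M v = a), M v u = a := by
  have h0 : tot β G R M u = cw β G R u + ∑ t ∈ nbr G R u, M t u := rfl
  rw [hua] at h0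
  have h1 : ∑ t ∈ nbr G R u, M t u =
      ∑ v ∈ (nbr G R u).filter (fun v => tot β G R M v < a), M v u +
      ∑ v ∈ (nbr G R u).filter (fun v => tot β G R M v = a), M v u := by
    rw [Finset.sum_filter, Finset.sum_filter, ← Finset.sum_add_distrib]
    refine Finset.sum_congr rfl fun v hv => ?_
    obtain ⟨hadj, hvR⟩ := rl_mem_nbr.1 hv
    rcases lt_trichotomy (tot β G R M v) a with h | h | h
    · rw [if_pos h, if_neg h.ne, add_zero]
    · rw [if_neg (by rw [h]; exact lt_irrefl _), if_pos h, zero_add]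
    · rw [if_neg (by linarith), if_neg h.ne', add_zero]
      exact (msg_of_lt hβ hM hvR hu hadj.symm (by rw [hua]; exact h)).2
  linarith

open Classical in
/-- sum of the messages inside a connected set -/
private lemma rl_inner {ι : Type*} (U : Finset ι) (K : SimpleGraph ι)
    (hU : (K.induce (U : Set ι)).Connected) {a : ℝ} (ha : a < 0) (f : ι → ι → ℝ)
    (hf : ∀ i j, K.Adj i j → f i j + f j i = a) :
    ∑ i ∈ U, ∑ j ∈ U, (if K.Adj i j then f j i else 0) ≤ a * ((U.card : ℝ) - 1) := by
  have hcard := hU.card_vert_le_card_edgeSet_add_one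
  have hsum := (K.induce (U : Set ι)).sum_degrees_eq_twice_card_edges
  have hA : Nat.card (U : Set ι) = U.card := by
    rw [Nat.card_eq_fintype_card]; simp
  have hB : Nat.card (K.induce (U : Set ι)).edgeSet = #(K.induce (U : Set ι)).edgeFinset := by
    rw [Nat.card_eq_fintype_card, SimpleGraph.edgeFinset_card]
  rw [hA, hB] at hcard
  have h1 : ∑ i ∈ U, ∑ j ∈ U, (if K.Adj i j then f j i else 0) =
      ∑ i ∈ U, ∑ j ∈ U, (if K.Adj i j then f i j else 0) := by
    rw [Finset.sum_comm]
    refine Finset.sum_congr rfl fun i _ => Finset.sum_congr rfl fun j _ => ?_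
    simp only [K.adj_comm j i]
  have h2 : ∑ i ∈ U, ∑ j ∈ U, (if K.Adj i j then f j i else 0) +
      ∑ i ∈ U, ∑ j ∈ U, (if K.Adj i j then f i j else 0) =
      a * ∑ i ∈ U, ∑ j ∈ U, (if K.Adj i j then (1 : ℝ) else 0) := by
    rw [← Finset.sum_add_distrib, Finset.mul_sum]
    refine Finset.sum_congr rfl fun i _ => ?_
    rw [← Finset.sum_add_distrib, Finset.mul_sum]
    refine Finset.sum_congr rfl fun j _ => ?_
    split_ifs with h
    · rw [mul_one, ← hf i j h, add_comm]
    · simp
  have h3 : ∑ i ∈ U, ∑ j ∈ U, (if K.Adj i j then (1 : ℝ) else 0) =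
      2 * (#(K.induce (U : Set ι)).edgeFinset : ℝ) := by
    have h4 : ((∑ v : (U : Set ι), (K.induce (U : Set ι)).degree v : ℕ) : ℝ) =
        ∑ i ∈ U, ∑ j ∈ U, (if K.Adj i j then (1 : ℝ) else 0) := by
      push_cast
      rw [← Finset.sum_coe_sort U]
      refine Finset.sum_congr rfl fun i _ => ?_
      rw [← SimpleGraph.card_neighborFinset_eq_degree, SimpleGraph.neighborFinset_eq_filter]
      rw [← Finset.sum_coe_sort U, Finset.card_filter]
      push_cast
      refine Finset.sum_congr rfl fun j _ => ?_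
      rfl
    rw [← h4, hsum]
    push_cast
    ring
  rw [h3] at h2
  have h5 : (U.card : ℝ) ≤ (#(K.induce (U : Set ι)).edgeFinset : ℝ) + 1 := by exact_mod_cast hcard
  nlinarith

open Classical in
theorem rich_low {α β : ℝ} (hα : 0 < α) (hαβ : α < β) (hβ1 : β < 1) (hβ : Irrational β)
    {G : SimpleGraph N} {R : V → N} {M : N → N → ℝ} (hM : Fixed β G R M) {W : V → ℝ}
    (hW : ∀ a, 0 ≤ W a ∧ W a ≤ 1) {a : ℝ} (ha : a < 0) (s : Finset ℝ) (hs : ∀ x ∈ s, x < a)
    (φ : N → V)
    (hφ : ∀ v, (∀ x, R x ≠ v) → tot β G R M v ∈ s → β + tot β G R M v ≤ W (φ v)) :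
    Rich α W (β + a) (G.induce {u : N | (∀ x, R x ≠ u) ∧ tot β G R M u = a})
      (fun u => lab G R (u : N) ∪
        ((nbr G R (u : N)).filter fun v => tot β G R M v ∈ s).image φ) := by
  intro U hU
  unfold wgt
  -- lower bound of each term
  have hterm : ∀ u : {u : N | (∀ x, R x ≠ u) ∧ tot β G R M u = a},
      (β - α) + a - ∑ v ∈ (nbr G R (u : N)).filter (fun v => tot β G R M v = a), M v u ≤
      1 - α - ∑ c ∈ lab G R (u : N) ∪
        ((nbr G R (u : N)).filter fun v => tot β G R M v ∈ s).image φ, kap α W (β + a) c ∧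
      ((lab G R (u : N) ∪
        ((nbr G R (u : N)).filter fun v => tot β G R M v ∈ s).image φ).Nonempty →
      (β - α) + a - ∑ v ∈ (nbr G R (u : N)).filter (fun v => tot β G R M v = a), M v u <
      1 - α - ∑ c ∈ lab G R (u : N) ∪
        ((nbr G R (u : N)).filter fun v => tot β G R M v ∈ s).image φ, kap α W (β + a) c) := by
    intro u
    have h1 := rl_cost hα hαβ hβ hM hW ha s hs φ hφ u u.2.1 u.2.2
    have h2 := rl_split hβ hM (a := a) u u.2.1 u.2.2
    have h3 : cw β G R (u : N) = 1 - β - β * (lab G R (u : N)).card := rfl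
    rw [h3] at h2
    refine ⟨by linarith [h1.1], fun hne => by linarith [h1.2 hne]⟩
  have hneg : ∀ u : {u : N | (∀ x, R x ≠ u) ∧ tot β G R M u = a},
      ∀ v ∈ (nbr G R (u : N)).filter (fun v => tot β G R M v = a), M v u ≤ 0 := by
    intro u v hv
    rw [Finset.mem_filter] at hv
    obtain ⟨hadj, hvR⟩ := rl_mem_nbr.1 hv.1
    exact (msg_of_eq hβ hM u.2.1 hvR hadj (by rw [hv.2]; exact u.2.2)
      (by rw [show tot β G R M (u : N) = a from u.2.2]; exact ha)).2.2.le
  -- nonempty
  obtain ⟨⟨u0, hu0⟩⟩ := hU.nonempty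
  have hUcard : 1 ≤ U.card := Finset.card_pos.2 ⟨u0, hu0⟩
  rcases Nat.lt_or_ge 1 U.card with hU2 | hU1
  · -- at least two vertices
    have hin := rl_inner U _ hU ha (fun i j => M (i : N) (j : N)) (fun i j hij => by
      have hadj : G.Adj (i : N) (j : N) := hij
      have := (msg_of_eq hβ hM i.2.1 j.2.1 hadj
        ((show tot β G R M (i : N) = a from i.2.2).trans
          (show tot β G R M (j : N) = a from j.2.2).symm)
        (by rw [show tot β G R M (i : N) = a from i.2.2]; exact ha)).1
      rw [show tot β G R M (i : N) = a from i.2.2] at this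
      exact this)
    have hlow : ∀ u ∈ U, ∑ v ∈ (nbr G R (u : N)).filter (fun v => tot β G R M v = a), M v u ≤
        ∑ j ∈ U, (if (G.induce {u : N | (∀ x, R x ≠ u) ∧ tot β G R M u = a}).Adj u j
          then M (j : N) (u : N) else 0) := by
      intro u _
      rw [← Finset.sum_filter]
      have him : ((U.filter fun j =>
          (G.induce {u : N | (∀ x, R x ≠ u) ∧ tot β G R M u = a}).Adj u j).image
            Subtype.val) ⊆ (nbr G R (u : N)).filter (fun v => tot β G R M v = a) := by
        intro v hv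
        rw [Finset.mem_image] at hv
        obtain ⟨j, hj, rfl⟩ := hv
        rw [Finset.mem_filter] at hj
        rw [Finset.mem_filter]
        exact ⟨rl_mem_nbr.2 ⟨hj.2, j.2.1⟩, j.2.2⟩
      have h9 : ∑ j ∈ U.filter (fun j =>
          (G.induce {u : N | (∀ x, R x ≠ u) ∧ tot β G R M u = a}).Adj u j), M (j : N) (u : N) =
          ∑ v ∈ ((U.filter fun j =>
          (G.induce {u : N | (∀ x, R x ≠ u) ∧ tot β G R M u = a}).Adj u j).image
            Subtype.val), M v (u : N) := by
        rw [Finset.sum_image (fun x _ y _ h => Subtype.ext h)]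
      rw [h9]
      have h10 := Finset.sum_le_sum_of_subset_of_nonneg (f := fun v => - M v (u : N)) him
        (fun v hv _ => by have := hneg u v hv; linarith)
      rw [Finset.sum_neg_distrib, Finset.sum_neg_distrib] at h10
      linarith
    have h11 : ∑ u ∈ U, ((β - α) + a -
        ∑ v ∈ (nbr G R (u : N)).filter (fun v => tot β G R M v = a), M v (u : N)) ≤
        ∑ u ∈ U, (1 - α - ∑ c ∈ lab G R (u : N) ∪
        ((nbr G R (u : N)).filter fun v => tot β G R M v ∈ s).image φ, kap α W (β + a) c) :=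
      Finset.sum_le_sum fun u _ => (hterm u).1
    have h12 := Finset.sum_le_sum hlow
    rw [Finset.sum_sub_distrib, Finset.sum_const, nsmul_eq_mul] at h11
    have hc : (1 : ℝ) < U.card := by exact_mod_cast hU2
    have hd : 0 < (β - α) * ((U.card : ℝ) - 1) := mul_pos (by linarith) (by linarith)
    refine lt_of_lt_of_le ?_ (add_le_add_right h11 α)
    have h13 : ∑ i ∈ U, ∑ v ∈ (nbr G R (i : N)).filter (fun v => tot β G R M v = a), M v (i : N)
        ≤ a * ((U.card : ℝ) - 1) := h12.trans hin
    have h14 : (U.card : ℝ) * (β - α + a) - a * ((U.card : ℝ) - 1) =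
      (β - α) * ((U.card : ℝ) - 1) + (β - α + a) := by ring
    linarith
  · -- one vertex
    have hU1' : U = {u0} := by
      have : U.card = 1 := le_antisymm hU1 hUcard
      rw [Finset.card_eq_one] at this
      obtain ⟨x, hx⟩ := this
      rw [hx] at hu0 ⊢
      have := Finset.mem_singleton.1 (show u0 ∈ ({x} : Finset _) from by simpa using hu0)
      rw [this]
    rw [hU1', Finset.sum_singleton]
    have hs0 : ∑ v ∈ (nbr G R (u0 : N)).filter (fun v => tot β G R M v = a), M v (u0 : N) ≤ 0 :=
      Finset.sum_nonpos fun v hv => hneg u0 v hv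
    by_cases hne : (lab G R (u0 : N) ∪
        ((nbr G R (u0 : N)).filter fun v => tot β G R M v ∈ s).image φ).Nonempty
    · have := (hterm u0).2 hne
      linarith
    · rw [Finset.not_nonempty_iff_eq_empty] at hne
      beta_reduce
      rw [hne, Finset.sum_empty]
      linarith

end Pool.MP_65847d_pr
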