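import Pool.Agent.Lib.MP_65847d_pr.C.LDefs

/-!
# C/WitAdd : joining two witnesses by an edge
-/

set_option autoImplicit false
set_option linter.unusedSectionVars false

open Finset

namespace Pool.MP_65847d_pr

variable {N V : Type*} [Fintype N] [DecidableEq N] [Fintype V] [DecidableEq V]

theorem wit_single (G : SimpleGraph N) (R : V → N) (z : N) (hz : ∀ x, R x ≠ z) :
    Wit G R (Pi.single z 1) (fun _ => 0) := by
  have hsum : ∑ a, (Pi.single z 1 : N → ℕ) a = 1 := by
    rw [Finset.sum_pi_single']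
    simp
  refine ⟨?_, ?_, ?_, ?_, ?_⟩
  · intro a ha x
    by_cases h : a = z
    · subst h; exact hz x
    · exfalso
      apply ha
      simp [Pi.single_apply, h]
  · rw [hsum]
  · rw [hsum]
    simp
  · intro a b h
    exact absurd rfl h
  · intro a b
    exact Nat.zero_le _

theorem wit_add (G : SimpleGraph N) (R : V → N) {μ μ' : N → ℕ} {ν ν' : Sym2 N → ℕ} {z t : N}
    (h : Wit G R μ ν) (h' : Wit G R μ' ν') (hzt : G.Adj z t)
    (hz : ν s(z, t) + 1 ≤ μ z) (ht : ν' s(t, z) + 1 ≤ μ' t) :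
    Wit G R (μ + μ') (fun e => ν e + ν' e + if e = s(z, t) then 1 else 0) := by
  obtain ⟨a1, a2, a3, a4, a5⟩ := h
  obtain ⟨b1, b2, b3, b4, b5⟩ := h'
  have hsum : ∑ a, (μ + μ') a = ∑ a, μ a + ∑ a, μ' a := by
    simp [sum_add_distrib]
  refine ⟨?_, ?_, ?_, ?_, ?_⟩
  · intro a ha x
    by_cases h1 : μ a = 0
    · refine b1 a ?_ x
      intro h2
      apply ha
      simp [h1, h2]
    · exact a1 a h1 x
  · rw [hsum]; omega
  · rw [hsum, sum_add_distrib, sum_add_distrib]
    have : ∑ e : Sym2 N, (if e = s(z, t) then 1 else 0) = 1 := by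
      rw [sum_ite_eq' univ s(z, t) (fun _ => 1)]
      simp
    rw [this]
    omega
  · intro a b hab
    by_cases h1 : ν s(a, b) = 0
    · by_cases h2 : ν' s(a, b) = 0
      · by_cases h3 : s(a, b) = s(z, t)
        · rw [Sym2.eq_iff] at h3
          rcases h3 with ⟨rfl, rfl⟩ | ⟨rfl, rfl⟩
          · exact hzt
          · exact hzt.symm
        · exfalso
          apply hab
          simp [h1, h2, h3]
      · exact b4 a b h2
    · exact a4 a b h1
  · intro a b
    show ν s(a, b) + ν' s(a, b) + (if s(a, b) = s(z, t) then 1 else 0) ≤ μ a + μ' a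
    have h1 := a5 a b
    have h2 := b5 a b
    by_cases h3 : s(a, b) = s(z, t)
    · rw [if_pos h3]
      rw [Sym2.eq_iff] at h3
      rcases h3 with ⟨rfl, rfl⟩ | ⟨rfl, rfl⟩
      · omega
      · omega
    · rw [if_neg h3]
      omega

theorem vl_single (β : ℝ) (G : SimpleGraph N) (R : V → N) (z : N) :
    vl β G R (Pi.single z 1) = cw β G R z := by
  unfold vl
  rw [Finset.sum_eq_single z]
  · simp
  · intro b _ hb
    simp [Pi.single_apply, hb]
  · intro h
    exact absurd (mem_univ z) h

theorem vl_add (β : ℝ) (G : SimpleGraph N) (R : V → N) (μ μ' : N → ℕ) :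
    vl β G R (μ + μ') = vl β G R μ + vl β G R μ' := by
  unfold vl
  rw [← sum_add_distrib]
  refine sum_congr rfl fun a _ => ?_
  simp only [Pi.add_apply, Nat.cast_add]
  ring

end Pool.MP_65847d_pr
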