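import Pool.Agent.Lib.MP_65847d_pr.C.Layer
import Pool.Agent.Lib.MP_65847d_pr.C.WitAdd

/-!
# C/SumWit : every partial sum of messages has a small witness

Proof: induction on `k`, for all `z` and `T`. For fixed `k`, `z` induction on `T` (Finset.induction_on).
`T = ∅`: `μ = Pi.single z 1`, `ν = 0` (`wit_single`, `vl_single`), total `1 ≤ K0` (as `1 ≤ η K0`, `K0 ≠ 0`).
`insert t T`: let `(μ, ν)` be the witness for `T`. If `msg k t z = 0` keep it. Otherwise `k = k' + 1` and
`msg k t z = cw t + ∑ over (nbr t).erase z of msg k'` (the `min` with `0` is not `0`); the induction hypothesis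
for `k'`, `t` (a non-root since `t ∈ nbr z`), `(nbr t).erase z` gives `(μ', ν')` with `vl μ' = msg k t z` and, as
`z ∉ (nbr t).erase z`, `ν' s(t,z) + 1 ≤ μ' t`; also `ν s(z,t) + 1 ≤ μ z` as `t ∉ T`. So `wit_add` applies, and
the new total is `≤ 2 K0 ≤ 2 K0 + 2`. `layer` (with `K = 2 K0 + 2`) gives
`η * total ≤ β + vl = β + cw z + (sum of messages) ≤ β + cw z ≤ 1 ≤ η K0` (messages are `≤ 0`), so total `≤ K0`.
Reserve for `t' ∉ insert t T`: `ν s(z,t') + ν' s(z,t') + [s(z,t') = s(z,t)] + 1 ≤ μ z + μ' z`, the bracket is `0`.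
-/

set_option autoImplicit false

open Finset

namespace Pool.MP_65847d_pr

variable {N V : Type*} [Fintype N] [DecidableEq N] [Fintype V] [DecidableEq V]

theorem msg_nonpos (β : ℝ) (G : SimpleGraph N) (R : V → N) (k : ℕ) (z y : N) :
    msg β G R k z y ≤ 0 := by
  cases k with
  | zero => exact le_of_eq rfl
  | succ k => exact min_le_left _ _

private theorem sum_wit_step (G : SimpleGraph N) (R : V → N) {β η : ℝ} (hβ0 : 0 < β) (hη : 0 < η)
    {K0 : ℕ} (hK0 : 1 ≤ η * K0) (hspa : Spa β η (2 * K0 + 2) G R) (k : ℕ)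
    (ihk : ∀ k', k = k' + 1 →
      ∀ z, (∀ x, R x ≠ z) → ∀ T ⊆ nbr G R z, ∃ (μ : N → ℕ) (ν : Sym2 N → ℕ), Wit G R μ ν ∧
      ∑ a, μ a ≤ K0 ∧ vl β G R μ = cw β G R z + ∑ t ∈ T, msg β G R k' t z ∧
      ∀ t, t ∉ T → ν s(z, t) + 1 ≤ μ z) :
    ∀ z, (∀ x, R x ≠ z) → ∀ T ⊆ nbr G R z, ∃ (μ : N → ℕ) (ν : Sym2 N → ℕ), Wit G R μ ν ∧
      ∑ a, μ a ≤ K0 ∧ vl β G R μ = cw β G R z + ∑ t ∈ T, msg β G R k t z ∧
      ∀ t, t ∉ T → ν s(z, t) + 1 ≤ μ z := by
  have hK1 : 1 ≤ K0 := by
    rcases Nat.eq_zero_or_pos K0 with h | h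
    · rw [h] at hK0
      norm_num at hK0
    · exact h
  intro z hz T
  induction T using Finset.induction_on with
  | empty =>
    intro _
    refine ⟨Pi.single z 1, fun _ => 0, wit_single G R z hz, ?_, ?_, ?_⟩
    · rw [sum_pi_single']
      simpa using hK1
    · rw [vl_single, sum_empty, add_zero]
    · intro t _
      simp
  | insert t T ht ih =>
    intro hT
    obtain ⟨μ, ν, hw, hK, hvl, hres⟩ := ih ((subset_insert t T).trans hT)
    have htn : t ∈ nbr G R z := hT (mem_insert_self t T)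
    have htn' : G.Adj z t ∧ ∀ x, R x ≠ t := by
      classical
      unfold nbr at htn
      exact (mem_filter.1 htn).2
    by_cases h0 : msg β G R k t z = 0
    · refine ⟨μ, ν, hw, hK, ?_, ?_⟩
      · rw [sum_insert ht, h0, zero_add]
        exact hvl
      · intro t' ht'
        exact hres t' (fun h => ht' (mem_insert_of_mem h))
    · rcases k with _ | k'
      · exact absurd rfl h0
      have hmsg : msg β G R (k' + 1) t z =
          cw β G R t + ∑ s ∈ (nbr G R t).erase z, msg β G R k' s t := by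
        have h1 : msg β G R (k' + 1) t z =
          min 0 (cw β G R t + ∑ s ∈ (nbr G R t).erase z, msg β G R k' s t) := rfl
        rcases min_choice 0 (cw β G R t + ∑ s ∈ (nbr G R t).erase z, msg β G R k' s t) with h | h
        · exact absurd (h1.trans h) h0
        · exact h1.trans h
      obtain ⟨μ', ν', hw', hK', hvl', hres'⟩ := ihk k' rfl t htn'.2 ((nbr G R t).erase z)
        (erase_subset _ _)
      have hW := wit_add G R hw hw' htn'.1 (hres t ht) (hres' z (notMem_erase z _))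
      have hv : vl β G R (μ + μ') =
          cw β G R z + ∑ s ∈ insert t T, msg β G R (k' + 1) s z := by
        rw [vl_add, hvl, hvl', ← hmsg, sum_insert ht]
        ring
      have hs : ∑ a, (μ + μ') a = ∑ a, μ a + ∑ a, μ' a := by
        simp only [Pi.add_apply]
        exact sum_add_distrib
      refine ⟨μ + μ', _, hW, ?_, hv, ?_⟩
      · have h1 := layer G R hβ0.le hspa hW (by omega)
        rw [hv] at h1
        have h2 : ∑ s ∈ insert t T, msg β G R (k' + 1) s z ≤ 0 :=
          sum_nonpos (fun s _ => msg_nonpos β G R (k' + 1) s z)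
        have h3 : cw β G R z ≤ 1 - β := by
          unfold cw
          have : 0 ≤ β * ((lab G R z).card : ℝ) := mul_nonneg hβ0.le (Nat.cast_nonneg _)
          linarith
        have h4 : η * ((∑ a, (μ + μ') a : ℕ) : ℝ) ≤ η * (K0 : ℝ) := by linarith
        exact_mod_cast le_of_mul_le_mul_left h4 hη
      · intro t' ht'
        have h1 := hres t' (fun h => ht' (mem_insert_of_mem h))
        have h2 := hw'.2.2.2.2 z t'
        have h3 : s(z, t') ≠ s(z, t) := by
          intro h
          apply ht'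
          rw [Sym2.congr_right.1 h]
          exact mem_insert_self t T
        simp only [if_neg h3, Pi.add_apply]
        omega

theorem sum_wit (G : SimpleGraph N) (R : V → N) {β η : ℝ} (hβ0 : 0 < β) (hη : 0 < η) {K0 : ℕ}
    (hK0 : 1 ≤ η * K0) (hspa : Spa β η (2 * K0 + 2) G R) (k : ℕ) :
    ∀ z, (∀ x, R x ≠ z) → ∀ T ⊆ nbr G R z, ∃ (μ : N → ℕ) (ν : Sym2 N → ℕ), Wit G R μ ν ∧
      ∑ a, μ a ≤ K0 ∧ vl β G R μ = cw β G R z + ∑ t ∈ T, msg β G R k t z ∧
      ∀ t, t ∉ T → ν s(z, t) + 1 ≤ μ z := by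
  induction k with
  | zero => exact sum_wit_step G R hβ0 hη hK0 hspa 0 (fun k' h => absurd h (by omega))
  | succ k ih =>
    refine sum_wit_step G R hβ0 hη hK0 hspa (k + 1) (fun k' h => ?_)
    have h1 : k = k' := by omega
    rw [← h1]
    exact ih

end Pool.MP_65847d_pr
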