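import Pool.Agent.Lib.MP_65847d_pr.C.LDefs

/-!
# C/Types : the two messages along an edge between non-roots
-/

set_option autoImplicit false
set_option linter.unusedSectionVars false

open Finset

namespace Pool.MP_65847d_pr

variable {N V : Type*} [Fintype N] [DecidableEq N] [Fintype V] [DecidableEq V]

private theorem irr_ne {β : ℝ} (hβ : Irrational β) {a b : ℕ} (ha : 1 ≤ a) :
    (a : ℝ) - β * b ≠ 0 := by
  intro h
  have hb : b ≠ 0 := by
    rintro rfl
    have h2 : (a : ℝ) = 0 := by simpa using h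
    have : a = 0 := by exact_mod_cast h2
    omega
  have hb' : (b : ℝ) ≠ 0 := by exact_mod_cast hb
  apply hβ
  refine ⟨(a : ℚ) / b, ?_⟩
  push_cast
  field_simp
  linarith

theorem tot_ne_zero {β : ℝ} (hβ : Irrational β) {G : SimpleGraph N} {R : V → N} {M : N → N → ℝ}
    (hM : Fixed β G R M) {u : N} (hu : ∀ x, R x ≠ u) : tot β G R M u ≠ 0 := by
  obtain ⟨a, b, ha, h⟩ := hM.gen u hu (nbr G R u) (Subset.refl _)
  unfold tot
  rw [h]
  exact irr_ne hβ ha

private theorem types_eq {β : ℝ} {G : SimpleGraph N} {R : V → N} {M : N → N → ℝ}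
    (hM : Fixed β G R M) {u v : N} (hu : ∀ x, R x ≠ u) (hv : ∀ x, R x ≠ v) (huv : G.Adj u v) :
    M u v = min 0 (tot β G R M u - M v u) := by
  have hvn : v ∈ nbr G R u := by
    classical
    exact mem_filter.mpr ⟨mem_univ _, huv, hv⟩
  rw [hM.fix u hu v]
  congr 1
  unfold tot
  have := sum_erase_add (nbr G R u) (fun t => M t u) hvn
  linarith

private theorem types_ne {β : ℝ} (hβ : Irrational β) {G : SimpleGraph N} {R : V → N}
    {M : N → N → ℝ}
    (hM : Fixed β G R M) {u v : N} (hu : ∀ x, R x ≠ u) (hv : ∀ x, R x ≠ v) (huv : G.Adj u v) :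
    tot β G R M u - M v u ≠ 0 := by
  have hvn : v ∈ nbr G R u := by
    classical
    exact mem_filter.mpr ⟨mem_univ _, huv, hv⟩
  obtain ⟨a, b, ha, h⟩ := hM.gen u hu ((nbr G R u).erase v) (erase_subset _ _)
  have h2 : tot β G R M u - M v u = cw β G R u + ∑ t ∈ (nbr G R u).erase v, M t u := by
    unfold tot
    have := sum_erase_add (nbr G R u) (fun t => M t u) hvn
    linarith
  rw [h2, h]
  exact irr_ne hβ ha

/-- the four cases -/
private theorem types_cases {β : ℝ} (hβ : Irrational β) {G : SimpleGraph N} {R : V → N}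
    {M : N → N → ℝ}
    (hM : Fixed β G R M) {u v : N} (hu : ∀ x, R x ≠ u) (hv : ∀ x, R x ≠ v) (huv : G.Adj u v) :
    (M u v < 0 ∧ M v u < 0 ∧ tot β G R M u = M u v + M v u ∧
      tot β G R M v = M u v + M v u) ∨
    (M u v = 0 ∧ M v u < 0 ∧ tot β G R M v = M v u ∧ tot β G R M v < tot β G R M u) ∨
    (M v u = 0 ∧ M u v < 0 ∧ tot β G R M u = M u v ∧ tot β G R M u < tot β G R M v) ∨
    (M u v = 0 ∧ M v u = 0 ∧ 0 < tot β G R M u ∧ 0 < tot β G R M v) := by
  have h1 := types_eq hM hu hv huv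
  have h2 := types_eq hM hv hu huv.symm
  have n1 := types_ne hβ hM hu hv huv
  have n2 := types_ne hβ hM hv hu huv.symm
  rcases lt_or_gt_of_ne n1 with a | a
  · rw [min_eq_right a.le] at h1
    rcases lt_or_gt_of_ne n2 with b | b
    · rw [min_eq_right b.le] at h2
      left
      refine ⟨?_, ?_, ?_, ?_⟩ <;> linarith
    · rw [min_eq_left b.le] at h2
      right; right; left
      refine ⟨?_, ?_, ?_, ?_⟩ <;> linarith
  · rw [min_eq_left a.le] at h1
    rcases lt_or_gt_of_ne n2 with b | b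
    · rw [min_eq_right b.le] at h2
      right; left
      refine ⟨?_, ?_, ?_, ?_⟩ <;> linarith
    · rw [min_eq_left b.le] at h2
      right; right; right
      refine ⟨?_, ?_, ?_, ?_⟩ <;> linarith

theorem msg_of_lt {β : ℝ} (hβ : Irrational β) {G : SimpleGraph N} {R : V → N} {M : N → N → ℝ}
    (hM : Fixed β G R M) {u v : N} (hu : ∀ x, R x ≠ u) (hv : ∀ x, R x ≠ v) (huv : G.Adj u v)
    (h : tot β G R M v < tot β G R M u) :
    M v u = min 0 (tot β G R M v) ∧ M u v = 0 := by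
  rcases types_cases hβ hM hu hv huv with ⟨a, b, c, d⟩ | ⟨a, b, c, d⟩ | ⟨a, b, c, d⟩ |
    ⟨a, b, c, d⟩
  · linarith
  · refine ⟨?_, a⟩
    rw [c, min_eq_right b.le]
  · linarith
  · refine ⟨?_, a⟩
    rw [min_eq_left d.le, b]

theorem msg_of_eq {β : ℝ} (hβ : Irrational β) {G : SimpleGraph N} {R : V → N} {M : N → N → ℝ}
    (hM : Fixed β G R M) {u v : N} (hu : ∀ x, R x ≠ u) (hv : ∀ x, R x ≠ v) (huv : G.Adj u v)
    (h : tot β G R M u = tot β G R M v) (h0 : tot β G R M u < 0) :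
    M u v + M v u = tot β G R M u ∧ M u v < 0 ∧ M v u < 0 := by
  rcases types_cases hβ hM hu hv huv with ⟨a, b, c, d⟩ | ⟨a, b, c, d⟩ | ⟨a, b, c, d⟩ |
    ⟨a, b, c, d⟩
  · exact ⟨c.symm, a, b⟩
  · linarith
  · linarith
  · linarith

theorem msg_of_pos {β : ℝ} (hβ : Irrational β) {G : SimpleGraph N} {R : V → N} {M : N → N → ℝ}
    (hM : Fixed β G R M) {u v : N} (hu : ∀ x, R x ≠ u) (hv : ∀ x, R x ≠ v) (huv : G.Adj u v)
    (h : 0 < tot β G R M u) (h' : 0 < tot β G R M v) : M u v = 0 ∧ M v u = 0 := by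
  rcases types_cases hβ hM hu hv huv with ⟨a, b, c, d⟩ | ⟨a, b, c, d⟩ | ⟨a, b, c, d⟩ |
    ⟨a, b, c, d⟩
  · linarith
  · linarith
  · linarith
  · exact ⟨a, b⟩

end Pool.MP_65847d_pr
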